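import Pool.Agent.Work.MP_8dbde4_lc.HP.Fix

/-!
# The step problem as a constraint satisfaction problem on the letters
-/

namespace Pool.Agent.Work.MP_8dbde4_lc.HP

open Pool.Agent.Work.MP_8dbde4_lc.TS

variable {E : (σ : Sig) → (ι : Type) → Query σ ι → Prop}
variable {σ : Sig} {Λ : Type} {L : Letters σ Λ} {c : ℚ → Λ} {A : Type}

/-- the instance of the letter structure: masks -/
def D0 : (Q : (add (markSig σ) 2).S) → Query (add σ 1) (Fin 2 ⊕ Fin ((add (markSig σ) 2).ar Q))
  | none => fun _ _ s => s (Sum.inr (0 : Fin 2)) = s (Sum.inl 0) ∧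
      s (Sum.inr (1 : Fin 2)) = s (Sum.inl 1)
  | some p => fun _ 𝔄 s => 𝔄.rel (some p.1) (fun i => s (Sum.inr i)) ∧
      ∀ i : Fin (σ.ar p.1), (p.2 i = true ↔ un 𝔄 (s (Sum.inr i)))

lemma expr_D0 (hE : IsClosed E) (Q : (add (markSig σ) 2).S) : E _ _ (D0 Q) := by
  cases Q with
  | none =>
    exact hE.and (hE.eq (σ := add σ 1) (ι := Fin 2 ⊕ Fin 2) _ _) (hE.eq _ _)
  | some p =>
    refine hE.and (hE.rel (σ := add σ 1) (ι := Fin 2 ⊕ Fin (σ.ar p.1)) (some p.1)
      (fun i => Sum.inr i)) (hE.allI fun i => ?_)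
    exact hE.iffC (hE.rel (σ := add σ 1) (ι := Fin 2 ⊕ Fin (σ.ar p.1)) none
      (fun _ => Sum.inr i)) _

lemma sep_iff₀ (𝔄 : Str (add σ 1) A) (t : Fin 2 → A) :
    Sep L (red 𝔄) (un 𝔄) (t 0) (t 1) ↔
      un 𝔄 (t 0) ∧ un 𝔄 (t 1) ∧ CSP (letters₀ L) A (defStr D0 𝔄 t) := by
  classical
  constructor
  · rintro ⟨hx, hy, h, hh, hd⟩
    refine ⟨hx, hy, ?_⟩
    obtain ⟨l, hl⟩ := Option.ne_none_iff_exists'.1 ((hh.dom _).2 hx)
    have hsome : ∀ u, un 𝔄 u → h u = some ((h u).getD l) := by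
      intro u hu
      obtain ⟨k, hk⟩ := Option.ne_none_iff_exists'.1 ((hh.dom _).2 hu)
      rw [hk]
      rfl
    refine ⟨fun u => (h u).getD l, fun Q s hs => ?_⟩
    rcases Q with _ | p
    · obtain ⟨h1, h2⟩ := hs
      have h1' : s (0 : Fin 2) = t 0 := h1
      have h2' : s (1 : Fin 2) = t 1 := h2
      show (h (s (0 : Fin 2))).getD l ≠ (h (s (1 : Fin 2))).getD l ∨
        L.term ((h (s (0 : Fin 2))).getD l)
      rw [h1', h2']
      rcases hd with hd | ⟨k, hk, hd⟩
      · left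
        intro he
        apply hd
        rw [hsome _ hx, hsome _ hy, he]
      · right
        rw [hd]
        exact hk
    · obtain ⟨h1, h2⟩ := hs
      show L.pat p.1 (fun i => if p.2 i then some ((h (s i)).getD l) else none)
      have := hh.ok p.1 s h1
      have he : (fun i => if p.2 i then some ((h (s i)).getD l) else none) = fun i => h (s i) := by
        funext i
        have h3 : (p.2 i = true ↔ un 𝔄 (s i)) := h2 i
        by_cases hi : un 𝔄 (s i)
        · rw [if_pos (h3.2 hi), ← hsome _ hi]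
        · rw [if_neg (fun h' => hi (h3.1 h'))]
          by_contra hne
          exact hi ((hh.dom _).1 (fun h' => hne h'.symm))
      rw [he]
      exact this
  · rintro ⟨hx, hy, h, hh⟩
    refine ⟨hx, hy, fun u => if un 𝔄 u then some (h u) else none, ⟨fun u => ?_, fun R s hs => ?_⟩,
      ?_⟩
    · by_cases hu : un 𝔄 u <;> simp [hu]
    · have := hh (some ⟨R, fun i => decide (un 𝔄 (s i))⟩) s ⟨hs, fun i => by
        show (decide (un 𝔄 (s i)) = true ↔ _)
        rw [decide_eq_true_iff]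
        rfl⟩
      have h2 : L.pat R (fun i => if decide (un 𝔄 (s i)) then some (h (s i)) else none) := this
      simpa using h2
    · have := hh none (![t 0, t 1] : Fin 2 → A) ⟨rfl, rfl⟩
      have h2 : h (t 0) ≠ h (t 1) ∨ L.term (h (t 0)) := this
      simp only [if_pos hx, if_pos hy]
      rcases h2 with h2 | h2
      · left
        intro he
        exact h2 (by simpa using he)
      · exact Or.inr ⟨_, h2, rfl⟩

lemma expr_un (hE : IsClosed E) {ι : Type} {σ : Sig} (k : ι) :
    E (add σ 1) ι (fun _ 𝔄 t => un 𝔄 (t k)) := hE.rel (σ := add σ 1) (ι := ι) none (fun _ => k)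

lemma stepE_of₀ (hE : IsClosed E) (h : InE E (CSP (letters₀ L))) : StepE E L := by
  have h1 := hE.subst (hE.of_inE (ι := Fin 2) h) (fun Q => expr_D0 (σ := σ) hE Q)
  exact hE.congr (hE.and (expr_un hE 0) (hE.and (expr_un hE 1) h1))
    (fun A _ _ 𝔄 t => sep_iff₀ 𝔄 t)

/-- **Second theorem.**  A sufficient condition in terms of the structure on the letters. -/
theorem inE_tree₀ (hE : IsClosed E) (hc : ∀ q, ¬ L.term (c q)) (h : InE E (CSP (letters₀ L))) :
    InE E (CSP (tree L c)) := inE_tree hE hc (stepE_of₀ hE h)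

end Pool.Agent.Work.MP_8dbde4_lc.HP
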