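import Pool.Agent.Work.MP_8dbde4_lc.HP.Defs

/-!
# Logics which are closed under first-order operations, substitution and fixed points
-/

namespace Pool.Agent.Work.MP_8dbde4_lc.HP

open Pool.Agent.Work.MP_8dbde4_lc.TS

/-- A query: a relation (with the arguments indexed by `ι`) in every structure. -/
abbrev Query (σ : Sig) (ι : Type) := (A : Type) → Str σ A → (ι → A) → Prop

/-- The structure defined by the queries `D R`, with the parameters `t`. -/
def defStr {σ σ' : Sig} {ι : Type} (D : (R : σ'.S) → Query σ (ι ⊕ Fin (σ'.ar R))) {A : Type}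
    (𝔄 : Str σ A) (t : ι → A) : Str σ' A where
  rel R s := D R A 𝔄 (Sum.elim t s)

/-- Stages of an inflationary induction, for queries. -/
def St {σ : Sig} (P : Query (add σ 2) (Fin 2)) {A : Type} (𝔄 : Str σ A) : ℕ → A → A → Prop
  | 0 => fun _ _ => False
  | n + 1 => fun a b => St P 𝔄 n a b ∨ P A (adds 𝔄 (fun t => St P 𝔄 n (t 0) (t 1))) ![a, b]

/-- A logic `E` (a set of queries) is closed: it depends on finite structures only, it is closed
under first-order operations and renaming of variables, under the substitution of queries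
with parameters for relation symbols, and under (binary) inflationary fixed points. -/
structure IsClosed (E : (σ : Sig) → (ι : Type) → Query σ ι → Prop) : Prop where
  congr : ∀ {σ : Sig} {ι : Type} {P Q : Query σ ι}, E σ ι P →
    (∀ (A : Type) [Finite A] [Nonempty A] (𝔄 : Str σ A) (t : ι → A), Q A 𝔄 t ↔ P A 𝔄 t) →
    E σ ι Q
  not : ∀ {σ : Sig} {ι : Type} {P : Query σ ι}, E σ ι P → E σ ι (fun A 𝔄 t => ¬ P A 𝔄 t)
  and : ∀ {σ : Sig} {ι : Type} {P Q : Query σ ι}, E σ ι P → E σ ι Q →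
    E σ ι (fun A 𝔄 t => P A 𝔄 t ∧ Q A 𝔄 t)
  rel : ∀ {σ : Sig} {ι : Type} (R : σ.S) (f : Fin (σ.ar R) → ι),
    E σ ι (fun _ 𝔄 t => 𝔄.rel R (fun i => t (f i)))
  eq : ∀ {σ : Sig} {ι : Type} (i j : ι), E σ ι (fun _ _ t => t i = t j)
  true : ∀ {σ : Sig} {ι : Type}, E σ ι (fun _ _ _ => True)
  reindex : ∀ {σ : Sig} {ι κ : Type} {P : Query σ ι}, E σ ι P → ∀ f : ι → κ,
    E σ κ (fun A 𝔄 t => P A 𝔄 (fun i => t (f i)))
  ex : ∀ {σ : Sig} {ι : Type} [Finite ι] {P : Query σ (Option ι)}, E σ (Option ι) P →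
    E σ ι (fun A 𝔄 t => ∃ a, P A 𝔄 (fun o => o.elim a t))
  subst : ∀ {σ σ' : Sig} {ι : Type} [Finite ι] {P : Query σ' ι}, E σ' ι P →
    ∀ {D : (R : σ'.S) → Query σ (ι ⊕ Fin (σ'.ar R))}, (∀ R, E σ _ (D R)) →
    E σ ι (fun A 𝔄 t => P A (defStr D 𝔄 t) t)
  ifp : ∀ {σ : Sig} {P : Query (add σ 2) (Fin 2)}, E _ _ P →
    E σ (Fin 2) (fun _ 𝔄 t => ∃ n, St P 𝔄 n (t 0) (t 1))

/-- The class `𝒦` is definable in the logic `E`. -/
def InE (E : (σ : Sig) → (ι : Type) → Query σ ι → Prop) {σ : Sig} (𝒦 : Class σ) : Prop :=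
  E σ Empty (fun A 𝔄 _ => 𝒦 A 𝔄)

namespace IsClosed

variable {E : (σ : Sig) → (ι : Type) → Query σ ι → Prop} (hE : IsClosed E)
variable {σ σ' : Sig} {ι κ : Type}

include hE

lemma or {P Q : Query σ ι} (hP : E σ ι P) (hQ : E σ ι Q) :
    E σ ι (fun A 𝔄 t => P A 𝔄 t ∨ Q A 𝔄 t) :=
  hE.congr (hE.not (hE.and (hE.not hP) (hE.not hQ))) (fun A _ _ 𝔄 t => by tauto)

lemma const (p : Prop) : E σ ι (fun _ _ _ => p) := by
  by_cases h : p
  · exact hE.congr hE.true (fun A _ _ 𝔄 t => by simp [h])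
  · exact hE.congr (hE.not hE.true) (fun A _ _ 𝔄 t => by simp [h])

lemma iffC {P : Query σ ι} (hP : E σ ι P) (p : Prop) : E σ ι (fun A 𝔄 t => (p ↔ P A 𝔄 t)) := by
  by_cases h : p
  · exact hE.congr hP (fun A _ _ 𝔄 t => by simp [h])
  · exact hE.congr (hE.not hP) (fun A _ _ 𝔄 t => by simp [h])

lemma exL {γ : Type} {P : γ → Query σ ι} (hP : ∀ c, E σ ι (P c)) : ∀ l : List γ,
    E σ ι (fun A 𝔄 t => ∃ c ∈ l, P c A 𝔄 t)
  | [] => hE.congr (hE.const False) (fun A _ _ 𝔄 t => by simp)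
  | c :: l => hE.congr (hE.or (hP c) (exL hP l)) (fun A _ _ 𝔄 t => by simp)

/-- finite disjunctions -/
lemma exI {γ : Type} [Finite γ] {P : γ → Query σ ι} (hP : ∀ c, E σ ι (P c)) :
    E σ ι (fun A 𝔄 t => ∃ c, P c A 𝔄 t) := by
  have := Fintype.ofFinite γ
  exact hE.congr (hE.exL hP (Finset.univ : Finset γ).toList) (fun A _ _ 𝔄 t => by simp)

/-- finite conjunctions -/
lemma allI {γ : Type} [Finite γ] {P : γ → Query σ ι} (hP : ∀ c, E σ ι (P c)) :
    E σ ι (fun A 𝔄 t => ∀ c, P c A 𝔄 t) :=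
  hE.congr (hE.not (hE.exI fun c => hE.not (hP c))) (fun A _ _ 𝔄 t => by push Not; rfl)

/-- quantification over a tuple -/
lemma exT : ∀ {ι : Type} [Finite ι] {n : ℕ} {P : Query σ (ι ⊕ Fin n)}, E σ (ι ⊕ Fin n) P →
    E σ ι (fun A 𝔄 t => ∃ s : Fin n → A, P A 𝔄 (Sum.elim t s))
  | ι, _, 0, P, hP => by
    refine hE.congr (hE.reindex hP (Sum.elim id (fun i : Fin 0 => i.elim0))) (fun A _ _ 𝔄 t => ?_)
    have : ∀ s : Fin 0 → A, Sum.elim t s =
        fun i => t (Sum.elim (id : ι → ι) (fun i : Fin 0 => i.elim0) i) := by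
      intro s
      funext i
      rcases i with i | i
      · rfl
      · exact i.elim0
    constructor
    · rintro ⟨s, hs⟩
      rwa [this s] at hs
    · intro hs
      exact ⟨Fin.elim0, by rwa [this]⟩
  | ι, _, n + 1, P, hP => by
    have h1 : E σ (Option ι ⊕ Fin n) (fun A 𝔄 t => P A 𝔄 (fun i => t (Sum.elim
        (fun j => Sum.inl (some j)) (fun j : Fin (n + 1) => Fin.lastCases (Sum.inl none)
          (fun k => Sum.inr k) j) i))) := hE.reindex hP _
    refine hE.congr (hE.ex (exT h1)) (fun A _ _ 𝔄 t => ?_)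
    constructor
    · rintro ⟨s, hs⟩
      refine ⟨s (Fin.last n), fun k => s k.castSucc, ?_⟩
      convert hs using 2
      rename_i i
      rcases i with i | i
      · rfl
      · refine Fin.lastCases ?_ (fun k => ?_) i
        · simp
        · simp
    · rintro ⟨a, s, hs⟩
      refine ⟨Fin.snoc s a, ?_⟩
      convert hs using 2
      rename_i i
      rcases i with i | i
      · rfl
      · refine Fin.lastCases ?_ (fun k => ?_) i
        · simp
        · simp

lemma of_inE {𝒦 : Class σ} (h : InE E 𝒦) : E σ ι (fun A 𝔄 _ => 𝒦 A 𝔄) :=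
  hE.reindex h (fun x : Empty => x.elim)

end IsClosed

end Pool.Agent.Work.MP_8dbde4_lc.HP
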