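import Pool.Agent.Work.MP_8dbde4_lc.TS.Sub
import Pool.Agent.Work.MP_8dbde4_lc.HP.Logic

/-!
# Relations which are uniformly definable in fixed-point logic
-/

namespace Pool.Agent.Work.MP_8dbde4_lc.HP

open Pool.Agent.Work.MP_8dbde4_lc.TS
open Pool.Agent.Work.MP_8dbde4_lc.TS.FP

/-- Substitute the formulas `ψ R` (with argument variables `z 0, z 1, ...`) for the relation
symbols `R`, and rename the variables by `g` and `G`. -/
def gsub {σ σ' : Sig} (ψ : σ'.S → FP σ) (g G z : ℕ → ℕ) : FP σ' → FP σ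
  | .rel R xs => exB z (σ'.ar R) (.and
      (bigAnd ((List.finRange (σ'.ar R)).map (fun j : Fin (σ'.ar R) => FP.eq (z j) (g (xs j)))))
      (ψ R))
  | .eq x y => .eq (g x) (g y)
  | .app X xs => .app (G X) (xs.map g)
  | .neg φ => .neg (gsub ψ g G z φ)
  | .and φ χ => .and (gsub ψ g G z φ) (gsub ψ g G z χ)
  | .ex x φ => .ex (g x) (gsub ψ g G z φ)
  | .ifp X ys φ xs => .ifp (G X) (ys.map g) (gsub ψ g G z φ) (xs.map g)

/-- The meaning of a substituted formula. -/
theorem eval_gsub {σ σ' : Sig} {A : Type} (𝔄 : Str σ A) (𝔄' : Str σ' A) (ψ : σ'.S → FP σ)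
    {g G z : ℕ → ℕ} (hg : Function.Injective g)
    (hG : Function.Injective G) (hz : Function.Injective z) (hgz : ∀ i j, g i ≠ z j)
    (v₀ : ℕ → A) (β₀ : ℕ → List A → Prop)
    (hψ : ∀ (v : ℕ → A) (β : ℕ → List A → Prop), (∀ x, (∀ y, g y ≠ x) → v x = v₀ x) →
      (∀ X, (∀ Y, G Y ≠ X) → β X = β₀ X) → ∀ (R : σ'.S) (t : Fin (σ'.ar R) → A),
      ((ψ R).eval 𝔄 (blk v z (σ'.ar R) t) β ↔ 𝔄'.rel R t)) :
    ∀ (φ : FP σ') (v : ℕ → A) (β : ℕ → List A → Prop), (∀ x, (∀ y, g y ≠ x) → v x = v₀ x) →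
      (∀ X, (∀ Y, G Y ≠ X) → β X = β₀ X) →
      ((gsub ψ g G z φ).eval 𝔄 v β ↔ φ.eval 𝔄' (fun x => v (g x)) (fun X => β (G X)))
  | .rel R xs, v, β, hv, hβ => by
    rw [gsub, FP.eval_exB]
    show _ ↔ 𝔄'.rel R (fun i => v (g (xs i)))
    simp only [eval_and, eval_bigAnd, List.mem_map, List.mem_finRange, true_and,
      forall_exists_index, forall_apply_eq_imp_iff, eval_eq, blk_apply v hz]
    constructor
    · rintro ⟨t, h1, h2⟩
      rw [hψ v β hv hβ] at h2
      have : t = fun i => v (g (xs i)) := by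
        funext i
        rw [h1 i, blk_of_ne v z _ (fun j => (hgz _ _).symm)]
      rwa [this] at h2
    · intro h
      refine ⟨fun i => v (g (xs i)), fun i => ?_, (hψ v β hv hβ R _).2 h⟩
      rw [blk_of_ne v z _ (fun j => (hgz _ _).symm)]
  | .eq x y, v, β, hv, hβ => Iff.rfl
  | .app X xs, v, β, hv, hβ => by
    show β (G X) ((xs.map g).map v) ↔ β (G X) (xs.map (fun x => v (g x)))
    rw [List.map_map]
    rfl
  | .neg φ, v, β, hv, hβ =>
    not_congr (eval_gsub 𝔄 𝔄' ψ hg hG hz hgz v₀ β₀ hψ φ v β hv hβ)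
  | .and φ χ, v, β, hv, hβ =>
    and_congr (eval_gsub 𝔄 𝔄' ψ hg hG hz hgz v₀ β₀ hψ φ v β hv hβ)
      (eval_gsub 𝔄 𝔄' ψ hg hG hz hgz v₀ β₀ hψ χ v β hv hβ)
  | .ex x φ, v, β, hv, hβ => by
    show (∃ a, (gsub ψ g G z φ).eval 𝔄 (Function.update v (g x) a) β) ↔
      (∃ a, φ.eval 𝔄' (Function.update (fun x => v (g x)) x a) (fun X => β (G X)))
    refine exists_congr fun a => ?_
    rw [eval_gsub 𝔄 𝔄' ψ hg hG hz hgz v₀ β₀ hψ φ _ β (fun y hy => ?_) hβ, update_comp hg]
    rw [Function.update_of_ne (hy x).symm, hv y hy]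
  | .ifp X ys φ xs, v, β, hv, hβ => by
    show (∃ n, stage _ n ((xs.map g).map v)) ↔ (∃ n, stage _ n (xs.map (fun x => v (g x))))
    have key : (fun (P : List A → Prop) l => (ys.map g).Nodup ∧ l.length = (ys.map g).length ∧
        (gsub ψ g G z φ).eval 𝔄 (upd v (ys.map g) l) (Function.update β (G X) P)) =
        (fun (P : List A → Prop) l => ys.Nodup ∧ l.length = ys.length ∧
        φ.eval 𝔄' (upd (fun x => v (g x)) ys l)
          (Function.update (fun X => β (G X)) X P)) := by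
      funext P l
      rw [eval_gsub 𝔄 𝔄' ψ hg hG hz hgz v₀ β₀ hψ φ _ _ (fun y hy => ?_) (fun Y hY => ?_),
        upd_comp hg, update_comp hG, List.nodup_map_iff hg, List.length_map]
      · rw [upd_off ys l v y hy, hv y hy]
      · rw [Function.update_of_ne (hY X).symm, hβ Y hY]
    rw [List.map_map]
    exact exists_congr fun n => by rw [key]; rfl

/-- The query `P` is definable in FP (with any choice of names of the variables). -/
def Expr (σ : Sig) (ι : Type) (P : Query σ ι) : Prop :=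
  ∀ e : ι → ℕ, ∃ φ : FP σ, ∀ (A : Type) [Finite A] [Nonempty A] (𝔄 : Str σ A) (v : ℕ → A)
    (β : ℕ → List A → Prop), φ.eval 𝔄 v β ↔ P A 𝔄 (fun i => v (e i))

variable {σ σ' : Sig} {ι κ : Type}

namespace Expr

lemma congr {P Q : Query σ ι} (hP : Expr _ _ P) (h : ∀ (A : Type) [Finite A] [Nonempty A]
    (𝔄 : Str σ A) (t : ι → A), Q A 𝔄 t ↔ P A 𝔄 t) : Expr _ _ Q := by
  intro e
  obtain ⟨φ, hφ⟩ := hP e
  exact ⟨φ, fun A _ _ 𝔄 v β => (hφ A 𝔄 v β).trans (h A 𝔄 _).symm⟩

lemma not {P : Query σ ι} (hP : Expr _ _ P) : Expr _ _ (fun A 𝔄 t => ¬ P A 𝔄 t) := by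
  intro e
  obtain ⟨φ, hφ⟩ := hP e
  exact ⟨φ.neg, fun A _ _ 𝔄 v β => not_congr (hφ A 𝔄 v β)⟩

lemma and {P Q : Query σ ι} (hP : Expr _ _ P) (hQ : Expr _ _ Q) :
    Expr _ _ (fun A 𝔄 t => P A 𝔄 t ∧ Q A 𝔄 t) := by
  intro e
  obtain ⟨φ, hφ⟩ := hP e
  obtain ⟨ψ, hψ⟩ := hQ e
  exact ⟨φ.and ψ, fun A _ _ 𝔄 v β => and_congr (hφ A 𝔄 v β) (hψ A 𝔄 v β)⟩

lemma true : Expr _ _ (fun (A : Type) (_ : Str σ A) (_ : ι → A) => True) := by
  intro e
  exact ⟨FP.tt, fun A _ _ 𝔄 v β => by simp⟩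

lemma rel (R : σ.S) (f : Fin (σ.ar R) → ι) :
    Expr _ _ (fun _ 𝔄 t => 𝔄.rel R (fun i => t (f i))) := by
  intro e
  exact ⟨FP.rel R (fun i => e (f i)), fun A _ _ 𝔄 v β => Iff.rfl⟩

lemma eq (i j : ι) : Expr _ _ (fun (A : Type) (_ : Str σ A) (t : ι → A) => t i = t j) := by
  intro e
  exact ⟨FP.eq (e i) (e j), fun A _ _ 𝔄 v β => Iff.rfl⟩

lemma reindex {P : Query σ ι} (hP : Expr _ _ P) (f : ι → κ) :
    Expr _ _ (fun A 𝔄 (t : κ → A) => P A 𝔄 (fun i => t (f i))) := fun e => hP (fun i => e (f i))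

/-- existential quantification -/
lemma ex [Finite ι] {P : Query σ (Option ι)} (hP : Expr _ _ P) :
    Expr _ _ (fun A 𝔄 (t : ι → A) => ∃ a, P A 𝔄 (fun o => o.elim a t)) := by
  intro e
  obtain ⟨M, hM⟩ : ∃ M, ∀ i, e i < M := by
    obtain ⟨M, hM⟩ := (Set.finite_range e).bddAbove
    exact ⟨M + 1, fun i => Nat.lt_succ_of_le (hM ⟨i, rfl⟩)⟩
  obtain ⟨φ, hφ⟩ := hP (fun o => o.elim M e)
  refine ⟨FP.ex M φ, fun A _ _ 𝔄 v β => ?_⟩
  rw [eval_ex]
  refine exists_congr fun a => ?_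
  rw [hφ]
  have : (fun i : Option ι => Function.update v M a (i.elim M e)) =
      (fun o : Option ι => o.elim a (fun i => v (e i))) := by
    funext o
    cases o with
    | none => simp
    | some i =>
      simp only [Option.elim_some]
      rw [Function.update_of_ne (hM i).ne]
  rw [this]

/-- a class in FP -/
lemma of_inFP {𝒦 : Class σ} (h : InFP 𝒦) : Expr _ _ (fun A 𝔄 (_ : ι → A) => 𝒦 A 𝔄) := by
  obtain ⟨φ, hφ⟩ := h
  intro e
  refine ⟨kill [] φ, fun A _ _ 𝔄 v β => ?_⟩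
  rw [eval_kill]
  simpa using hφ A 𝔄 v

lemma inFP {𝒦 : Class σ} (h : Expr _ _ (fun A 𝔄 (_ : Empty → A) => 𝒦 A 𝔄)) : InFP 𝒦 := by
  obtain ⟨φ, hφ⟩ := h (fun x => x.elim)
  exact ⟨φ, fun A _ _ 𝔄 v => hφ A 𝔄 v _⟩

/-- Substitution of definable relations (with parameters) for the relations. -/
lemma subst [Finite ι] {P : Query σ' ι} (hP : Expr _ _ P)
    {D : (R : σ'.S) → Query σ (ι ⊕ Fin (σ'.ar R))} (hD : ∀ R, Expr _ _ (D R)) :
    Expr _ _ (fun A 𝔄 (t : ι → A) => P A (defStr D 𝔄 t) t) := by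
  intro e
  obtain ⟨M, hM⟩ : ∃ M, ∀ i, e i < M := by
    obtain ⟨M, hM⟩ := (Set.finite_range e).bddAbove
    exact ⟨M + 1, fun i => Nat.lt_succ_of_le (hM ⟨i, rfl⟩)⟩
  let E := Finite.equivFin ι
  set m := Nat.card ι
  set g : ℕ → ℕ := fun x => M + 3 * x with hg
  set z : ℕ → ℕ := fun x => M + 3 * x + 1 with hz
  set p : ℕ → ℕ := fun x => M + 3 * x + 2 with hp
  have gi : Function.Injective g := fun i j h => by simp only [hg] at h; omega
  have zi : Function.Injective z := fun i j h => by simp only [hz] at h; omega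
  have pi : Function.Injective p := fun i j h => by simp only [hp] at h; omega
  have hgz : ∀ i j, g i ≠ z j := fun i j => by simp only [hg, hz]; omega
  have hgp : ∀ i j, g i ≠ p j := fun i j => by simp only [hg, hp]; omega
  have hzp : ∀ i j, z i ≠ p j := fun i j => by simp only [hz, hp]; omega
  have hge : ∀ i j, g j ≠ e i := fun i j => by have := hM i; simp only [hg]; omega
  have hpe : ∀ i j, p j ≠ e i := fun i j => by have := hM i; simp only [hp]; omega
  obtain ⟨φ, hφ⟩ := hP (fun i => (E i : ℕ))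
  choose ψ hψ using fun R => hD R (Sum.elim (fun i => p (E i : ℕ))
    (fun j : Fin (σ'.ar R) => z (j : ℕ)))
  refine ⟨exB p m (FP.and (bigAnd ((List.finRange m).map (fun j : Fin m =>
      FP.eq (p j) (e (E.symm j))))) (exB g m (FP.and (bigAnd ((List.finRange m).map
      (fun j : Fin m => FP.eq (g j) (e (E.symm j))))) (gsub ψ g id z φ)))),
      fun A _ _ 𝔄 v β => ?_⟩
  have key : ∀ (s s' : Fin m → A), (∀ j, s j = v (e (E.symm j))) → (∀ j, s' j = v (e (E.symm j))) →
      ((gsub ψ g id z φ).eval 𝔄 (blk (blk v p m s) g m s') β ↔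
      P A (defStr D 𝔄 (fun i => v (e i))) (fun i => v (e i))) := by
    intro s s' hs hs'
    rw [eval_gsub 𝔄 (defStr D 𝔄 (fun i => v (e i))) ψ gi Function.injective_id zi hgz
      (blk (blk v p m s) g m s') β ?_ φ _ β (fun _ _ => rfl) (fun _ _ => rfl), hφ]
    · have : (fun i : ι => blk (blk v p m s) g m s' (g (E i : ℕ))) = fun i => v (e i) := by
        funext i
        rw [blk_apply _ gi, hs']
        simp
      rw [this]
    · intro w γ hw hγ R t
      rw [hψ]
      have : (fun i : ι ⊕ Fin (σ'.ar R) => blk w z (σ'.ar R) t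
          (Sum.elim (fun i => p (E i : ℕ)) (fun j : Fin (σ'.ar R) => z (j : ℕ)) i)) =
          Sum.elim (fun i => v (e i)) t := by
        funext o
        rcases o with i | j
        · simp only [Sum.elim_inl]
          rw [blk_of_ne _ _ _ (fun j => hzp _ _), hw _ (fun y => hgp _ _),
            blk_of_ne _ _ _ (fun j => hgp _ _), blk_apply _ pi, hs]
          simp
        · simp only [Sum.elim_inr]
          exact blk_apply w zi _ t j
      rw [this]
      rfl
  rw [FP.eval_exB]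
  simp only [eval_and, FP.eval_exB, eval_bigAnd, List.mem_map, List.mem_finRange, true_and,
    forall_exists_index, forall_apply_eq_imp_iff, eval_eq, blk_apply _ pi, blk_apply _ gi]
  constructor
  · rintro ⟨s, h1, s', h2, h3⟩
    refine (key s s' (fun j => ?_) (fun j => ?_)).1 h3
    · rw [h1 j, blk_of_ne _ _ _ (fun k => hpe _ _)]
    · rw [h2 j, blk_of_ne _ _ _ (fun k => hge _ _), blk_of_ne _ _ _ (fun k => hpe _ _)]
  · intro h
    refine ⟨fun j => v (e (E.symm j)), fun j => ?_, fun j => v (e (E.symm j)), fun j => ?_,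
      (key _ _ (fun j => rfl) (fun j => rfl)).2 h⟩
    · rw [blk_of_ne _ _ _ (fun k => hpe _ _)]
    · rw [blk_of_ne _ _ _ (fun k => hge _ _), blk_of_ne _ _ _ (fun k => hpe _ _)]

end Expr

/-- Inflationary fixed points. -/
lemma Expr.ifp {P : Query (add σ 2) (Fin 2)} (hP : Expr _ _ P) :
    Expr _ _ (fun A 𝔄 (t : Fin 2 → A) => ∃ n, St P 𝔄 n (t 0) (t 1)) := by
  intro e
  obtain ⟨φ, hφ⟩ := hP (fun i => (i : ℕ))
  set ψ : (add σ 2).S → FP σ := fun R => match R with
    | none => FP.app 0 [1, 3]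
    | some R => FP.rel R (fun j => 2 * j + 1) with hψ
  refine ⟨FP.ifp 0 [0, 2] (gsub ψ (fun x => 2 * x) (fun X => X + 1) (fun j => 2 * j + 1) φ)
    [e 0, e 1], fun A _ _ 𝔄 v β => ?_⟩
  have zi : Function.Injective (fun j : ℕ => 2 * j + 1) := fun i j h => by simp only at h; omega
  have key : ∀ (n : ℕ) (a b : A),
      stage (fun P' l => [0, 2].Nodup ∧ l.length = [0, 2].length ∧
        (gsub ψ (fun x => 2 * x) (fun X => X + 1) (fun j => 2 * j + 1) φ).eval 𝔄
          (upd v [0, 2] l) (Function.update β 0 P')) n [a, b] ↔ St P 𝔄 n a b := by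
    intro n
    induction n with
    | zero => intro a b; simp [stage, St]
    | succ n ih =>
      intro a b
      show (stage _ n [a, b] ∨ (_ ∧ _ ∧ _)) ↔ (St P 𝔄 n a b ∨ _)
      refine or_congr (ih a b) ?_
      generalize stage (fun P' l => [0, 2].Nodup ∧ l.length = [0, 2].length ∧
        (gsub ψ (fun x => 2 * x) (fun X => X + 1) (fun j => 2 * j + 1) φ).eval 𝔄
          (upd v [0, 2] l) (Function.update β 0 P')) n = S at ih ⊢
      rw [eval_gsub 𝔄 (adds 𝔄 (fun t => St P 𝔄 n (t 0) (t 1))) ψ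
        (fun i j (h : 2 * i = 2 * j) => by omega)
        (fun i j (h : i + 1 = j + 1) => by omega) zi (fun i j => by omega)
        (upd v [0, 2] [a, b]) (Function.update β 0 S) ?_ φ _ _ (fun _ _ => rfl) (fun _ _ => rfl),
        hφ]
      · have : (fun i : Fin 2 => upd v [0, 2] [a, b] (2 * (i : ℕ))) = ![a, b] := by
          funext i
          fin_cases i
          · simp [upd]
          · simp [upd]
        rw [this]
        simp
      · intro w γ hw hγ R t
        rcases R with _ | R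
        · show γ 0 [blk w (fun j => 2 * j + 1) 2 t 1, blk w (fun j => 2 * j + 1) 2 t 3] ↔
            St P 𝔄 n (t (0 : Fin 2)) (t (1 : Fin 2))
          have h0 : γ 0 = S := by
            rw [hγ 0 (fun Y => by omega), Function.update_self]
          have h1 := blk_apply w zi 2 t (0 : Fin 2)
          have h2 := blk_apply w zi 2 t (1 : Fin 2)
          simp only [Fin.val_zero, Fin.val_one, mul_zero, zero_add, mul_one] at h1 h2
          rw [h0, ← ih]
          norm_num at h1 h2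
          rw [h1, h2]
        · show 𝔄.rel R (fun i => blk w (fun j => 2 * j + 1) (σ.ar R) t (2 * (i : ℕ) + 1)) ↔
            𝔄.rel R t
          have : (fun i : Fin (σ.ar R) => blk w (fun j => 2 * j + 1) (σ.ar R) t (2 * (i : ℕ) + 1))
              = t := by
            funext i
            exact blk_apply w zi _ t i
          rw [this]
  show (∃ n, stage _ n [v (e 0), v (e 1)]) ↔ _
  exact exists_congr fun n => key n _ _

/-- FP is a closed logic. -/
theorem isClosed_FP : IsClosed Expr where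
  congr := Expr.congr
  not := Expr.not
  and := Expr.and
  rel := Expr.rel
  eq := Expr.eq
  true := Expr.true
  reindex := Expr.reindex
  ex := Expr.ex
  subst := Expr.subst
  ifp := Expr.ifp

lemma inE_FP {σ : Sig} (𝒦 : Class σ) : InE Expr 𝒦 ↔ InFP 𝒦 :=
  ⟨Expr.inFP, Expr.of_inFP⟩

end Pool.Agent.Work.MP_8dbde4_lc.HP
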