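import Pool.Agent.Work.MP_8dbde4_lc.HP.Dec

/-!
# Homomorphisms to the tree of words and decompositions
-/

namespace Pool.Agent.Work.MP_8dbde4_lc.HP

open Pool.Agent.Work.MP_8dbde4_lc.TS

variable {σ : Sig} {Λ : Type} {L : Letters σ Λ} {c : ℚ → Λ} {A : Type} {𝔄 : Str σ A}

lemma pat_none (hc : ∀ q, ¬ L.term (c q)) (R : σ.S) : L.pat R (fun _ => none) :=
  L.weaken R _ _ (L.const R (c 0) (hc 0)) (fun _ => Or.inl rfl)

/-- the first level at which a set of words splits or ends -/
lemma exists_first [Finite A] (g : A → Word L c) (W : A → Prop) (hW : ∃ x, W x) :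
    ∃ q : ℚ, (∀ r, r < q → ∃ k, ¬ L.term k ∧ ∀ x, W x → (g x).1 r = some k) ∧
      (∀ x, W x → (g x).1 q ≠ none) ∧
      ((∃ x y, W x ∧ W y ∧ (g x).1 q ≠ (g y).1 q) ∨
        ∃ x t, W x ∧ L.term t ∧ (g x).1 q = some t) := by
  classical
  choose e he1 he2 he3 he4 using fun x => (g x).2
  obtain ⟨x₀, hx₀, hmin⟩ := Set.exists_min_image {x | W x} e (Set.toFinite _) hW
  set S : Set ℚ := {r | (∃ x y, W x ∧ W y ∧ (g x).1 r ≠ (g y).1 r) ∨
    ∃ x t, W x ∧ L.term t ∧ (g x).1 r = some t} with hS
  have hfin : (S ∩ Set.Iic (e x₀)).Finite := by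
    apply Set.Finite.subset ((Set.finite_iUnion (fun x => he4 x)).union
      (Set.finite_singleton (e x₀)))
    rintro r ⟨hr, hr2⟩
    rcases eq_or_lt_of_le (show r ≤ e x₀ from hr2) with h | h
    · exact Or.inr h
    · left
      rcases hr with ⟨x, y, hx, hy, hne⟩ | ⟨x, t, hx, ht, h'⟩
      · have hxr : r < e x := h.trans_le (hmin x hx)
        have hyr : r < e y := h.trans_le (hmin y hy)
        by_cases h1 : (g x).1 r = some (c r)
        · refine Set.mem_iUnion.2 ⟨y, hyr, fun h2 => hne (by rw [h1, h2])⟩
        · exact Set.mem_iUnion.2 ⟨x, hxr, h1⟩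
      · obtain ⟨k, hk, hk'⟩ := he3 x r (h.trans_le (hmin x hx))
        rw [hk'] at h'
        have : k = t := by simpa using h'
        exact absurd (this ▸ ht) hk
  have hne : (S ∩ Set.Iic (e x₀)).Nonempty := by
    obtain ⟨t, ht, ht'⟩ := he1 x₀
    exact ⟨e x₀, Or.inr ⟨x₀, t, hx₀, ht, ht'⟩, Set.mem_Iic.2 le_rfl⟩
  obtain ⟨q, ⟨hq1, hq2⟩, hq3⟩ := Set.exists_min_image _ id hfin hne
  have hq2' : q ≤ e x₀ := hq2
  refine ⟨q, fun r hr => ?_, fun x hx => ?_, hq1⟩
  · have hrS : r ∉ S := fun h => absurd (hq3 r ⟨h, hr.le.trans hq2'⟩) (not_le.2 hr)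
    obtain ⟨k, hk, hk'⟩ := he3 x₀ r (hr.trans_le hq2')
    refine ⟨k, hk, fun x hx => ?_⟩
    by_contra hne'
    exact hrS (Or.inl ⟨x, x₀, hx, hx₀, by rw [hk']; exact hne'⟩)
  · rcases eq_or_lt_of_le (hq2'.trans (hmin x hx)) with h | h
    · obtain ⟨t, _, ht'⟩ := he1 x
      rw [h, ht']
      simp
    · obtain ⟨k, _, hk'⟩ := he3 x q h
      rw [hk']
      simp

lemma dec_of_csp [Finite A] (hc : ∀ q, ¬ L.term (c q)) (h : CSP (tree L c) A 𝔄) :
    Dec L 𝔄 (fun _ => True) := by
  obtain ⟨g, hg⟩ := h
  have key : ∀ n, ∀ W : A → Prop, {x | W x}.ncard ≤ n → Dec L 𝔄 W := by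
    intro n
    induction n with
    | zero =>
      intro W hW
      have : {x | W x} = ∅ := (Set.ncard_eq_zero (Set.toFinite _)).1 (by omega)
      refine Dec.nil W (fun x hx => ?_)
      have : x ∈ ({x | W x} : Set A) := hx
      simp_all
    | succ n ih =>
      intro W hW
      by_cases hne : ∃ x, W x
      · obtain ⟨q, hq1, hq2, hq3⟩ := exists_first g W hne
        have hst : IsStep L 𝔄 W (res W (fun x => (g x).1 q)) := by
          constructor
          · intro x
            by_cases hx : W x
            · rw [res_pos hx]
              simp [hx, hq2 x hx]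
            · rw [res_neg hx]
              simp [hx]
          · intro R t ht
            by_cases hj : ∃ j, W (t j)
            · obtain ⟨j, hj⟩ := hj
              refine L.weaken R _ _ (hg R t ht q j) (fun i => ?_)
              by_cases hi : W (t i)
              · right
                rw [res_pos hi]
                unfold patAt
                rw [if_pos]
                intro r hr
                obtain ⟨k, _, hk⟩ := hq1 r hr
                show (g (t i)).1 r = (g (t j)).1 r
                rw [hk _ hi, hk _ hj]
              · left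
                exact res_neg hi
            · push Not at hj
              refine L.weaken R _ _ (pat_none hc R) (fun i => Or.inl ?_)
              exact res_neg (hj i)
        refine Dec.cons W _ hst (fun k hk => ih _ ?_)
        have hsub : {x | res W (fun x => (g x).1 q) x = some k} ⊂ {x | W x} := by
          constructor
          · intro x hx
            by_contra hx'
            have hx2 : res W (fun x => (g x).1 q) x = some k := hx
            rw [res_neg (W := W) hx'] at hx2
            exact absurd hx2 (by simp)
          · intro hsub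
            have hall : ∀ x, W x → (g x).1 q = some k := by
              intro x hx
              have := hsub (show x ∈ {x | W x} from hx)
              have hx2 : res W (fun x => (g x).1 q) x = some k := this
              rwa [res_pos hx] at hx2
            rcases hq3 with ⟨x, y, hx, hy, hne⟩ | ⟨x, t, hx, ht, h'⟩
            · exact hne (by rw [hall x hx, hall y hy])
            · rw [hall x hx] at h'
              have : k = t := by simpa using h'
              exact hk (this ▸ ht)
        have := Set.ncard_lt_ncard hsub (Set.toFinite _)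
        omega
      · exact Dec.nil W (fun x hx => hne ⟨x, hx⟩)
  exact key _ _ le_rfl

open Classical in
/-- the letter of the list `l` behind its initial segment `u` -/
noncomputable def nxt : List Λ → List Λ → Option Λ
  | [], l => l.head?
  | a :: u, b :: l => if a = b then nxt u l else none
  | _ :: _, [] => none

lemma nxt_nil (u : List Λ) : nxt u ([] : List Λ) = none := by
  cases u <;> simp [nxt]

lemma nxt_take : ∀ (n : ℕ) (l : List Λ), n ≤ l.length → nxt (l.take n) l = l[n]?
  | 0, l, _ => by
    cases l <;> simp [nxt]
  | n + 1, [], h => by simp at h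
  | n + 1, a :: l, h => by
    simp only [List.take_succ_cons, nxt, if_true, List.getElem?_cons_succ]
    exact nxt_take n l (by simpa using h)

/-- the list consists of continuing letters and a terminal letter -/
def Valid (L : Letters σ Λ) (l : List Λ) : Prop :=
  ∃ l' t, l = l' ++ [t] ∧ L.term t ∧ ∀ k ∈ l', ¬ L.term k

open Classical in
lemma lists_of_dec {W : A → Prop} (hW : Dec L 𝔄 W) (hn : ∀ R, L.pat R (fun _ => none)) :
    ∃ g : A → List Λ, (∀ x, W x → Valid L (g x)) ∧
      ∀ R t, 𝔄.rel R t → ∀ u : List Λ,
        L.pat R (fun i => if W (t i) then nxt u (g (t i)) else none) := by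
  induction hW with
  | nil W h =>
    refine ⟨fun _ => [], fun x hx => absurd hx (h x), fun R t _ u => ?_⟩
    refine L.weaken R _ _ (hn R) (fun i => Or.inl ?_)
    rw [if_neg (h _)]
  | cons W h hs hk ih =>
    choose! G hG1 hG2 using ih
    refine ⟨fun x => match h x with
      | none => []
      | some k => k :: (if L.term k then [] else G k x), fun x hx => ?_, fun R t ht u => ?_⟩
    · obtain ⟨k, hk'⟩ := Option.ne_none_iff_exists'.1 ((hs.dom x).2 hx)
      simp only [hk']
      by_cases hkt : L.term k
      · exact ⟨[], k, by simp [hkt], hkt, by simp⟩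
      · obtain ⟨l', t, h1, h2, h3⟩ := hG1 k hkt x hk'
        refine ⟨k :: l', t, by simp [hkt, h1], h2, fun a ha => ?_⟩
        rcases List.mem_cons.1 ha with rfl | ha
        · exact hkt
        · exact h3 a ha
    · rcases u with _ | ⟨a, u⟩
      · refine L.weaken R _ _ (hs.ok R t ht) (fun i => ?_)
        by_cases hi : W (t i)
        · right
          rw [if_pos hi]
          obtain ⟨k, hk'⟩ := Option.ne_none_iff_exists'.1 ((hs.dom _).2 hi)
          simp [hk', nxt]
        · left
          rw [if_neg hi]
      · by_cases ha : L.term a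
        · refine L.weaken R _ _ (hn R) (fun i => Or.inl ?_)
          by_cases hi : W (t i)
          · rw [if_pos hi]
            obtain ⟨k, hk'⟩ := Option.ne_none_iff_exists'.1 ((hs.dom _).2 hi)
            simp only [hk', nxt]
            split_ifs with h1 h2
            · exact nxt_nil u
            · subst h1
              exact absurd ha h2
            · rfl
          · rw [if_neg hi]
        · refine L.weaken R _ _ (hG2 a ha R t ht u) (fun i => ?_)
          by_cases hi : W (t i)
          · rw [if_pos hi]
            obtain ⟨k, hk'⟩ := Option.ne_none_iff_exists'.1 ((hs.dom _).2 hi)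
            simp only [hk', nxt]
            by_cases h1 : a = k
            · subst h1
              right
              simp [ha]
            · left
              simp [h1]
          · left
            rw [if_neg hi]

open Classical in
/-- the word of a list: the letters of the list are put at the levels `0, 1, 2, ...` -/
noncomputable def wd (c : ℚ → Λ) (l : List Λ) (r : ℚ) : Option Λ :=
  if (l.length : ℚ) - 1 < r then none
  else if ∃ n : ℕ, r = n then l[r.num.toNat]? else some (c r)

lemma wd_gt {l : List Λ} {r : ℚ} (h : (l.length : ℚ) - 1 < r) : wd c l r = none := by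
  unfold wd
  rw [if_pos h]

lemma wd_nat {l : List Λ} {n : ℕ} (h : n < l.length) : wd c l n = l[n]? := by
  have h1 : ¬ (l.length : ℚ) - 1 < (n : ℚ) := by
    have : (n : ℚ) + 1 ≤ l.length := by exact_mod_cast h
    linarith
  unfold wd
  rw [if_neg h1, if_pos ⟨n, rfl⟩]
  simp

lemma wd_nat' {l : List Λ} {n : ℕ} (h : ¬ n < l.length) : wd c l n = none := by
  apply wd_gt
  have : (l.length : ℚ) ≤ n := by exact_mod_cast not_lt.1 h
  linarith

lemma wd_other {l : List Λ} {r : ℚ} (h : ¬ ∃ n : ℕ, r = n) :
    wd c l r = none ∨ wd c l r = some (c r) := by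
  unfold wd
  rw [if_neg h]
  split_ifs
  · exact Or.inl rfl
  · exact Or.inr rfl

lemma isWord_wd (hc : ∀ q, ¬ L.term (c q)) {l : List Λ} (hl : Valid L l) :
    IsWord L c (wd c l) := by
  obtain ⟨l', t, rfl, ht, hk⟩ := hl
  refine ⟨(l'.length : ℚ), ⟨t, ht, ?_⟩, fun r hr => ?_, fun r hr => ?_, ?_⟩
  · rw [wd_nat (by simp)]
    simp
  · apply wd_gt
    simp only [List.length_append, List.length_cons, List.length_nil, Nat.cast_add, Nat.cast_one]
    push_cast
    linarith
  · by_cases h : ∃ n : ℕ, r = n
    · obtain ⟨n, rfl⟩ := h
      have hn : n < l'.length := by exact_mod_cast hr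
      rw [wd_nat (by simp; omega), List.getElem?_append_left hn]
      exact ⟨l'[n], hk _ (List.getElem_mem hn), by simp⟩
    · have h1 : ¬ ((l' ++ [t]).length : ℚ) - 1 < r := by
        simp only [List.length_append, List.length_cons, List.length_nil, Nat.cast_add]
        push_cast
        linarith
      refine ⟨c r, hc r, ?_⟩
      unfold wd
      rw [if_neg h1, if_neg h]
  · apply Set.Finite.subset ((Set.finite_Iio l'.length).image (fun n : ℕ => (n : ℚ)))
    rintro r ⟨hr, hne⟩
    by_cases h : ∃ n : ℕ, r = n
    · obtain ⟨n, rfl⟩ := h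
      exact ⟨n, by exact_mod_cast hr, rfl⟩
    · exfalso
      apply hne
      have h1 : ¬ ((l' ++ [t]).length : ℚ) - 1 < r := by
        simp only [List.length_append, List.length_cons, List.length_nil, Nat.cast_add]
        push_cast
        linarith
      unfold wd
      rw [if_neg h1, if_neg h]

/-- a word shows a terminal letter only at its end -/
lemma IsWord.end_eq {w : ℚ → Option Λ} (hw : IsWord L c w) {q t} (ht : L.term t)
    (h : w q = some t) : ∀ r, q < r → w r = none := by
  obtain ⟨e, _, h2, h3, _⟩ := hw
  have he : e ≤ q := by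
    by_contra hlt
    obtain ⟨k, hk, hk'⟩ := h3 q (not_le.1 hlt)
    rw [h] at hk'
    have : t = k := by simpa using hk'
    exact hk (this ▸ ht)
  exact fun r hr => h2 r (he.trans_lt hr)

lemma csp_of_dec (hc : ∀ q, ¬ L.term (c q)) (h : Dec L 𝔄 (fun _ => True)) : CSP (tree L c) A 𝔄 := by
  obtain ⟨g, hg1, hg2⟩ := lists_of_dec h (pat_none hc)
  refine ⟨fun x => ⟨wd c (g x), isWord_wd hc (hg1 x trivial)⟩, fun R t ht => ?_⟩
  intro q j
  show L.pat R (patAt (fun i => wd c (g (t i))) q j)
  have hw : ∀ x, IsWord L c (wd c (g x)) := fun x => isWord_wd hc (hg1 x trivial)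
  by_cases hj : wd c (g (t j)) q = none
  · refine L.weaken R _ _ (pat_none hc R) (fun i => Or.inl ?_)
    unfold patAt
    split_ifs with hi
    · obtain ⟨e, ⟨s, hs, hs'⟩, h2, h3, _⟩ := hw (t j)
      have heq : e < q := by
        by_contra hlt
        rcases eq_or_lt_of_le (not_lt.1 hlt) with h4 | h4
        · rw [h4, hs'] at hj
          exact absurd hj (by simp)
        · obtain ⟨k, _, hk⟩ := h3 q h4
          rw [hk] at hj
          exact absurd hj (by simp)
      have : wd c (g (t i)) e = wd c (g (t j)) e := hi e heq
      rw [hs'] at this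
      exact (hw (t i)).end_eq hs this q heq
    · rfl
  · by_cases hq : ∃ n : ℕ, q = n
    · obtain ⟨n, rfl⟩ := hq
      have hn : n < (g (t j)).length := by
        by_contra hn
        exact hj (wd_nat' hn)
      refine L.weaken R _ _ (hg2 R t ht ((g (t j)).take n)) (fun i => ?_)
      rw [if_pos trivial]
      unfold patAt
      split_ifs with hi
      · by_cases hni : n < (g (t i)).length
        · right
          have htake : (g (t i)).take n = (g (t j)).take n := by
            apply List.ext_getElem?
            intro m
            rw [List.getElem?_take, List.getElem?_take]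
            split_ifs with hm
            · have : wd c (g (t i)) m = wd c (g (t j)) m := hi m (by exact_mod_cast hm)
              rwa [wd_nat (by omega), wd_nat (by omega)] at this
            · rfl
          rw [← htake, nxt_take n _ hni.le]
          exact wd_nat hni
        · left
          exact wd_nat' hni
      · exact Or.inl rfl
    · refine L.weaken R _ _ (L.const R (c q) (hc q)) (fun i => ?_)
      unfold patAt
      split_ifs with hi
      · exact wd_other hq
      · exact Or.inl rfl

/-- The constraint satisfaction problem of the tree of words. -/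
theorem csp_iff [Finite A] (hc : ∀ q, ¬ L.term (c q)) :
    CSP (tree L c) A 𝔄 ↔ Dec L 𝔄 (fun _ => True) :=
  ⟨dec_of_csp hc, csp_of_dec hc⟩

end Pool.Agent.Work.MP_8dbde4_lc.HP
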