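import Pool.Agent.Work.MP_8dbde4_lc.HP.Logic
import Pool.Agent.Work.MP_8dbde4_lc.HP.Words

/-!
# The canonical refinement in a closed logic
-/

namespace Pool.Agent.Work.MP_8dbde4_lc.HP

open Pool.Agent.Work.MP_8dbde4_lc.TS

variable {E : (σ : Sig) → (ι : Type) → Query σ ι → Prop}
variable {σ : Sig} {Λ : Type} {L : Letters σ Λ} {c : ℚ → Λ} {A : Type}

/-- forget the last relation -/
def red {n : ℕ} (𝔄 : Str (add σ n) A) : Str σ A where
  rel R t := 𝔄.rel (some R) t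

/-- the last relation, if it is unary -/
def un (𝔄 : Str (add σ 1) A) (x : A) : Prop := 𝔄.rel none (fun _ => x)

/-- The step problem is definable in the logic `E`. -/
def StepE (E : (σ : Sig) → (ι : Type) → Query σ ι → Prop) (L : Letters σ Λ) : Prop :=
  E (add σ 1) (Fin 2) (fun _ 𝔄 t => Sep L (red 𝔄) (un 𝔄) (t 0) (t 1))

/-- the query of the refinement -/
def stepQ (L : Letters σ Λ) : Query (add σ 2) (Fin 2) := fun _ 𝔄 t =>
  Sep L (red 𝔄) (fun v => ¬ 𝔄.rel none ![t 0, v]) (t 0) (t 1)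

/-- the substitution behind `stepQ` -/
def stepD : (R : (add σ 1).S) → Query (add σ 2) (Fin 2 ⊕ Fin ((add σ 1).ar R))
  | none => fun _ 𝔄 s => ¬ 𝔄.rel none
      (fun i : Fin 2 => s ((![Sum.inl 0, Sum.inr (0 : Fin 1)] : Fin 2 → Fin 2 ⊕ Fin 1) i))
  | some R => fun _ 𝔄 s => 𝔄.rel (some R) (fun i => s (Sum.inr i))

lemma expr_stepQ (hE : IsClosed E) (h : StepE E L) : E _ _ (stepQ L) := by
  have hD : ∀ R : (add σ 1).S, E _ _ (stepD R) := by
    intro R
    cases R with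
    | none =>
      exact hE.not (hE.rel (σ := add σ 2) (ι := Fin 2 ⊕ Fin 1) none
        (fun i : Fin 2 => (![Sum.inl 0, Sum.inr (0 : Fin 1)] : Fin 2 → Fin 2 ⊕ Fin 1) i))
    | some R =>
      exact hE.rel (σ := add σ 2) (ι := Fin 2 ⊕ Fin (σ.ar R)) (some R) (fun i => Sum.inr i)
  refine hE.congr (hE.subst h hD) (fun A _ _ 𝔄 t => ?_)
  unfold stepQ
  have h1 : (fun v => ¬ 𝔄.rel none ![t 0, v]) = un (defStr stepD 𝔄 t) := by
    funext v
    show (¬ 𝔄.rel none ![t 0, v]) = (¬ 𝔄.rel none (fun i : Fin 2 =>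
      Sum.elim t (fun _ => v) ((![Sum.inl 0, Sum.inr (0 : Fin 1)] : Fin 2 → Fin 2 ⊕ Fin 1) i)))
    congr 2
    funext i
    fin_cases i <;> rfl
  rw [h1]
  rfl

lemma St_iff (𝔄 : Str σ A) : ∀ (n : ℕ) (a b : A), St (stepQ L) 𝔄 n a b ↔ Xs L 𝔄 n a b
  | 0, _, _ => Iff.rfl
  | n + 1, a, b => by
    show (St (stepQ L) 𝔄 n a b ∨ Sep L (red (adds 𝔄 (fun t : Fin 2 → A =>
      St (stepQ L) 𝔄 n (t 0) (t 1)))) (fun v => ¬ St (stepQ L) 𝔄 n a v) a b) ↔
      (Xs L 𝔄 n a b ∨ Sep L 𝔄 (fun v => ¬ Xs L 𝔄 n a v) a b)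
    have h1 : (fun v => ¬ St (stepQ L) 𝔄 n a v) = (fun v => ¬ Xs L 𝔄 n a v) := by
      funext v
      exact propext (not_congr (St_iff 𝔄 n a v))
    rw [St_iff 𝔄 n a b, h1]
    rfl

/-- If the step problem is in a closed logic, then so is decomposability. -/
theorem inE_dec (hE : IsClosed E) (h : StepE E L) :
    InE E (fun A 𝔄 => Dec L 𝔄 (fun _ : A => True)) := by
  have h1 : E σ (Option Empty) (fun _ 𝔄 t => ∃ n, St (stepQ L) 𝔄 n (t none) (t none)) :=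
    hE.reindex (hE.ifp (expr_stepQ hE h)) (fun _ : Fin 2 => (none : Option Empty))
  refine hE.congr (hE.not (hE.ex (hE.not h1))) (fun A _ _ 𝔄 t => ?_)
  refine (dec_iff (L := L) (𝔄 := 𝔄)).trans ?_
  constructor
  · rintro hx ⟨a, ha⟩
    obtain ⟨n, hn⟩ := hx a
    exact ha ⟨n, (St_iff 𝔄 n a a).2 hn⟩
  · intro hx a
    by_contra hcon
    exact hx ⟨a, fun ⟨n, hn⟩ => hcon ⟨n, (St_iff 𝔄 n a a).1 hn⟩⟩

/-- **First theorem.**  If the step problem is in a closed logic, then so is the constraint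
satisfaction problem of the hierarchical power. -/
theorem inE_tree (hE : IsClosed E) (hc : ∀ q, ¬ L.term (c q)) (h : StepE E L) :
    InE E (CSP (tree L c)) :=
  hE.congr (inE_dec hE h) (fun _ _ _ _ _ => csp_iff hc)

end Pool.Agent.Work.MP_8dbde4_lc.HP
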