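import Pool.Agent.Work.MP_8dbde4_lc.HP.Base

/-!
# Anchored expansions: the step problem
-/

namespace Pool.Agent.Work.MP_8dbde4_lc.HP

open Pool.Agent.Work.MP_8dbde4_lc.TS

variable {E : (σ : Sig) → (ι : Type) → Query σ ι → Prop}
variable {σ : Sig} {Λ : Type} {L : Letters σ Λ} {c : ℚ → Λ} {A : Type}

/-- the signature of the structure on the letters -/
abbrev letSig (σ : Sig) : Sig := add (add (markSig σ) 2) 3

/-- the anchored signature -/
abbrev ancS (σ : Sig) : Sig := ancSig σ (letSig σ)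

/-- the expansion by the anchored versions of the relations of the structure on the letters -/
abbrev anc (L : Letters σ Λ) : Letters (ancS σ) Λ := anchored L (letters L)

/-- the ternary relation, first part -/
def impA (A : Type) (𝔄 : Str (add (ancS σ) 1) A) (u b d : A) : Prop :=
  ∃ Q : (letSig σ).S, ∃ w : Fin ((letSig σ).ar Q + 2) → A, 𝔄.rel (some (Sum.inr Q)) w ∧
    un 𝔄 (w (Fin.natAdd _ 0)) ∧ un 𝔄 (w (Fin.natAdd _ 1)) ∧ ∃ i, un 𝔄 (w (Fin.castAdd 2 i)) ∧
    u = w (Fin.castAdd 2 i) ∧ b = w (Fin.natAdd _ 0) ∧ d = w (Fin.natAdd _ 1)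

/-- the ternary relation, second part -/
def impB (A : Type) (𝔄 : Str (add (ancS σ) 1) A) (u b d : A) : Prop :=
  ∃ w : Fin (2 + 2) → A, 𝔄.rel (some (Sum.inr (some none))) w ∧ (∀ i, un 𝔄 (w i)) ∧
    b = w 0 ∧ d = w 1 ∧ (u = w 2 ∨ u = w 3)

/-- the ternary relation, third part -/
def impC (A : Type) (𝔄 : Str (add (ancS σ) 1) A) (u b d : A) : Prop :=
  ∃ w : Fin (3 + 2) → A, 𝔄.rel (some (Sum.inr none)) w ∧ (∀ i, un 𝔄 (w i)) ∧
    u = w 0 ∧ b = w 1 ∧ d = w 2

/-- anchored marks -/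
def mkA (A : Type) (𝔄 : Str (add (ancS σ) 1) A) (p : (markSig σ).S) (s : Fin (σ.ar p.1) → A) :
    Prop :=
  ∃ w : Fin (σ.ar p.1 + 2) → A, 𝔄.rel (some (Sum.inr (some (some p)))) w ∧ (∀ i, un 𝔄 (w i)) ∧
    ∀ i, s i = w (Fin.castAdd 2 i)

/-- the instance of the letter structure -/
def D1 : (Q : (letSig σ).S) → Query (add (ancS σ) 1) (Fin 2 ⊕ Fin ((letSig σ).ar Q))
  | none => fun A 𝔄 s =>
      (impA A 𝔄 (s (Sum.inr (0 : Fin 3))) (s (Sum.inr (1 : Fin 3))) (s (Sum.inr (2 : Fin 3))) ∨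
      impB A 𝔄 (s (Sum.inr (0 : Fin 3))) (s (Sum.inr (1 : Fin 3))) (s (Sum.inr (2 : Fin 3)))) ∨
      impC A 𝔄 (s (Sum.inr (0 : Fin 3))) (s (Sum.inr (1 : Fin 3))) (s (Sum.inr (2 : Fin 3)))
  | some none => fun _ _ s => s (Sum.inr (0 : Fin 2)) = s (Sum.inl 0) ∧
      s (Sum.inr (1 : Fin 2)) = s (Sum.inl 1)
  | some (some p) => fun A 𝔄 s =>
      (𝔄.rel (some (Sum.inl p.1)) (fun i => s (Sum.inr i)) ∧
        ∀ i : Fin (σ.ar p.1), (p.2 i = true ↔ un 𝔄 (s (Sum.inr i)))) ∨
      mkA A 𝔄 p (fun i => s (Sum.inr i))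

section expr

variable {ι : Type} [Finite ι] (hE : IsClosed E)

include hE

lemma expr_impA (u b d : ι) :
    E (add (ancS σ) 1) ι (fun A 𝔄 t => impA A 𝔄 (t u) (t b) (t d)) := by
  unfold impA
  refine hE.exI fun Q => ?_
  refine hE.congr (hE.exT (P := fun A 𝔄 s => 𝔄.rel (some (Sum.inr Q)) (fun i => s (Sum.inr i)) ∧
    un 𝔄 (s (Sum.inr (Fin.natAdd _ 0))) ∧ un 𝔄 (s (Sum.inr (Fin.natAdd _ 1))) ∧
    ∃ i : Fin ((letSig σ).ar Q), un 𝔄 (s (Sum.inr (Fin.castAdd 2 i))) ∧
    s (Sum.inl u) = s (Sum.inr (Fin.castAdd 2 i)) ∧ s (Sum.inl b) = s (Sum.inr (Fin.natAdd _ 0)) ∧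
    s (Sum.inl d) = s (Sum.inr (Fin.natAdd _ 1))) ?_) (fun A _ _ 𝔄 t => Iff.rfl)
  refine hE.and (hE.rel (σ := add (ancS σ) 1) (some (Sum.inr Q)) (fun i => Sum.inr i))
    (hE.and (expr_un hE _) (hE.and (expr_un hE _) (hE.exI fun i => ?_)))
  exact hE.and (expr_un hE _) (hE.and (hE.eq _ _) (hE.and (hE.eq _ _) (hE.eq _ _)))

lemma expr_impB (u b d : ι) :
    E (add (ancS σ) 1) ι (fun A 𝔄 t => impB A 𝔄 (t u) (t b) (t d)) := by
  unfold impB
  refine hE.congr (hE.exT (P := fun A 𝔄 s => 𝔄.rel (some (Sum.inr (some none)))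
    (fun i : Fin (2 + 2) => s (Sum.inr i)) ∧ (∀ i : Fin (2 + 2), un 𝔄 (s (Sum.inr i))) ∧
    s (Sum.inl b) = s (Sum.inr 0) ∧ s (Sum.inl d) = s (Sum.inr 1) ∧
    (s (Sum.inl u) = s (Sum.inr 2) ∨ s (Sum.inl u) = s (Sum.inr 3))) ?_)
      (fun A _ _ 𝔄 t => Iff.rfl)
  refine hE.and (hE.rel (σ := add (ancS σ) 1) (some (Sum.inr (some none))) (fun i => Sum.inr i))
    (hE.and (hE.allI fun i => expr_un hE _) ?_)
  exact hE.and (hE.eq _ _) (hE.and (hE.eq _ _) (hE.or (hE.eq _ _) (hE.eq _ _)))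

lemma expr_impC (u b d : ι) :
    E (add (ancS σ) 1) ι (fun A 𝔄 t => impC A 𝔄 (t u) (t b) (t d)) := by
  unfold impC
  refine hE.congr (hE.exT (P := fun A 𝔄 s => 𝔄.rel (some (Sum.inr none))
    (fun i : Fin (3 + 2) => s (Sum.inr i)) ∧ (∀ i : Fin (3 + 2), un 𝔄 (s (Sum.inr i))) ∧
    s (Sum.inl u) = s (Sum.inr 0) ∧ s (Sum.inl b) = s (Sum.inr 1) ∧
    s (Sum.inl d) = s (Sum.inr 2)) ?_) (fun A _ _ 𝔄 t => Iff.rfl)
  refine hE.and (hE.rel (σ := add (ancS σ) 1) (some (Sum.inr none)) (fun i => Sum.inr i))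
    (hE.and (hE.allI fun i => expr_un hE _) ?_)
  exact hE.and (hE.eq _ _) (hE.and (hE.eq _ _) (hE.eq _ _))

lemma expr_mkA (p : (markSig σ).S) (f : Fin (σ.ar p.1) → ι) :
    E (add (ancS σ) 1) ι (fun A 𝔄 t => mkA A 𝔄 p (fun i => t (f i))) := by
  unfold mkA
  refine hE.congr (hE.exT (P := fun A 𝔄 s => 𝔄.rel (some (Sum.inr (some (some p))))
    (fun i : Fin (σ.ar p.1 + 2) => s (Sum.inr i)) ∧
    (∀ i : Fin (σ.ar p.1 + 2), un 𝔄 (s (Sum.inr i))) ∧
    ∀ i : Fin (σ.ar p.1), s (Sum.inl (f i)) = s (Sum.inr (Fin.castAdd 2 i))) ?_)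
      (fun A _ _ 𝔄 t => Iff.rfl)
  exact hE.and (hE.rel (σ := add (ancS σ) 1) (some (Sum.inr (some (some p))))
    (fun i => Sum.inr i)) (hE.and (hE.allI fun i => expr_un hE _) (hE.allI fun i => hE.eq _ _))

end expr

lemma expr_D1 (hE : IsClosed E) (Q : (letSig σ).S) : E _ _ (D1 Q) := by
  rcases Q with _ | _ | p
  · exact hE.or (hE.or (expr_impA hE (ι := Fin 2 ⊕ Fin 3) _ _ _) (expr_impB hE _ _ _))
      (expr_impC hE _ _ _)
  · exact hE.and (hE.eq (σ := add (ancS σ) 1) (ι := Fin 2 ⊕ Fin 2) _ _) (hE.eq _ _)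
  · refine hE.or (hE.and (hE.rel (σ := add (ancS σ) 1) (ι := Fin 2 ⊕ Fin (σ.ar p.1))
      (some (Sum.inl p.1)) (fun i => Sum.inr i)) (hE.allI fun i => ?_))
        (expr_mkA hE (ι := Fin 2 ⊕ Fin (σ.ar p.1)) p (fun i => Sum.inr i))
    exact hE.iffC (expr_un hE (ι := Fin 2 ⊕ Fin (σ.ar p.1)) (Sum.inr i)) _

lemma sep_iff₁ (𝔄 : Str (add (ancS σ) 1) A) (t : Fin 2 → A) :
    Sep (anc L) (red 𝔄) (un 𝔄) (t 0) (t 1) ↔
      un 𝔄 (t 0) ∧ un 𝔄 (t 1) ∧ CSP (letters L) A (defStr D1 𝔄 t) := by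
  classical
  constructor
  · rintro ⟨hx, hy, h, hh, hd⟩
    refine ⟨hx, hy, ?_⟩
    obtain ⟨l, hl⟩ := Option.ne_none_iff_exists'.1 ((hh.dom _).2 hx)
    have hsome : ∀ u, un 𝔄 u → h u = some ((h u).getD l) := by
      intro u hu
      obtain ⟨k, hk⟩ := Option.ne_none_iff_exists'.1 ((hh.dom _).2 hu)
      rw [hk]
      rfl
    -- the anchored constraints
    have hanc : ∀ (Q : (letSig σ).S) (w : Fin ((letSig σ).ar Q + 2) → A),
        𝔄.rel (some (Sum.inr Q)) w → un 𝔄 (w (Fin.natAdd _ 0)) → un 𝔄 (w (Fin.natAdd _ 1)) →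
        (((h (w (Fin.natAdd _ 0))).getD l = (h (w (Fin.natAdd _ 1))).getD l ∧
          ¬ L.term ((h (w (Fin.natAdd _ 0))).getD l)) → ∀ i, un 𝔄 (w (Fin.castAdd 2 i)) →
          (h (w (Fin.castAdd 2 i))).getD l = (h (w (Fin.natAdd _ 0))).getD l) ∧
        (¬ ((h (w (Fin.natAdd _ 0))).getD l = (h (w (Fin.natAdd _ 1))).getD l ∧
          ¬ L.term ((h (w (Fin.natAdd _ 0))).getD l)) → (∀ i, un 𝔄 (w (Fin.castAdd 2 i))) →
          (letters L).rel Q (fun i => (h (w (Fin.castAdd 2 i))).getD l)) := by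
      intro Q w hw h1 h2
      have h3 : ancPat L.term ((letters L).rel Q) (fun i => h (w i)) := hh.ok (Sum.inr Q) w hw
      obtain ⟨h4, h5⟩ := h3 _ _ (hsome _ h1) (hsome _ h2)
      exact ⟨fun h6 i hi => h4 h6 i _ (hsome _ hi), fun h6 h7 => h5 h6 _ (fun i => hsome _ (h7 i))⟩
    refine ⟨fun u => (h u).getD l, fun Q s hs => ?_⟩
    rcases Q with _ | _ | p
    · show (h (s (1 : Fin 3))).getD l = (h (s (2 : Fin 3))).getD l →
        ¬ L.term ((h (s (1 : Fin 3))).getD l) → (h (s (0 : Fin 3))).getD l =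
          (h (s (1 : Fin 3))).getD l
      intro he hne
      have hs' : (impA A 𝔄 (s (0 : Fin 3)) (s (1 : Fin 3)) (s (2 : Fin 3)) ∨
          impB A 𝔄 (s (0 : Fin 3)) (s (1 : Fin 3)) (s (2 : Fin 3))) ∨
          impC A 𝔄 (s (0 : Fin 3)) (s (1 : Fin 3)) (s (2 : Fin 3)) := hs
      rcases hs' with (⟨Q, w, hw, h1, h2, i, hi, hu, hb, hd'⟩ | ⟨w, hw, hW, hb, hd', hu⟩) |
        ⟨w, hw, hW, hu, hb, hd'⟩
      · rw [hb, hd'] at he
        rw [hb] at hne
        rw [hu, hb]
        exact (hanc Q w hw h1 h2).1 ⟨he, hne⟩ i hi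
      · obtain ⟨h4, h5⟩ := hanc (some none) w hw (hW _) (hW _)
        by_cases hsame : ((h (w (Fin.natAdd 2 0))).getD l = (h (w (Fin.natAdd 2 1))).getD l ∧
          ¬ L.term ((h (w (Fin.natAdd 2 0))).getD l))
        · have h6 := h4 hsame (0 : Fin 2) (hW _)
          have h6' : (h (w 0)).getD l = (h (w 2)).getD l := h6
          have h7' : (h (w 2)).getD l = (h (w 3)).getD l := hsame.1
          rw [hb]
          rcases hu with hu | hu
          · rw [hu, h6']
          · rw [hu, h6', h7']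
        · have h6 := h5 hsame (fun i => hW _)
          have h6' : (h (w 0)).getD l ≠ (h (w 1)).getD l ∨ L.term ((h (w 0)).getD l) := h6
          rw [hb, hd'] at he
          rw [hb] at hne
          rcases h6' with h6' | h6'
          · exact absurd he h6'
          · exact absurd h6' hne
      · obtain ⟨h4, h5⟩ := hanc none w hw (hW _) (hW _)
        by_cases hsame : ((h (w (Fin.natAdd 3 0))).getD l = (h (w (Fin.natAdd 3 1))).getD l ∧
          ¬ L.term ((h (w (Fin.natAdd 3 0))).getD l))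
        · have h6 : (h (w 0)).getD l = (h (w 3)).getD l := h4 hsame (0 : Fin 3) (hW _)
          have h7 : (h (w 1)).getD l = (h (w 3)).getD l := h4 hsame (1 : Fin 3) (hW _)
          rw [hu, hb, h6, h7]
        · have h6 : (h (w 1)).getD l = (h (w 2)).getD l → ¬ L.term ((h (w 1)).getD l) →
            (h (w 0)).getD l = (h (w 1)).getD l := h5 hsame (fun i => hW _)
          rw [hb, hd'] at he
          rw [hb] at hne
          rw [hu, hb]
          exact h6 he hne
    · obtain ⟨h1, h2⟩ := hs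
      have h1' : s (0 : Fin 2) = t 0 := h1
      have h2' : s (1 : Fin 2) = t 1 := h2
      show (h (s (0 : Fin 2))).getD l ≠ (h (s (1 : Fin 2))).getD l ∨
        L.term ((h (s (0 : Fin 2))).getD l)
      rw [h1', h2']
      rcases hd with hd | ⟨k, hk, hd⟩
      · left
        intro he
        apply hd
        rw [hsome _ hx, hsome _ hy, he]
      · right
        rw [hd]
        exact hk
    · show L.pat p.1 (fun i => if p.2 i then some ((h (s i)).getD l) else none)
      rcases hs with ⟨h1, h2⟩ | ⟨w, hw, hW, hs'⟩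
      · have := hh.ok (Sum.inl p.1) s h1
        have he : (fun i => if p.2 i then some ((h (s i)).getD l) else none) =
            fun i => h (s i) := by
          funext i
          have h3 : (p.2 i = true ↔ un 𝔄 (s i)) := h2 i
          by_cases hi : un 𝔄 (s i)
          · rw [if_pos (h3.2 hi), ← hsome _ hi]
          · rw [if_neg (fun h' => hi (h3.1 h'))]
            by_contra hne
            exact hi ((hh.dom _).1 (fun h' => hne h'.symm))
        rw [he]
        exact this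
      · have hsw : s = fun i => w (Fin.castAdd 2 i) := by
          funext i
          exact hs' i
        obtain ⟨h4, h5⟩ := hanc (some (some p)) w hw (hW _) (hW _)
        by_cases hsame : ((h (w (Fin.natAdd (σ.ar p.1) 0))).getD l =
            (h (w (Fin.natAdd (σ.ar p.1) 1))).getD l ∧
            ¬ L.term ((h (w (Fin.natAdd (σ.ar p.1) 0))).getD l))
        · refine L.weaken _ _ _ (L.const p.1 _ hsame.2) (fun i => ?_)
          have h6 : (h (w (Fin.castAdd 2 i))).getD l = (h (w (Fin.natAdd (σ.ar p.1) 0))).getD l :=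
            h4 hsame i (hW _)
          rw [hsw]
          by_cases hi : p.2 i = true
          · right
            simp only [hi, if_true]
            rw [h6]
          · left
            simp [hi]
        · have h6 : L.pat p.1 (fun i => if p.2 i then some ((h (w (Fin.castAdd 2 i))).getD l)
            else none) := h5 hsame (fun i => hW _)
          rw [hsw]
          exact h6
  · rintro ⟨hx, hy, h, hh⟩
    have hsome : ∀ (u : A) (a : Λ), (if un 𝔄 u then some (h u) else none) = some a →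
        un 𝔄 u ∧ a = h u := by
      intro u a hu
      by_cases hu' : un 𝔄 u
      · rw [if_pos hu'] at hu
        exact ⟨hu', (by simpa using hu.symm)⟩
      · rw [if_neg hu'] at hu
        exact absurd hu (by simp)
    refine ⟨hx, hy, fun u => if un 𝔄 u then some (h u) else none, ⟨fun u => ?_, fun R s hs => ?_⟩,
      ?_⟩
    · by_cases hu : un 𝔄 u <;> simp [hu]
    · rcases R with R | Q
      · have := hh (some (some ⟨R, fun i => decide (un 𝔄 (s i))⟩)) s (Or.inl ⟨hs, fun i => by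
          show (decide (un 𝔄 (s i)) = true ↔ _)
          rw [decide_eq_true_iff]
          rfl⟩)
        have h2 : L.pat R (fun i => if decide (un 𝔄 (s i)) then some (h (s i)) else none) := this
        have h3 : L.pat R (fun i => if un 𝔄 (s i) then some (h (s i)) else none) := by
          simpa using h2
        exact h3
      · show ancPat L.term ((letters L).rel Q) (fun i => if un 𝔄 (s i) then some (h (s i)) else none)
        intro a b ha hb
        obtain ⟨hWa, rfl⟩ := hsome _ _ ha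
        obtain ⟨hWb, rfl⟩ := hsome _ _ hb
        refine ⟨?_, ?_⟩
        · rintro ⟨he, hne⟩ i a' ha'
          obtain ⟨hWi, rfl⟩ := hsome _ _ ha'
          have := hh none (![s (Fin.castAdd 2 i), s (Fin.natAdd _ 0), s (Fin.natAdd _ 1)] :
            Fin 3 → A) (Or.inl (Or.inl ⟨Q, s, hs, hWa, hWb, i, hWi, rfl, rfl, rfl⟩))
          exact this he hne
        · intro hns t' ht'
          have hW : ∀ i, un 𝔄 (s (Fin.castAdd 2 i)) := fun i => (hsome _ _ (ht' i)).1
          have ht2 : t' = fun i => h (s (Fin.castAdd 2 i)) := by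
            funext i
            exact (hsome _ _ (ht' i)).2
          have hall : ∀ i, un 𝔄 (s i) := by
            intro i
            refine Fin.addCases (fun j => hW j) (fun j => ?_) i
            fin_cases j
            · exact hWa
            · exact hWb
          rw [ht2]
          rcases Q with _ | _ | p
          · have := hh none (![s (0 : Fin 5), s (1 : Fin 5), s (2 : Fin 5)] : Fin 3 → A)
              (Or.inr ⟨s, hs, hall, rfl, rfl, rfl⟩)
            exact this
          · show h (s (0 : Fin 4)) ≠ h (s (1 : Fin 4)) ∨ L.term (h (s (0 : Fin 4)))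
            by_contra hcon
            push Not at hcon
            obtain ⟨hc1, hc2⟩ := hcon
            have e1 := hh none (![s (2 : Fin 4), s (0 : Fin 4), s (1 : Fin 4)] : Fin 3 → A)
              (Or.inl (Or.inr ⟨s, hs, hall, rfl, rfl, Or.inl rfl⟩))
            have e2 := hh none (![s (3 : Fin 4), s (0 : Fin 4), s (1 : Fin 4)] : Fin 3 → A)
              (Or.inl (Or.inr ⟨s, hs, hall, rfl, rfl, Or.inr rfl⟩))
            have e1' : h (s (2 : Fin 4)) = h (s (0 : Fin 4)) := e1 hc1 hc2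
            have e2' : h (s (3 : Fin 4)) = h (s (0 : Fin 4)) := e2 hc1 hc2
            apply hns
            show h (s (2 : Fin 4)) = h (s (3 : Fin 4)) ∧ ¬ L.term (h (s (2 : Fin 4)))
            rw [e1', e2']
            exact ⟨rfl, hc2⟩
          · exact hh (some (some p)) (fun i => s (Fin.castAdd 2 i))
              (Or.inr ⟨s, hs, hall, fun i => rfl⟩)
    · have := hh (some none) (![t 0, t 1] : Fin 2 → A) ⟨rfl, rfl⟩
      have h2 : h (t 0) ≠ h (t 1) ∨ L.term (h (t 0)) := this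
      simp only [if_pos hx, if_pos hy]
      rcases h2 with h2 | h2
      · left
        intro he
        exact h2 (by simpa using he)
      · exact Or.inr ⟨_, h2, rfl⟩

lemma stepE_anc (hE : IsClosed E) (h : InE E (CSP (letters L))) : StepE E (anc L) := by
  have h1 := hE.subst (hE.of_inE (ι := Fin 2) h) (fun Q => expr_D1 (σ := σ) hE Q)
  exact hE.congr (hE.and (expr_un hE 0) (hE.and (expr_un hE 1) h1))
    (fun A _ _ 𝔄 t => sep_iff₁ 𝔄 t)

/-- **Third theorem.**  The anchored expansion is in the logic if the structure on the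
letters is. -/
theorem inE_anc (hE : IsClosed E) (hc : ∀ q, ¬ L.term (c q)) (h : InE E (CSP (letters L))) :
    InE E (CSP (tree (anc L) c)) := inE_tree hE hc (stepE_anc hE h)

end Pool.Agent.Work.MP_8dbde4_lc.HP
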