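import Pool.Agent.Work.MP_8dbde4_lc.HP.Level
import Pool.Agent.Work.MP_8dbde4_lc.HP.Base

/-!
# Expansions anchored at one element
-/

namespace Pool.Agent.Work.MP_8dbde4_lc.HP

open Pool.Agent.Work.MP_8dbde4_lc.TS

variable {E : (σ : Sig) → (ι : Type) → Query σ ι → Prop}
variable {σ μ : Sig} {Λ : Type} {L : Letters σ Λ} {A : Type}

/-- Some step on `W` ends `x`. -/
def End (L : Letters σ Λ) (𝔄 : Str σ A) (W : A → Prop) (x : A) : Prop :=
  W x ∧ ∃ h, IsStep L 𝔄 W h ∧ ∃ t, L.term t ∧ h x = some t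

lemma sep_iff_end (hK : ∀ k k', ¬ L.term k → ¬ L.term k' → k = k') {𝔄 : Str σ A}
    {W : A → Prop} {x y : A} :
    Sep L 𝔄 W x y ↔ W x ∧ W y ∧ (End L 𝔄 W x ∨ End L 𝔄 W y) := by
  constructor
  · rintro ⟨hx, hy, h, hh, hd⟩
    refine ⟨hx, hy, ?_⟩
    rcases hd with hd | hd
    · obtain ⟨k, hk⟩ := Option.ne_none_iff_exists'.1 ((hh.dom _).2 hx)
      obtain ⟨k', hk'⟩ := Option.ne_none_iff_exists'.1 ((hh.dom _).2 hy)
      by_cases h1 : L.term k
      · exact Or.inl ⟨hx, h, hh, k, h1, hk⟩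
      · by_cases h2 : L.term k'
        · exact Or.inr ⟨hy, h, hh, k', h2, hk'⟩
        · exact absurd (by rw [hk, hk', hK k k' h1 h2]) hd
    · exact Or.inl ⟨hx, h, hh, hd⟩
  · rintro ⟨hx, hy, hd⟩
    refine ⟨hx, hy, ?_⟩
    rcases hd with ⟨_, h, hh, hd⟩ | ⟨_, h, hh, t, ht, hd⟩
    · exact ⟨h, hh, Or.inr hd⟩
    · refine ⟨h, hh, ?_⟩
      by_cases he : h x = h y
      · exact Or.inr ⟨t, ht, he.trans hd⟩
      · exact Or.inl he

/-- The ending problem is definable in the logic `E`. -/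
def EndE (E : (σ : Sig) → (ι : Type) → Query σ ι → Prop) (L : Letters σ Λ) : Prop :=
  E (add σ 1) (Fin 1) (fun _ 𝔄 t => End L (red 𝔄) (un 𝔄) (t 0))

lemma stepE_of_endE (hE : IsClosed E) (hK : ∀ k k', ¬ L.term k → ¬ L.term k' → k = k')
    (h : EndE E L) : StepE E L := by
  have h1 : ∀ k : Fin 2, E (add σ 1) (Fin 2) (fun _ 𝔄 t => End L (red 𝔄) (un 𝔄) (t k)) :=
    fun k => hE.reindex h (fun _ : Fin 1 => k)
  exact hE.congr (hE.and (expr_un hE 0) (hE.and (expr_un hE 1) (hE.or (h1 0) (h1 1))))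
    (fun A _ _ 𝔄 t => sep_iff_end hK)

/-- the allowed patterns with the unary relation terminal -/
def lettersA (L : Letters σ Λ) : Str (add (markSig σ) 1) Λ :=
  adds (marks L) (fun t : Fin 1 → Λ => L.term (t 0))

/-- and with the binary relation `y` continuing implies `x = y` -/
def lettersB (L : Letters σ Λ) : Str (add (add (markSig σ) 1) 2) Λ :=
  adds (lettersA L) (fun t : Fin 2 → Λ => ¬ L.term (t 1) → t 0 = t 1)

/-- the instance of the letter structure -/
def D2 : (Q : (add (markSig σ) 1).S) → Query (add σ 1) (Fin 1 ⊕ Fin ((add (markSig σ) 1).ar Q))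
  | none => fun _ _ s => s (Sum.inr (0 : Fin 1)) = s (Sum.inl 0)
  | some p => fun _ 𝔄 s => 𝔄.rel (some p.1) (fun i => s (Sum.inr i)) ∧
      ∀ i : Fin (σ.ar p.1), (p.2 i = true ↔ un 𝔄 (s (Sum.inr i)))

lemma expr_D2 (hE : IsClosed E) (Q : (add (markSig σ) 1).S) : E _ _ (D2 Q) := by
  cases Q with
  | none =>
    exact hE.eq (σ := add σ 1) (ι := Fin 1 ⊕ Fin 1) _ _
  | some p =>
    refine hE.and (hE.rel (σ := add σ 1) (ι := Fin 1 ⊕ Fin (σ.ar p.1)) (some p.1)
      (fun i => Sum.inr i)) (hE.allI fun i => ?_)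
    exact hE.iffC (hE.rel (σ := add σ 1) (ι := Fin 1 ⊕ Fin (σ.ar p.1)) none
      (fun _ => Sum.inr i)) _

lemma end_iff (𝔄 : Str (add σ 1) A) (t : Fin 1 → A) :
    End L (red 𝔄) (un 𝔄) (t 0) ↔
      un 𝔄 (t 0) ∧ CSP (lettersA L) A (defStr D2 𝔄 t) := by
  classical
  constructor
  · rintro ⟨hx, h, hh, l, hlt, hl⟩
    refine ⟨hx, ?_⟩
    have hsome : ∀ u, un 𝔄 u → h u = some ((h u).getD l) := by
      intro u hu
      obtain ⟨k, hk⟩ := Option.ne_none_iff_exists'.1 ((hh.dom _).2 hu)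
      rw [hk]
      rfl
    refine ⟨fun u => (h u).getD l, fun Q s hs => ?_⟩
    rcases Q with _ | p
    · have h1 : s (0 : Fin 1) = t 0 := hs
      show L.term ((h (s (0 : Fin 1))).getD l)
      rw [h1, hl]
      exact hlt
    · obtain ⟨h1, h2⟩ := hs
      show L.pat p.1 (fun i => if p.2 i then some ((h (s i)).getD l) else none)
      have := hh.ok p.1 s h1
      have he : (fun i => if p.2 i then some ((h (s i)).getD l) else none) = fun i => h (s i) := by
        funext i
        have h3 : (p.2 i = true ↔ un 𝔄 (s i)) := h2 i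
        by_cases hi : un 𝔄 (s i)
        · rw [if_pos (h3.2 hi), ← hsome _ hi]
        · rw [if_neg (fun h' => hi (h3.1 h'))]
          by_contra hne
          exact hi ((hh.dom _).1 (fun h' => hne h'.symm))
      rw [he]
      exact this
  · rintro ⟨hx, h, hh⟩
    refine ⟨hx, fun u => if un 𝔄 u then some (h u) else none, ⟨fun u => ?_, fun R s hs => ?_⟩,
      ?_⟩
    · by_cases hu : un 𝔄 u <;> simp [hu]
    · have := hh (some ⟨R, fun i => decide (un 𝔄 (s i))⟩) s ⟨hs, fun i => by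
        show (decide (un 𝔄 (s i)) = true ↔ _)
        rw [decide_eq_true_iff]
        rfl⟩
      have h2 : L.pat R (fun i => if decide (un 𝔄 (s i)) then some (h (s i)) else none) := this
      simpa using h2
    · have h2 : L.term (h (t 0)) := hh none (fun _ : Fin 1 => t 0) rfl
      exact ⟨_, h2, by simp only [if_pos hx]⟩

lemma endE_of (hE : IsClosed E) (h : InE E (CSP (lettersA L))) : EndE E L := by
  have h1 := hE.subst (hE.of_inE (ι := Fin 1) h) (fun Q => expr_D2 (σ := σ) hE Q)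
  exact hE.congr (hE.and (expr_un hE 0) h1) (fun A _ _ 𝔄 t => end_iff 𝔄 t)

/-- The allowed patterns of an anchored relation. -/
def ancPat₁ (term : Λ → Prop) {n : ℕ} (Q : (Fin n → Λ) → Prop)
    (p : Fin (n + 1) → Option Λ) : Prop :=
  ∀ a, p (Fin.last n) = some a →
    (¬ term a → ∀ i a', p (Fin.castSucc i) = some a' → a' = a) ∧
    (term a → ∀ t : Fin n → Λ, (∀ i, p (Fin.castSucc i) = some (t i)) → Q t)

/-- The expansion of a system of letters by anchored relations. -/
def anchored₁ (L : Letters σ Λ) (𝔐 : Str μ Λ) : Letters (ancSig₁ σ μ) Λ where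
  term := L.term
  pat
    | .inl R => L.pat R
    | .inr Q => fun p => ancPat₁ L.term (𝔐.rel Q) p
  weaken R p p' hp h := by
    rcases R with R | Q
    · exact L.weaken R p p' hp h
    · intro a ha
      have h' : ∀ i x, p' i = some x → p i = some x := by
        intro i x hx
        rcases h i with h1 | h1
        · rw [h1] at hx
          exact absurd hx (by simp)
        · rw [← h1]
          exact hx
      obtain ⟨h1, h2⟩ := hp a (h' _ _ ha)
      exact ⟨fun h3 i a' h4 => h1 h3 i a' (h' _ _ h4),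
        fun h3 t ht => h2 h3 t (fun i => h' _ _ (ht i))⟩
  const R k hk := by
    rcases R with R | Q
    · exact L.const R k hk
    · intro a ha
      have h1 : k = a := by simpa using ha
      subst h1
      refine ⟨fun _ i a' h3 => ?_, fun h3 => absurd h3 hk⟩
      have : k = a' := by simpa using h3
      exact this.symm

/-- the signature of the structure on the letters -/
abbrev letSig₁ (σ : Sig) : Sig := add (add (markSig σ) 1) 2

/-- the anchored signature -/
abbrev ancS₁ (σ : Sig) : Sig := ancSig₁ σ (letSig₁ σ)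

/-- the anchored expansion -/
abbrev anc₁ (L : Letters σ Λ) : Letters (ancS₁ σ) Λ := anchored₁ L (lettersB L)

/-- the binary relation, first part -/
def imA (A : Type) (𝔄 : Str (add (ancS₁ σ) 1) A) (u b : A) : Prop :=
  ∃ Q : (letSig₁ σ).S, ∃ w : Fin ((letSig₁ σ).ar Q + 1) → A, 𝔄.rel (some (Sum.inr Q)) w ∧
    un 𝔄 (w (Fin.last _)) ∧ ∃ i, un 𝔄 (w (Fin.castSucc i)) ∧
    u = w (Fin.castSucc i) ∧ b = w (Fin.last _)

/-- the binary relation, second part -/
def imB (A : Type) (𝔄 : Str (add (ancS₁ σ) 1) A) (u b : A) : Prop :=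
  ∃ w : Fin (1 + 1) → A, 𝔄.rel (some (Sum.inr (some none))) w ∧ (∀ i, un 𝔄 (w i)) ∧
    u = w 1 ∧ b = w 0

/-- the binary relation, third part -/
def imC (A : Type) (𝔄 : Str (add (ancS₁ σ) 1) A) (u b : A) : Prop :=
  ∃ w : Fin (2 + 1) → A, 𝔄.rel (some (Sum.inr none)) w ∧ (∀ i, un 𝔄 (w i)) ∧
    u = w 0 ∧ b = w 1

/-- anchored marks -/
def mkB (A : Type) (𝔄 : Str (add (ancS₁ σ) 1) A) (p : (markSig σ).S) (s : Fin (σ.ar p.1) → A) :
    Prop :=
  ∃ w : Fin (σ.ar p.1 + 1) → A, 𝔄.rel (some (Sum.inr (some (some p)))) w ∧ (∀ i, un 𝔄 (w i)) ∧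
    ∀ i, s i = w (Fin.castSucc i)

/-- the instance of the letter structure -/
def D3 : (Q : (letSig₁ σ).S) → Query (add (ancS₁ σ) 1) (Fin 1 ⊕ Fin ((letSig₁ σ).ar Q))
  | none => fun A 𝔄 s =>
      (imA A 𝔄 (s (Sum.inr (0 : Fin 2))) (s (Sum.inr (1 : Fin 2))) ∨
      imB A 𝔄 (s (Sum.inr (0 : Fin 2))) (s (Sum.inr (1 : Fin 2)))) ∨
      imC A 𝔄 (s (Sum.inr (0 : Fin 2))) (s (Sum.inr (1 : Fin 2)))
  | some none => fun _ _ s => s (Sum.inr (0 : Fin 1)) = s (Sum.inl 0)
  | some (some p) => fun A 𝔄 s =>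
      (𝔄.rel (some (Sum.inl p.1)) (fun i => s (Sum.inr i)) ∧
        ∀ i : Fin (σ.ar p.1), (p.2 i = true ↔ un 𝔄 (s (Sum.inr i)))) ∨
      mkB A 𝔄 p (fun i => s (Sum.inr i))

section expr

variable {ι : Type} [Finite ι] (hE : IsClosed E)

include hE

lemma expr_imA (u b : ι) : E (add (ancS₁ σ) 1) ι (fun A 𝔄 t => imA A 𝔄 (t u) (t b)) := by
  unfold imA
  refine hE.exI fun Q => ?_
  refine hE.congr (hE.exT (P := fun A 𝔄 s => 𝔄.rel (some (Sum.inr Q)) (fun i => s (Sum.inr i)) ∧
    un 𝔄 (s (Sum.inr (Fin.last _))) ∧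
    ∃ i : Fin ((letSig₁ σ).ar Q), un 𝔄 (s (Sum.inr (Fin.castSucc i))) ∧
    s (Sum.inl u) = s (Sum.inr (Fin.castSucc i)) ∧
    s (Sum.inl b) = s (Sum.inr (Fin.last _))) ?_) (fun A _ _ 𝔄 t => Iff.rfl)
  refine hE.and (hE.rel (σ := add (ancS₁ σ) 1) (some (Sum.inr Q)) (fun i => Sum.inr i))
    (hE.and (expr_un hE _) (hE.exI fun i => ?_))
  exact hE.and (expr_un hE _) (hE.and (hE.eq _ _) (hE.eq _ _))

lemma expr_imB (u b : ι) : E (add (ancS₁ σ) 1) ι (fun A 𝔄 t => imB A 𝔄 (t u) (t b)) := by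
  unfold imB
  refine hE.congr (hE.exT (P := fun A 𝔄 s => 𝔄.rel (some (Sum.inr (some none)))
    (fun i : Fin (1 + 1) => s (Sum.inr i)) ∧ (∀ i : Fin (1 + 1), un 𝔄 (s (Sum.inr i))) ∧
    s (Sum.inl u) = s (Sum.inr 1) ∧ s (Sum.inl b) = s (Sum.inr 0)) ?_)
      (fun A _ _ 𝔄 t => Iff.rfl)
  refine hE.and (hE.rel (σ := add (ancS₁ σ) 1) (some (Sum.inr (some none))) (fun i => Sum.inr i))
    (hE.and (hE.allI fun i => expr_un hE _) ?_)
  exact hE.and (hE.eq _ _) (hE.eq _ _)

lemma expr_imC (u b : ι) : E (add (ancS₁ σ) 1) ι (fun A 𝔄 t => imC A 𝔄 (t u) (t b)) := by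
  unfold imC
  refine hE.congr (hE.exT (P := fun A 𝔄 s => 𝔄.rel (some (Sum.inr none))
    (fun i : Fin (2 + 1) => s (Sum.inr i)) ∧ (∀ i : Fin (2 + 1), un 𝔄 (s (Sum.inr i))) ∧
    s (Sum.inl u) = s (Sum.inr 0) ∧ s (Sum.inl b) = s (Sum.inr 1)) ?_)
      (fun A _ _ 𝔄 t => Iff.rfl)
  refine hE.and (hE.rel (σ := add (ancS₁ σ) 1) (some (Sum.inr none)) (fun i => Sum.inr i))
    (hE.and (hE.allI fun i => expr_un hE _) ?_)
  exact hE.and (hE.eq _ _) (hE.eq _ _)

lemma expr_mkB (p : (markSig σ).S) (f : Fin (σ.ar p.1) → ι) :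
    E (add (ancS₁ σ) 1) ι (fun A 𝔄 t => mkB A 𝔄 p (fun i => t (f i))) := by
  unfold mkB
  refine hE.congr (hE.exT (P := fun A 𝔄 s => 𝔄.rel (some (Sum.inr (some (some p))))
    (fun i : Fin (σ.ar p.1 + 1) => s (Sum.inr i)) ∧
    (∀ i : Fin (σ.ar p.1 + 1), un 𝔄 (s (Sum.inr i))) ∧
    ∀ i : Fin (σ.ar p.1), s (Sum.inl (f i)) = s (Sum.inr (Fin.castSucc i))) ?_)
      (fun A _ _ 𝔄 t => Iff.rfl)
  exact hE.and (hE.rel (σ := add (ancS₁ σ) 1) (some (Sum.inr (some (some p))))
    (fun i => Sum.inr i)) (hE.and (hE.allI fun i => expr_un hE _) (hE.allI fun i => hE.eq _ _))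

end expr

lemma expr_D3 (hE : IsClosed E) (Q : (letSig₁ σ).S) : E _ _ (D3 Q) := by
  rcases Q with _ | _ | p
  · exact hE.or (hE.or (expr_imA hE (ι := Fin 1 ⊕ Fin 2) _ _) (expr_imB hE _ _))
      (expr_imC hE _ _)
  · exact hE.eq (σ := add (ancS₁ σ) 1) (ι := Fin 1 ⊕ Fin 1) _ _
  · refine hE.or (hE.and (hE.rel (σ := add (ancS₁ σ) 1) (ι := Fin 1 ⊕ Fin (σ.ar p.1))
      (some (Sum.inl p.1)) (fun i => Sum.inr i)) (hE.allI fun i => ?_))
        (expr_mkB hE (ι := Fin 1 ⊕ Fin (σ.ar p.1)) p (fun i => Sum.inr i))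
    exact hE.iffC (expr_un hE (ι := Fin 1 ⊕ Fin (σ.ar p.1)) (Sum.inr i)) _

lemma end_iff₁ (𝔄 : Str (add (ancS₁ σ) 1) A) (t : Fin 1 → A) :
    End (anc₁ L) (red 𝔄) (un 𝔄) (t 0) ↔
      un 𝔄 (t 0) ∧ CSP (lettersB L) A (defStr D3 𝔄 t) := by
  classical
  constructor
  · rintro ⟨hx, h, hh, l, hlt, hl⟩
    refine ⟨hx, ?_⟩
    have hsome : ∀ u, un 𝔄 u → h u = some ((h u).getD l) := by
      intro u hu
      obtain ⟨k, hk⟩ := Option.ne_none_iff_exists'.1 ((hh.dom _).2 hu)
      rw [hk]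
      rfl
    -- the anchored constraints
    have hanc : ∀ (Q : (letSig₁ σ).S) (w : Fin ((letSig₁ σ).ar Q + 1) → A),
        𝔄.rel (some (Sum.inr Q)) w → un 𝔄 (w (Fin.last _)) →
        (¬ L.term ((h (w (Fin.last _))).getD l) → ∀ i, un 𝔄 (w (Fin.castSucc i)) →
          (h (w (Fin.castSucc i))).getD l = (h (w (Fin.last _))).getD l) ∧
        (L.term ((h (w (Fin.last _))).getD l) → (∀ i, un 𝔄 (w (Fin.castSucc i))) →
          (lettersB L).rel Q (fun i => (h (w (Fin.castSucc i))).getD l)) := by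
      intro Q w hw h1
      have h3 : ancPat₁ L.term ((lettersB L).rel Q) (fun i => h (w i)) := hh.ok (Sum.inr Q) w hw
      obtain ⟨h4, h5⟩ := h3 _ (hsome _ h1)
      exact ⟨fun h6 i hi => h4 h6 i _ (hsome _ hi), fun h6 h7 => h5 h6 _ (fun i => hsome _ (h7 i))⟩
    refine ⟨fun u => (h u).getD l, fun Q s hs => ?_⟩
    rcases Q with _ | _ | p
    · show ¬ L.term ((h (s (1 : Fin 2))).getD l) →
        (h (s (0 : Fin 2))).getD l = (h (s (1 : Fin 2))).getD l
      intro hne
      have hs' : (imA A 𝔄 (s (0 : Fin 2)) (s (1 : Fin 2)) ∨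
          imB A 𝔄 (s (0 : Fin 2)) (s (1 : Fin 2))) ∨ imC A 𝔄 (s (0 : Fin 2)) (s (1 : Fin 2)) := hs
      rcases hs' with (⟨Q, w, hw, h1, i, hi, hu, hb⟩ | ⟨w, hw, hW, hu, hb⟩) | ⟨w, hw, hW, hu, hb⟩
      · rw [hb] at hne
        rw [hu, hb]
        exact (hanc Q w hw h1).1 hne i hi
      · obtain ⟨h4, h5⟩ := hanc (some none) w hw (hW _)
        rw [hb] at hne
        rw [hu, hb]
        by_cases hz : L.term ((h (w 1)).getD l)
        · exact absurd (h5 hz (fun i => hW _)) hne
        · exact (h4 hz (0 : Fin 1) (hW _)).symm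
      · obtain ⟨h4, h5⟩ := hanc none w hw (hW _)
        rw [hb] at hne
        rw [hu, hb]
        by_cases hz : L.term ((h (w 2)).getD l)
        · have h6 : ¬ L.term ((h (w 1)).getD l) → (h (w 0)).getD l = (h (w 1)).getD l :=
            h5 hz (fun i => hW _)
          exact h6 hne
        · have h6 : (h (w 0)).getD l = (h (w 2)).getD l := h4 hz (0 : Fin 2) (hW _)
          have h7 : (h (w 1)).getD l = (h (w 2)).getD l := h4 hz (1 : Fin 2) (hW _)
          rw [h6, h7]
    · have h1 : s (0 : Fin 1) = t 0 := hs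
      show L.term ((h (s (0 : Fin 1))).getD l)
      rw [h1, hl]
      exact hlt
    · show L.pat p.1 (fun i => if p.2 i then some ((h (s i)).getD l) else none)
      rcases hs with ⟨h1, h2⟩ | ⟨w, hw, hW, hs'⟩
      · have := hh.ok (Sum.inl p.1) s h1
        have he : (fun i => if p.2 i then some ((h (s i)).getD l) else none) =
            fun i => h (s i) := by
          funext i
          have h3 : (p.2 i = true ↔ un 𝔄 (s i)) := h2 i
          by_cases hi : un 𝔄 (s i)
          · rw [if_pos (h3.2 hi), ← hsome _ hi]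
          · rw [if_neg (fun h' => hi (h3.1 h'))]
            by_contra hne
            exact hi ((hh.dom _).1 (fun h' => hne h'.symm))
        rw [he]
        exact this
      · have hsw : s = fun i => w (Fin.castSucc i) := by
          funext i
          exact hs' i
        obtain ⟨h4, h5⟩ := hanc (some (some p)) w hw (hW _)
        by_cases hz : L.term ((h (w (Fin.last (σ.ar p.1)))).getD l)
        · have h6 : L.pat p.1 (fun i => if p.2 i then some ((h (w (Fin.castSucc i))).getD l)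
            else none) := h5 hz (fun i => hW _)
          rw [hsw]
          exact h6
        · refine L.weaken _ _ _ (L.const p.1 _ hz) (fun i => ?_)
          have h6 : (h (w (Fin.castSucc i))).getD l = (h (w (Fin.last (σ.ar p.1)))).getD l :=
            h4 hz i (hW _)
          rw [hsw]
          by_cases hi : p.2 i = true
          · right
            simp only [hi, if_true]
            rw [h6]
          · left
            simp [hi]
  · rintro ⟨hx, h, hh⟩
    have hsome : ∀ (u : A) (a : Λ), (if un 𝔄 u then some (h u) else none) = some a →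
        un 𝔄 u ∧ a = h u := by
      intro u a hu
      by_cases hu' : un 𝔄 u
      · rw [if_pos hu'] at hu
        exact ⟨hu', (by simpa using hu.symm)⟩
      · rw [if_neg hu'] at hu
        exact absurd hu (by simp)
    refine ⟨hx, fun u => if un 𝔄 u then some (h u) else none, ⟨fun u => ?_, fun R s hs => ?_⟩,
      ?_⟩
    · by_cases hu : un 𝔄 u <;> simp [hu]
    · rcases R with R | Q
      · have := hh (some (some ⟨R, fun i => decide (un 𝔄 (s i))⟩)) s (Or.inl ⟨hs, fun i => by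
          show (decide (un 𝔄 (s i)) = true ↔ _)
          rw [decide_eq_true_iff]
          rfl⟩)
        have h2 : L.pat R (fun i => if decide (un 𝔄 (s i)) then some (h (s i)) else none) := this
        have h3 : L.pat R (fun i => if un 𝔄 (s i) then some (h (s i)) else none) := by
          simpa using h2
        exact h3
      · show ancPat₁ L.term ((lettersB L).rel Q)
          (fun i => if un 𝔄 (s i) then some (h (s i)) else none)
        intro a ha
        obtain ⟨hWa, rfl⟩ := hsome _ _ ha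
        refine ⟨?_, ?_⟩
        · intro hne i a' ha'
          obtain ⟨hWi, rfl⟩ := hsome _ _ ha'
          have := hh none (![s (Fin.castSucc i), s (Fin.last _)] :
            Fin 2 → A) (Or.inl (Or.inl ⟨Q, s, hs, hWa, i, hWi, rfl, rfl⟩))
          exact this hne
        · intro hta t' ht'
          have hW : ∀ i, un 𝔄 (s (Fin.castSucc i)) := fun i => (hsome _ _ (ht' i)).1
          have ht2 : t' = fun i => h (s (Fin.castSucc i)) := by
            funext i
            exact (hsome _ _ (ht' i)).2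
          have hall : ∀ i, un 𝔄 (s i) := by
            intro i
            exact Fin.lastCases hWa (fun j => hW j) i
          rw [ht2]
          rcases Q with _ | _ | p
          · exact hh none (![s (0 : Fin 3), s (1 : Fin 3)] : Fin 2 → A)
              (Or.inr ⟨s, hs, hall, rfl, rfl⟩)
          · show L.term (h (s (0 : Fin 2)))
            by_contra hcon
            have e1 : ¬ L.term (h (s (0 : Fin 2))) → h (s (1 : Fin 2)) = h (s (0 : Fin 2)) :=
              hh none (![s (1 : Fin 2), s (0 : Fin 2)] : Fin 2 → A)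
              (Or.inl (Or.inr ⟨s, hs, hall, rfl, rfl⟩))
            have e2 : L.term (h (s (1 : Fin 2))) := hta
            rw [e1 hcon] at e2
            exact hcon e2
          · exact hh (some (some p)) (fun i => s (Fin.castSucc i))
              (Or.inr ⟨s, hs, hall, fun i => rfl⟩)
    · have h2 : L.term (h (t 0)) := hh (some none) (fun _ : Fin 1 => t 0) rfl
      exact ⟨_, h2, by simp only [if_pos hx]⟩

lemma endE_anc (hE : IsClosed E) (h : InE E (CSP (lettersB L))) : EndE E (anc₁ L) := by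
  have h1 := hE.subst (hE.of_inE (ι := Fin 1) h) (fun Q => expr_D3 (σ := σ) hE Q)
  exact hE.congr (hE.and (expr_un hE 0) h1) (fun A _ _ 𝔄 t => end_iff₁ 𝔄 t)

end Pool.Agent.Work.MP_8dbde4_lc.HP
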