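import Pool.Agent.Work.MP_8dbde4_lc.HP.Anchor

/-!
# From the anchored expansion to the structure on the letters
-/

namespace Pool.Agent.Work.MP_8dbde4_lc.HP

open Pool.Agent.Work.MP_8dbde4_lc.TS

variable {E : (σ : Sig) → (ι : Type) → Query σ ι → Prop}
variable {σ : Sig} {Λ : Type} {L : Letters σ Λ} {c : ℚ → Λ} {A : Type}

/-- The instance of the anchored expansion: every constraint is anchored at every pair in the
relation different or terminal. -/
def back (𝔄 : Str (letSig σ) A) : Str (ancS σ) A where
  rel
    | .inl _ => fun _ => False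
    | .inr Q => fun w => 𝔄.rel Q (fun i => w (Fin.castAdd 2 i)) ∧
        𝔄.rel (some none) (fun i : Fin 2 => w (Fin.natAdd _ i))

lemma dec_back_of_csp (ht : ∃ t, L.term t) (𝔄 : Str (letSig σ) A)
    (h : CSP (letters L) A 𝔄) : Dec (anc L) (back 𝔄) (fun _ => True) := by
  classical
  obtain ⟨t₀, ht₀⟩ := ht
  obtain ⟨h, hh⟩ := h
  have hN : ∀ w : Fin 2 → A, 𝔄.rel (some none) w → h (w 0) ≠ h (w 1) ∨ L.term (h (w 0)) :=
    fun w hw => hh (some none) w hw
  refine Dec.cons _ (fun x => some (h x)) ⟨fun x => by simp, fun R w hw => ?_⟩ (fun k hk => ?_)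
  · rcases R with R | Q
    · exact absurd hw (fun h => h)
    · obtain ⟨h1, h2⟩ := hw
      show ancPat L.term ((letters L).rel Q) (fun i => some (h (w i)))
      intro a b ha hb
      have ha' : h (w (Fin.natAdd _ 0)) = a := by simpa using ha
      have hb' : h (w (Fin.natAdd _ 1)) = b := by simpa using hb
      subst ha' hb'
      have h3 := hN _ h2
      refine ⟨fun h4 => ?_, fun _ t ht => ?_⟩
      · rcases h3 with h3 | h3
        · exact absurd h4.1 h3
        · exact absurd h3 h4.2
      · have : t = fun i => h (w (Fin.castAdd 2 i)) := by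
          funext i
          have := ht i
          simpa using this.symm
        rw [this]
        exact hh Q _ h1
  · refine Dec.cons _ (fun x => if h x = k then some t₀ else none)
      ⟨fun x => ?_, fun R w hw => ?_⟩ (fun k' hk' => Dec.nil _ (fun x hx => ?_))
    · by_cases hx : h x = k <;> simp [hx]
    · rcases R with R | Q
      · exact absurd hw (fun h => h)
      · obtain ⟨h1, h2⟩ := hw
        show ancPat L.term ((letters L).rel Q) (fun i => if h (w i) = k then some t₀ else none)
        intro a b ha hb
        exfalso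
        have hif : ∀ (x : A) (d : Λ), (if h x = k then some t₀ else none) = some d → h x = k := by
          intro x d hd
          by_contra hne
          rw [if_neg hne] at hd
          exact absurd hd (by simp)
        have ha' : h (w (Fin.natAdd _ 0)) = k := hif _ _ ha
        have hb' : h (w (Fin.natAdd _ 1)) = k := hif _ _ hb
        rcases hN _ h2 with h3 | h3
        · exact h3 (ha'.trans hb'.symm)
        · exact hk (ha' ▸ h3)
    · by_cases hxk : h x = k
      · simp only [hxk, if_true] at hx
        have : t₀ = k' := by simpa using hx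
        exact hk' (this ▸ ht₀)
      · simp only [hxk, if_false] at hx
        exact absurd hx (by simp)

lemma csp_of_dec_back [Nonempty Λ] (𝔄 : Str (letSig σ) A) {W : A → Prop}
    (hW : Dec (anc L) (back 𝔄) W) :
    (∀ (Q : (letSig σ).S) (t : Fin ((letSig σ).ar Q) → A), 𝔄.rel Q t → ∀ i, W (t i)) →
    (∃ z : Fin 2 → A, 𝔄.rel (some none) z) → CSP (letters L) A 𝔄 := by
  classical
  induction hW with
  | nil W h =>
    rintro hact ⟨t, ht⟩
    exact absurd (hact (some none) t ht (0 : Fin 2)) (h _)
  | cons W h hs hk ih =>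
    rintro hact ⟨z, hz⟩
    obtain ⟨l⟩ := (inferInstance : Nonempty Λ)
    have hsome : ∀ u, W u → h u = some ((h u).getD l) := by
      intro u hu
      obtain ⟨k, hk⟩ := Option.ne_none_iff_exists'.1 ((hs.dom _).2 hu)
      rw [hk]
      rfl
    have hanc : ∀ (Q : (letSig σ).S) (t : Fin ((letSig σ).ar Q) → A), 𝔄.rel Q t →
        ((h (z 0)).getD l = (h (z 1)).getD l ∧ ¬ L.term ((h (z 0)).getD l) → ∀ i,
          (h (t i)).getD l = (h (z 0)).getD l) ∧
        (¬ ((h (z 0)).getD l = (h (z 1)).getD l ∧ ¬ L.term ((h (z 0)).getD l)) →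
          (letters L).rel Q (fun i => (h (t i)).getD l)) := by
      intro Q t ht
      have e1 : ∀ i, Fin.append t z (Fin.castAdd 2 i) = t i := fun i => Fin.append_left t z i
      have e2 : ∀ i, Fin.append t z (Fin.natAdd _ i) = z i := fun i => Fin.append_right t z i
      have h0 : (back 𝔄).rel (Sum.inr Q) (Fin.append t z) := by
        constructor
        · have : (fun i => Fin.append t z (Fin.castAdd 2 i)) = t := by
            funext i
            exact e1 i
          show 𝔄.rel Q (fun i => Fin.append t z (Fin.castAdd 2 i))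
          rw [this]
          exact ht
        · have h7 : ∀ y : Fin 2 → A, y = z → 𝔄.rel (some none) y := fun y hy => hy ▸ hz
          exact h7 _ (funext fun i => e2 i)
      have h3 : ancPat L.term ((letters L).rel Q)
          (fun i => h (Fin.append t z i)) := hs.ok (Sum.inr Q) _ h0
      have h6 := h3 ((h (z 0)).getD l) ((h (z 1)).getD l) (by
        show h (Fin.append t z (Fin.natAdd _ 0)) = _
        rw [e2]
        exact hsome _ (hact (some none) z hz (0 : Fin 2))) (by
        show h (Fin.append t z (Fin.natAdd _ 1)) = _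
        rw [e2]
        exact hsome _ (hact (some none) z hz (1 : Fin 2)))
      obtain ⟨h4, h5⟩ := h6
      refine ⟨fun h6 i => h4 h6 i _ ?_, fun h6 => h5 h6 _ (fun i => ?_)⟩
      · show h (Fin.append t z (Fin.castAdd 2 i)) = _
        rw [e1]
        exact hsome _ (hact Q t ht i)
      · show h (Fin.append t z (Fin.castAdd 2 i)) = _
        rw [e1]
        exact hsome _ (hact Q t ht i)
    by_cases hsame : ((h (z 0)).getD l = (h (z 1)).getD l ∧ ¬ L.term ((h (z 0)).getD l))
    · refine ih _ hsame.2 (fun Q t ht i => ?_) ⟨z, hz⟩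
      show h (t i) = some _
      rw [hsome _ (hact Q t ht i), (hanc Q t ht).1 hsame i]
    · exact ⟨fun u => (h u).getD l, fun Q t ht => (hanc Q t ht).2 hsame⟩

lemma csp_back [Finite A] (hc : ∀ q, ¬ L.term (c q)) (ht : ∃ t, L.term t)
    (𝔄 : Str (letSig σ) A) :
    CSP (tree (anc L) c) A (back 𝔄) ↔ CSP (letters L) A 𝔄 := by
  rw [csp_iff (L := anc L) hc]
  have : Nonempty Λ := ⟨c 0⟩
  refine ⟨fun h => ?_, dec_back_of_csp ht 𝔄⟩
  by_cases hN : ∃ t : Fin 2 → A, 𝔄.rel (some none) t
  · exact csp_of_dec_back 𝔄 h (fun _ _ _ _ => trivial) hN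
  · refine ⟨fun _ => c 0, fun Q t ht' => ?_⟩
    rcases Q with _ | _ | p
    · exact fun _ _ => rfl
    · exact absurd ⟨t, ht'⟩ hN
    · show L.pat p.1 (fun i => if p.2 i then some (c 0) else none)
      refine L.weaken _ _ _ (L.const p.1 _ (hc 0)) (fun i => ?_)
      by_cases hi : p.2 i = true
      · right
        simp [hi]
      · left
        simp [hi]

/-- the substitution -/
def backD : (R : (ancS σ).S) → Query (letSig σ) (Empty ⊕ Fin ((ancS σ).ar R))
  | .inl _ => fun _ _ _ => False
  | .inr Q => fun _ 𝔄 s => 𝔄.rel Q (fun i => s (Sum.inr (Fin.castAdd 2 i))) ∧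
        𝔄.rel (some none) (fun i : Fin 2 => s (Sum.inr (Fin.natAdd _ i)))

/-- **Fourth theorem.**  The reduction of the structure on the letters to the anchored
expansion. -/
theorem inE_back (hE : IsClosed E) (hc : ∀ q, ¬ L.term (c q)) (ht : ∃ t, L.term t)
    (h : InE E (CSP (tree (anc L) c))) : InE E (CSP (letters L)) := by
  have hD : ∀ R : (ancS σ).S, E _ _ (backD R) := by
    intro R
    rcases R with R | Q
    · exact hE.const False
    · exact hE.and (hE.rel (σ := letSig σ) Q (fun i => Sum.inr (Fin.castAdd 2 i)))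
        (hE.rel (σ := letSig σ) (some none) (fun i : Fin 2 => Sum.inr (Fin.natAdd _ i)))
  refine hE.congr (hE.subst (hE.of_inE (ι := Empty) h) hD) (fun A _ _ 𝔄 t => ?_)
  rw [← csp_back hc ht 𝔄]
  have : back 𝔄 = defStr backD 𝔄 t := by
    unfold back defStr
    congr 1
    funext R s
    rcases R with R | Q
    · rfl
    · rfl
  rw [this]

end Pool.Agent.Work.MP_8dbde4_lc.HP
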