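import Pool.Agent.Work.MP_8dbde4_lc.HP.Lev

/-!
# From the anchored expansion of a level language to its letters
-/

namespace Pool.Agent.Work.MP_8dbde4_lc.HP

open Pool.Agent.Work.MP_8dbde4_lc.TS

variable {E : (σ : Sig) → (ι : Type) → Query σ ι → Prop}
variable {σ : Sig} {Λ F : Type} {L : Letters σ Λ} {A : Type}

/-- The instance of the anchored expansion: every constraint is anchored at every element with
the constraint terminal. -/
def back₁ (𝔄 : Str (letSig₁ σ) A) : Str (ancS₁ σ) A where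
  rel
    | .inl _ => fun _ => False
    | .inr Q => fun w => 𝔄.rel Q (fun i => w (Fin.castSucc i)) ∧
        𝔄.rel (some none) (fun _ : Fin 1 => w (Fin.last _))

lemma dec_back₁_of_csp (ht : ∃ t, L.term t) (𝔄 : Str (letSig₁ σ) A)
    (h : CSP (lettersB L) A 𝔄) : Dec (anc₁ L) (back₁ 𝔄) (fun _ => True) := by
  classical
  obtain ⟨t₀, ht₀⟩ := ht
  obtain ⟨h, hh⟩ := h
  have hT : ∀ w : Fin 1 → A, 𝔄.rel (some none) w → L.term (h (w 0)) :=
    fun w hw => hh (some none) w hw
  refine Dec.cons _ (fun x => some (h x)) ⟨fun x => by simp, fun R w hw => ?_⟩ (fun k hk => ?_)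
  · rcases R with R | Q
    · exact absurd hw (fun h => h)
    · obtain ⟨h1, h2⟩ := hw
      show ancPat₁ L.term ((lettersB L).rel Q) (fun i => some (h (w i)))
      intro a ha
      have ha' : h (w (Fin.last _)) = a := by simpa using ha
      subst ha'
      refine ⟨fun h4 => absurd (hT _ h2) h4, fun _ t ht => ?_⟩
      have : t = fun i => h (w (Fin.castSucc i)) := by
        funext i
        have := ht i
        simpa using this.symm
      rw [this]
      exact hh Q _ h1
  · refine Dec.cons _ (fun x => if h x = k then some t₀ else none)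
      ⟨fun x => ?_, fun R w hw => ?_⟩ (fun k' hk' => Dec.nil _ (fun x hx => ?_))
    · by_cases hx : h x = k <;> simp [hx]
    · rcases R with R | Q
      · exact absurd hw (fun h => h)
      · obtain ⟨h1, h2⟩ := hw
        show ancPat₁ L.term ((lettersB L).rel Q) (fun i => if h (w i) = k then some t₀ else none)
        intro a ha
        exfalso
        have hif : ∀ (x : A) (d : Λ), (if h x = k then some t₀ else none) = some d → h x = k := by
          intro x d hd
          by_contra hne
          rw [if_neg hne] at hd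
          exact absurd hd (by simp)
        have hw' : h (w (Fin.last _)) = k := hif _ _ ha
        exact hk (hw' ▸ hT _ h2)
    · by_cases hxk : h x = k
      · simp only [hxk, if_true] at hx
        have : t₀ = k' := by simpa using hx
        exact hk' (this ▸ ht₀)
      · simp only [hxk, if_false] at hx
        exact absurd hx (by simp)

lemma csp_of_dec_back₁ [Nonempty Λ] (𝔄 : Str (letSig₁ σ) A) {W : A → Prop}
    (hW : Dec (anc₁ L) (back₁ 𝔄) W) :
    (∀ (Q : (letSig₁ σ).S) (t : Fin ((letSig₁ σ).ar Q) → A), 𝔄.rel Q t → ∀ i, W (t i)) →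
    (∃ z : Fin 1 → A, 𝔄.rel (some none) z) → CSP (lettersB L) A 𝔄 := by
  classical
  induction hW with
  | nil W h =>
    rintro hact ⟨t, ht⟩
    exact absurd (hact (some none) t ht (0 : Fin 1)) (h _)
  | cons W h hs hk ih =>
    rintro hact ⟨z, hz⟩
    obtain ⟨l⟩ := (inferInstance : Nonempty Λ)
    have hsome : ∀ u, W u → h u = some ((h u).getD l) := by
      intro u hu
      obtain ⟨k, hk⟩ := Option.ne_none_iff_exists'.1 ((hs.dom _).2 hu)
      rw [hk]
      rfl
    have hanc : ∀ (Q : (letSig₁ σ).S) (t : Fin ((letSig₁ σ).ar Q) → A), 𝔄.rel Q t →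
        (¬ L.term ((h (z 0)).getD l) → ∀ i, (h (t i)).getD l = (h (z 0)).getD l) ∧
        (L.term ((h (z 0)).getD l) → (lettersB L).rel Q (fun i => (h (t i)).getD l)) := by
      intro Q t ht
      have e1 : ∀ i, (Fin.snoc (α := fun _ => A) t (z 0) : Fin ((letSig₁ σ).ar Q + 1) → A)
          (Fin.castSucc i) = t i := fun i => Fin.snoc_castSucc (α := fun _ => A) _ _ _
      have e2 : (Fin.snoc (α := fun _ => A) t (z 0) : Fin ((letSig₁ σ).ar Q + 1) → A)
          (Fin.last _) = z 0 := Fin.snoc_last (α := fun _ => A) _ _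
      have h0 : (back₁ 𝔄).rel (Sum.inr Q) (Fin.snoc (α := fun _ => A) t (z 0)) := by
        constructor
        · have h7 : ∀ y : Fin ((letSig₁ σ).ar Q) → A, y = t → 𝔄.rel Q y := fun y hy => hy ▸ ht
          exact h7 _ (funext fun i => e1 i)
        · have h7 : ∀ y : Fin 1 → A, y = z → 𝔄.rel (some none) y := fun y hy => hy ▸ hz
          refine h7 _ (funext fun i => ?_)
          rw [Subsingleton.elim i 0]
          exact e2
      have h3 : ancPat₁ L.term ((lettersB L).rel Q)
          (fun i => h ((Fin.snoc (α := fun _ => A) t (z 0) : Fin ((letSig₁ σ).ar Q + 1) → A) i)) :=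
        hs.ok (Sum.inr Q) _ h0
      have h6 := h3 ((h (z 0)).getD l) (by
        show h ((Fin.snoc (α := fun _ => A) t (z 0) : Fin ((letSig₁ σ).ar Q + 1) → A)
          (Fin.last _)) = _
        rw [e2]
        exact hsome _ (hact (some none) z hz (0 : Fin 1)))
      obtain ⟨h4, h5⟩ := h6
      refine ⟨fun h6 i => h4 h6 i _ ?_, fun h6 => h5 h6 _ (fun i => ?_)⟩
      · show h ((Fin.snoc (α := fun _ => A) t (z 0) : Fin ((letSig₁ σ).ar Q + 1) → A)
          (Fin.castSucc i)) = _
        rw [e1]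
        exact hsome _ (hact Q t ht i)
      · show h ((Fin.snoc (α := fun _ => A) t (z 0) : Fin ((letSig₁ σ).ar Q + 1) → A)
          (Fin.castSucc i)) = _
        rw [e1]
        exact hsome _ (hact Q t ht i)
    by_cases hz' : L.term ((h (z 0)).getD l)
    · exact ⟨fun u => (h u).getD l, fun Q t ht => (hanc Q t ht).2 hz'⟩
    · refine ih _ hz' (fun Q t ht i => ?_) ⟨z, hz⟩
      show h (t i) = some _
      rw [hsome _ (hact Q t ht i), (hanc Q t ht).1 hz' i]

lemma csp_back₁ (hk : ∃ k, ¬ L.term k) (ht : ∃ t, L.term t) (𝔄 : Str (letSig₁ σ) A) :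
    Dec (anc₁ L) (back₁ 𝔄) (fun _ => True) ↔ CSP (lettersB L) A 𝔄 := by
  obtain ⟨k, hk⟩ := hk
  have : Nonempty Λ := ⟨k⟩
  refine ⟨fun h => ?_, dec_back₁_of_csp ht 𝔄⟩
  by_cases hT : ∃ t : Fin 1 → A, 𝔄.rel (some none) t
  · exact csp_of_dec_back₁ 𝔄 h (fun _ _ _ _ => trivial) hT
  · refine ⟨fun _ => k, fun Q t ht' => ?_⟩
    rcases Q with _ | _ | p
    · exact fun _ => rfl
    · exact absurd ⟨t, ht'⟩ hT
    · show L.pat p.1 (fun i => if p.2 i then some k else none)
      refine L.weaken _ _ _ (L.const p.1 _ hk) (fun i => ?_)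
      by_cases hi : p.2 i = true
      · right
        simp [hi]
      · left
        simp [hi]

/-- the substitution -/
def backD₁ : (R : (ancS₁ σ).S) → Query (letSig₁ σ) (Empty ⊕ Fin ((ancS₁ σ).ar R))
  | .inl _ => fun _ _ _ => False
  | .inr Q => fun _ 𝔄 s => 𝔄.rel Q (fun i => s (Sum.inr (Fin.castSucc i))) ∧
        𝔄.rel (some none) (fun _ : Fin 1 => s (Sum.inr (Fin.last _)))

/-- The reduction of the structure on the letters to the anchored expansion. -/
theorem inE_back₁ (hE : IsClosed E) (hk : ∃ k, ¬ L.term k) (ht : ∃ t, L.term t)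
    (h : InE E (fun A 𝔄 => Dec (anc₁ L) 𝔄 (fun _ : A => True))) : InE E (CSP (lettersB L)) := by
  have hD : ∀ R : (ancS₁ σ).S, E _ _ (backD₁ R) := by
    intro R
    rcases R with R | Q
    · exact hE.const False
    · exact hE.and (hE.rel (σ := letSig₁ σ) Q (fun i => Sum.inr (Fin.castSucc i)))
        (hE.rel (σ := letSig₁ σ) (some none) (fun _ : Fin 1 => Sum.inr (Fin.last _)))
  refine hE.congr (hE.subst (hE.of_inE (ι := Empty) h) hD) (fun A _ _ 𝔄 t => ?_)
  rw [← csp_back₁ hk ht 𝔄]
  have : back₁ 𝔄 = defStr backD₁ 𝔄 t := by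
    apply str_ext
    intro R s
    rcases R with R | Q
    · exact Iff.rfl
    · exact Iff.rfl
  rw [this]

/-- **Level languages.** -/
theorem inE_level (hE : IsClosed E) {𝔅 : Str σ (ℚ × F)} (h : IsLevel 𝔅)
    (h0 : InE E (CSP (levLetters₀ 𝔅))) : InE E (CSP 𝔅) := by
  have h1 : EndE E (lv 𝔅 h.nonempty) := endE_of hE (by rw [lettersA_lv]; exact h0)
  have h2 := inE_levStr hE (L := lv 𝔅 h.nonempty) (fun x => Iff.rfl) h1
  rwa [levStr_eq h] at h2

/-- **Anchored expansions of level languages.** -/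
theorem inE_anchor [Nonempty F] (hE : IsClosed E) {𝔅 : Str σ (ℚ × F)} (h : IsLevel 𝔅) :
    InE E (CSP (anchor 𝔅 (levLetters 𝔅))) ↔ InE E (CSP (levLetters 𝔅)) := by
  rw [← anchor_eq h, ← lettersB_lv 𝔅 h.nonempty]
  constructor
  · intro h1
    obtain ⟨f⟩ := (inferInstance : Nonempty F)
    exact inE_back₁ hE ⟨none, fun h => h rfl⟩ ⟨some f, by simp [lv]⟩
      (hE.congr h1 (fun _ _ _ _ _ => (csp_lev (fun x => Iff.rfl)).symm))
  · intro h1
    exact inE_levStr hE (L := anc₁ (lv 𝔅 h.nonempty)) (fun x => Iff.rfl) (endE_anc hE h1)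

end Pool.Agent.Work.MP_8dbde4_lc.HP
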