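import Pool.Agent.Work.MP_8dbde4_lc.HP.Defs

/-!
# Decompositions into steps, and the canonical refinement
-/

namespace Pool.Agent.Work.MP_8dbde4_lc.HP

open Pool.Agent.Work.MP_8dbde4_lc.TS

variable {σ : Sig} {Λ : Type} (L : Letters σ Λ) {A : Type} (𝔄 : Str σ A)

/-- A step on the set `W`: every element of `W` gets a letter. -/
structure IsStep (W : A → Prop) (h : A → Option Λ) : Prop where
  dom : ∀ x, h x ≠ none ↔ W x
  ok : ∀ R t, 𝔄.rel R t → L.pat R (fun i => h (t i))

/-- Decomposable sets. -/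
inductive Dec : (A → Prop) → Prop
  | nil (W : A → Prop) (h : ∀ x, ¬ W x) : Dec W
  | cons (W : A → Prop) (h : A → Option Λ) (hs : IsStep L 𝔄 W h)
      (hk : ∀ k, ¬ L.term k → Dec (fun x => h x = some k)) : Dec W

/-- Some step on `W` separates `x` from `y` or ends `x`. -/
def Sep (W : A → Prop) (x y : A) : Prop :=
  W x ∧ W y ∧ ∃ h, IsStep L 𝔄 W h ∧ (h x ≠ h y ∨ ∃ t, L.term t ∧ h x = some t)

open Classical in
/-- restriction of a step -/
noncomputable def res (W : A → Prop) (h : A → Option Λ) (x : A) : Option Λ :=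
  if W x then h x else none

variable {L 𝔄}

lemma res_pos {W : A → Prop} {h : A → Option Λ} {x : A} (hx : W x) : res W h x = h x := by
  simp [res, hx]

lemma res_neg {W : A → Prop} {h : A → Option Λ} {x : A} (hx : ¬ W x) : res W h x = none := by
  simp [res, hx]

lemma res_or (W : A → Prop) (h : A → Option Λ) (x : A) : res W h x = none ∨ res W h x = h x := by
  by_cases hx : W x
  · exact Or.inr (res_pos hx)
  · exact Or.inl (res_neg hx)

lemma IsStep.restrict {W W' : A → Prop} {h : A → Option Λ} (hs : IsStep L 𝔄 W h)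
    (hW : ∀ x, W' x → W x) : IsStep L 𝔄 W' (res W' h) where
  dom x := by
    by_cases hx : W' x
    · rw [res_pos hx]
      simp [hx, (hs.dom x).2 (hW x hx)]
    · rw [res_neg hx]
      simp [hx]
  ok R t ht := L.weaken R _ _ (hs.ok R t ht) (fun i => res_or _ _ _)

lemma res_res {W W' : A → Prop} {h : A → Option Λ} (hW : ∀ x, W' x → W x) :
    res W' (res W h) = res W' h := by
  funext x
  by_cases hx : W' x
  · rw [res_pos hx, res_pos (hW x hx), res_pos hx]
  · rw [res_neg hx, res_neg hx]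

lemma Dec.mono {W : A → Prop} (hW : Dec L 𝔄 W) : ∀ {W' : A → Prop}, (∀ x, W' x → W x) →
    Dec L 𝔄 W' := by
  induction hW with
  | nil W h => exact fun {W'} hW' => Dec.nil W' (fun x hx => h x (hW' x hx))
  | cons W h hs hk ih =>
    intro W' hW'
    refine Dec.cons W' (res W' h) (hs.restrict hW') (fun k hkt => ih k hkt ?_)
    intro x hx
    by_cases hx' : W' x
    · rwa [res_pos hx'] at hx
    · rw [res_neg hx'] at hx
      exact absurd hx (by simp)

/-- All steps of a list can be applied one after the other. -/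
lemma refine_list : ∀ (hs : List (A → Option Λ)) (W : A → Prop),
    (∀ h ∈ hs, IsStep L 𝔄 W (res W h)) →
    (∀ v, W v → (∀ h ∈ hs, ∀ t, h v = some t → ¬ L.term t) →
      Dec L 𝔄 (fun y => W y ∧ ∀ h ∈ hs, h y = h v)) → Dec L 𝔄 W
  | [], W, _, hc => by
    by_cases hne : ∃ v, W v
    · obtain ⟨v, hv⟩ := hne
      exact (hc v hv (by simp)).mono (fun x hx => ⟨hx, by simp⟩)
    · exact Dec.nil W (fun x hx => hne ⟨x, hx⟩)
  | h :: hs, W, hst, hc => by
    refine Dec.cons W (res W h) (hst h List.mem_cons_self) (fun k hk => ?_)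
    have hF : ∀ x, res W h x = some k → W x ∧ h x = some k := by
      intro x hx
      by_cases hx' : W x
      · rw [res_pos hx'] at hx
        exact ⟨hx', hx⟩
      · rw [res_neg hx'] at hx
        exact absurd hx (by simp)
    refine refine_list hs _ (fun h' hh' => ?_) (fun v hv hv' => ?_)
    · have := (hst h' (List.mem_cons_of_mem _ hh')).restrict (W' := fun x => res W h x = some k)
        (fun x hx => (hF x hx).1)
      rwa [res_res (fun x hx => (hF x hx).1)] at this
    · obtain ⟨hv1, hv2⟩ := hF v hv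
      refine (hc v hv1 ?_).mono (fun x hx => ?_)
      · intro h' hh' t ht
        rcases List.mem_cons.1 hh' with rfl | hh'
        · rw [hv2] at ht
          have : k = t := by simpa using ht
          rwa [← this]
        · exact hv' h' hh' t ht
      · obtain ⟨hx1, hx2⟩ := hx
        obtain ⟨hx3, hx4⟩ := hF x hx1
        refine ⟨hx3, fun h' hh' => ?_⟩
        rcases List.mem_cons.1 hh' with rfl | hh'
        · rw [hx4, hv2]
        · exact hx2 h' hh'

/-- A class is decomposable if the classes into which it is split by all steps are. -/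
lemma refine_all [Finite A] {W : A → Prop}
    (hc : ∀ v, W v → Dec L 𝔄 (fun y => W y ∧ ¬ Sep L 𝔄 W v y)) : Dec L 𝔄 W := by
  classical
  have := Fintype.ofFinite A
  have hch : ∀ p : A × A, ∃ h : A → Option Λ, Sep L 𝔄 W p.1 p.2 →
      IsStep L 𝔄 W h ∧ (h p.1 ≠ h p.2 ∨ ∃ t, L.term t ∧ h p.1 = some t) := by
    intro p
    by_cases hp : Sep L 𝔄 W p.1 p.2
    · obtain ⟨_, _, h, hh⟩ := hp
      exact ⟨h, fun _ => hh⟩
    · exact ⟨fun _ => none, fun h => absurd h hp⟩
  choose H hH using hch
  have hr : ∀ h, IsStep L 𝔄 W h → res W h = h := by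
    intro h hh
    funext x
    by_cases hx : W x
    · exact res_pos hx
    · rw [res_neg hx]
      by_contra hne
      exact hx ((hh.dom x).1 (fun h' => hne h'.symm))
  refine refine_list (((Finset.univ : Finset (A × A)).filter
    (fun p => Sep L 𝔄 W p.1 p.2)).toList.map H) W (fun h hh => ?_) (fun v hv hv' => ?_)
  · obtain ⟨p, hp, rfl⟩ := List.mem_map.1 hh
    have hp' : Sep L 𝔄 W p.1 p.2 := by simpa using hp
    rw [hr _ (hH p hp').1]
    exact (hH p hp').1
  · refine (hc v hv).mono (fun x hx => ⟨hx.1, fun hsep => ?_⟩)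
    have hmem : H (v, x) ∈ (((Finset.univ : Finset (A × A)).filter
        (fun p => Sep L 𝔄 W p.1 p.2)).toList.map H) :=
      List.mem_map.2 ⟨(v, x), by simpa using hsep, rfl⟩
    rcases (hH (v, x) hsep).2 with h1 | ⟨t, ht, h1⟩
    · exact h1 (hx.2 _ hmem).symm
    · exact hv' _ hmem t h1 ht

variable (L 𝔄)

/-- The stages of the canonical refinement: `Xs n x y` says that `x` and `y` are separated or `x`
is finished after `n` rounds. -/
def Xs : ℕ → A → A → Prop
  | 0 => fun _ _ => False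
  | n + 1 => fun x y => Xs n x y ∨ Sep L 𝔄 (fun v => ¬ Xs n x v) x y

variable {L 𝔄}

lemma Xs_mono {m n : ℕ} (h : m ≤ n) {x y : A} (hx : Xs L 𝔄 m x y) : Xs L 𝔄 n x y := by
  induction h with
  | refl => exact hx
  | step _ ih => exact Or.inl ih

/-- the classes are well-defined -/
lemma Xs_class : ∀ (n : ℕ) {x y : A}, ¬ Xs L 𝔄 n x y →
    (∀ z, Xs L 𝔄 n x z ↔ Xs L 𝔄 n y z) ∧ ¬ Xs L 𝔄 n x x
  | 0, _, _, _ => ⟨fun _ => Iff.rfl, fun h => h⟩
  | n + 1, x, y, h => by
    have h1 : ¬ Xs L 𝔄 n x y := fun h' => h (Or.inl h')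
    have h2 : ¬ Sep L 𝔄 (fun v => ¬ Xs L 𝔄 n x v) x y := fun h' => h (Or.inr h')
    obtain ⟨h3, h4⟩ := Xs_class n h1
    have hW : (fun v => ¬ Xs L 𝔄 n x v) = (fun v => ¬ Xs L 𝔄 n y v) := by
      funext v
      exact propext (not_congr (h3 v))
    have hy : ¬ Xs L 𝔄 n y y := fun h' => h1 ((h3 y).2 h')
    have key : ∀ h, IsStep L 𝔄 (fun v => ¬ Xs L 𝔄 n x v) h →
        h x = h y ∧ ∀ t, L.term t → h x ≠ some t := by
      intro h hh
      constructor
      · by_contra hne
        exact h2 ⟨h4, h1, h, hh, Or.inl hne⟩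
      · intro t ht he
        exact h2 ⟨h4, h1, h, hh, Or.inr ⟨t, ht, he⟩⟩
    refine ⟨fun z => ?_, ?_⟩
    · show (Xs L 𝔄 n x z ∨ Sep L 𝔄 (fun v => ¬ Xs L 𝔄 n x v) x z) ↔
        (Xs L 𝔄 n y z ∨ Sep L 𝔄 (fun v => ¬ Xs L 𝔄 n y v) y z)
      rw [← hW, h3 z]
      refine or_congr Iff.rfl ?_
      unfold Sep
      constructor
      · rintro ⟨_, hz, h, hh, hd⟩
        refine ⟨h1, hz, h, hh, ?_⟩
        rwa [(key h hh).1] at hd
      · rintro ⟨_, hz, h, hh, hd⟩
        refine ⟨h4, hz, h, hh, ?_⟩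
        rwa [(key h hh).1]
    · rintro (h5 | ⟨_, _, h, hh, hd | ⟨t, ht, hd⟩⟩)
      · exact h4 h5
      · exact hd rfl
      · exact (key h hh).2 t ht hd

/-- a nonempty decomposable set has a nontrivial step -/
lemma Dec.exists_step {W : A → Prop} (hW : Dec L 𝔄 W) : ∀ x, W x →
    ∃ y, W y ∧ Sep L 𝔄 W x y := by
  induction hW with
  | nil W h => exact fun x hx => absurd hx (h x)
  | cons W h hs hk ih =>
    intro x hx
    by_cases h1 : ∃ y, W y ∧ h x ≠ h y
    · obtain ⟨y, hy, hne⟩ := h1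
      exact ⟨y, hy, hx, hy, h, hs, Or.inl hne⟩
    · obtain ⟨k, hk'⟩ := Option.ne_none_iff_exists'.1 ((hs.dom x).2 hx)
      by_cases hkt : L.term k
      · exact ⟨x, hx, hx, hx, h, hs, Or.inr ⟨k, hkt, hk'⟩⟩
      · have hWeq : (fun x => h x = some k) = W := by
          funext y
          apply propext
          constructor
          · intro hy
            exact (hs.dom y).1 (by rw [hy]; simp)
          · intro hy
            by_contra hne
            exact h1 ⟨y, hy, fun h2 => hne (by rw [← h2, hk'])⟩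
        have := ih k hkt x hk'
        rwa [hWeq] at this

/-- the stages become stationary -/
lemma exists_stat [Finite A] : ∃ n, ∀ x y, Xs L 𝔄 (n + 1) x y → Xs L 𝔄 n x y := by
  classical
  by_contra hcon
  push Not at hcon
  have key : ∀ n, n ≤ {p : A × A | Xs L 𝔄 n p.1 p.2}.ncard := by
    intro n
    induction n with
    | zero => exact Nat.zero_le _
    | succ n ih =>
      obtain ⟨x, y, h1, h2⟩ := hcon n
      have : {p : A × A | Xs L 𝔄 n p.1 p.2} ⊂ {p : A × A | Xs L 𝔄 (n + 1) p.1 p.2} := by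
        refine ⟨fun p hp => Xs_mono (Nat.le_succ n) hp, fun hsub => h2 ?_⟩
        exact hsub (show (x, y) ∈ {p : A × A | Xs L 𝔄 (n + 1) p.1 p.2} from h1)
      have := Set.ncard_lt_ncard this (Set.toFinite _)
      omega
  have h1 := key (Nat.card (A × A) + 1)
  have h2 : {p : A × A | Xs L 𝔄 (Nat.card (A × A) + 1) p.1 p.2}.ncard ≤ Nat.card (A × A) := by
    rw [← Set.ncard_univ]
    exact Set.ncard_le_ncard (Set.subset_univ _) (Set.toFinite _)
  omega

/-- The canonical refinement decides decomposability. -/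
theorem dec_iff [Finite A] : Dec L 𝔄 (fun _ => True) ↔ ∀ x, ∃ n, Xs L 𝔄 n x x := by
  constructor
  · intro hD x
    by_contra hx
    push Not at hx
    obtain ⟨n, hn⟩ := exists_stat (L := L) (𝔄 := 𝔄)
    obtain ⟨y, hy, hsep⟩ := (hD.mono (W' := fun v => ¬ Xs L 𝔄 n x v)
      (fun _ _ => trivial)).exists_step x (hx n)
    exact hy (hn x y (Or.inr hsep))
  · intro h
    choose N hN using h
    obtain ⟨M, hM⟩ : ∃ M, ∀ x, N x ≤ M := by
      obtain ⟨M, hM⟩ := (Set.finite_range N).bddAbove
      exact ⟨M, fun x => hM ⟨x, rfl⟩⟩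
    have key : ∀ m, m ≤ M → ∀ x, ¬ Xs L 𝔄 (M - m) x x → Dec L 𝔄 (fun v => ¬ Xs L 𝔄 (M - m) x v) := by
      intro m
      induction m with
      | zero =>
        intro _ x hx
        exact absurd (Xs_mono (hM x) (hN x)) hx
      | succ m ih =>
        intro hm x hx
        have e : M - m = (M - (m + 1)) + 1 := by omega
        apply refine_all
        intro v hv
        obtain ⟨h1, _⟩ := Xs_class _ hv
        have hvv : ¬ Xs L 𝔄 (M - (m + 1)) v v := fun h' => hv ((h1 v).2 h')
        have hW : (fun y => ¬ Xs L 𝔄 (M - (m + 1)) x y) = (fun y => ¬ Xs L 𝔄 (M - (m + 1)) v y) := by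
          funext y
          exact propext (not_congr (h1 y))
        rw [hW]
        by_cases hvs : Xs L 𝔄 (M - m) v v
        · refine Dec.nil _ (fun y hy => ?_)
          rw [e] at hvs
          rcases hvs with h3 | ⟨_, _, h, hh, h4 | ⟨t, ht, h4⟩⟩
          · exact hvv h3
          · exact h4 rfl
          · exact hy.2 ⟨hvv, fun h5 => hy.1 ((h1 y).2 h5), h, hh, Or.inr ⟨t, ht, h4⟩⟩
        · refine (ih (by omega) v hvs).mono (fun y hy => ?_)
          rw [e]
          rintro (h3 | h3)
          · exact hy.1 ((h1 y).2 h3)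
          · exact hy.2 h3
    by_cases hne : Nonempty A
    · obtain ⟨x⟩ := hne
      have := key M le_rfl x
      simp only [Nat.sub_self] at this
      exact (this (fun h => h)).mono (fun y _ => fun h => h)
    · exact Dec.nil _ (fun x _ => hne ⟨x⟩)

end Pool.Agent.Work.MP_8dbde4_lc.HP
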