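import Pool.Agent.Work.MP_8dbde4_lc.TS.Defs

/-!
# Hierarchical powers: templates on trees of words
-/

namespace Pool.Agent.Work.MP_8dbde4_lc.HP

open Pool.Agent.Work.MP_8dbde4_lc.TS

/-- A system of letters.  Some letters are terminal, the others are continuing.  For each relation
symbol there is a set of allowed patterns; `none` at a coordinate means that the coordinate does
not take part.  Forgetting coordinates keeps a pattern allowed, and the patterns in which all
coordinates show the same continuing letter are allowed. -/
structure Letters (σ : Sig) (Λ : Type) where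
  term : Λ → Prop
  pat : (R : σ.S) → (Fin (σ.ar R) → Option Λ) → Prop
  weaken : ∀ R p p', pat R p → (∀ i, p' i = none ∨ p' i = p i) → pat R p'
  const : ∀ R k, ¬ term k → pat R (fun _ => some k)

/-- `w` is a word: it ends, at some level `q`, with a terminal letter, it shows continuing letters
at all the levels below `q`, and all but finitely many of these are given by the default
colouring `c` of the levels. -/
def IsWord {σ : Sig} {Λ : Type} (L : Letters σ Λ) (c : ℚ → Λ) (w : ℚ → Option Λ) : Prop :=
  ∃ q : ℚ, (∃ t, L.term t ∧ w q = some t) ∧ (∀ r, q < r → w r = none) ∧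
    (∀ r, r < q → ∃ k, ¬ L.term k ∧ w r = some k) ∧ {r | r < q ∧ w r ≠ some (c r)}.Finite

/-- The set of words. -/
def Word {σ : Sig} {Λ : Type} (L : Letters σ Λ) (c : ℚ → Λ) : Type :=
  {w : ℚ → Option Λ // IsWord L c w}

open Classical in
/-- The pattern of a tuple of words at level `q`, as seen from its `j`-th member: the words which
agree with the `j`-th one at all levels below `q` show their letters at level `q`, the other
ones do not take part. -/
noncomputable def patAt {Λ : Type} {n : ℕ} (w : Fin n → ℚ → Option Λ) (q : ℚ) (j i : Fin n) :
    Option Λ :=
  if ∀ r, r < q → w i r = w j r then w i q else none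

/-- The hierarchical power of a system of letters: a tuple of words is in the relation `R` if
all its patterns are allowed for `R`. -/
def tree {σ : Sig} {Λ : Type} (L : Letters σ Λ) (c : ℚ → Λ) : Str σ (Word L c) where
  rel R w := ∀ (q : ℚ) (j : Fin (σ.ar R)), L.pat R (patAt (fun i => (w i).1) q j)

/-- The signature `σ` with one more relation symbol, of arity `n`. -/
def add (σ : Sig) (n : ℕ) : Sig where
  S := Option σ.S
  fin := inferInstance
  ar R := R.elim n σ.ar

/-- The expansion of `𝔄` by the relation `X`. -/
def adds {σ : Sig} {A : Type} {n : ℕ} (𝔄 : Str σ A) (X : (Fin n → A) → Prop) :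
    Str (add σ n) A where
  rel
    | none => fun t => X t
    | some R => fun t => 𝔄.rel R t

/-- The signature which has, for each relation symbol `R` of `σ` and each set `s` of coordinates
of `R`, a symbol of the same arity. -/
def markSig (σ : Sig) : Sig where
  S := (R : σ.S) × (Fin (σ.ar R) → Bool)
  fin := inferInstance
  ar p := σ.ar p.1

/-- The relation with the symbol `(R, s)` says that the letters at the coordinates in `s` are
an allowed pattern for `R`. -/
def marks {σ : Sig} {Λ : Type} (L : Letters σ Λ) : Str (markSig σ) Λ where
  rel p t := L.pat p.1 (fun i => if p.2 i then some (t i) else none)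

/-- The basic structure on the letters: the allowed patterns, and the binary relation
different or terminal. -/
def letters₀ {σ : Sig} {Λ : Type} (L : Letters σ Λ) : Str (add (markSig σ) 2) Λ :=
  adds (marks L) (fun t : Fin 2 → Λ => t 0 ≠ t 1 ∨ L.term (t 0))

/-- The structure on the letters: the allowed patterns, the binary relation
different or terminal, and the ternary relation `y = z` continuing implies `x = y`. -/
def letters {σ : Sig} {Λ : Type} (L : Letters σ Λ) : Str (add (add (markSig σ) 2) 3) Λ :=
  adds (letters₀ L) (fun t : Fin 3 → Λ => t 1 = t 2 → ¬ L.term (t 1) → t 0 = t 1)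

/-- The signature with the symbols of `σ` and, for each symbol `Q` of `μ`, a symbol of
arity `ar Q + 2`. -/
def ancSig (σ μ : Sig) : Sig where
  S := σ.S ⊕ μ.S
  fin := inferInstance
  ar := Sum.elim σ.ar (fun Q => μ.ar Q + 2)

/-- The allowed patterns of the anchored relation `Q(x₁, ..., xₙ; z₁, z₂)`: if the
anchors `z₁`, `z₂` take part and show the same continuing letter, then all `xᵢ` which take part
show this letter too; if the anchors take part and show different letters or the same
terminal letter, and all `xᵢ` take part, then their letters are in the relation `Q`. -/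
def ancPat {Λ : Type} (term : Λ → Prop) {n : ℕ} (Q : (Fin n → Λ) → Prop)
    (p : Fin (n + 2) → Option Λ) : Prop :=
  ∀ a b, p (Fin.natAdd n 0) = some a → p (Fin.natAdd n 1) = some b →
    ((a = b ∧ ¬ term a) → ∀ i a', p (Fin.castAdd 2 i) = some a' → a' = a) ∧
    (¬ (a = b ∧ ¬ term a) → ∀ t : Fin n → Λ, (∀ i, p (Fin.castAdd 2 i) = some (t i)) → Q t)

/-- The expansion of the system of letters by the anchored versions of the relations of a
structure `𝔐` on the letters. -/
def anchored {σ μ : Sig} {Λ : Type} (L : Letters σ Λ) (𝔐 : Str μ Λ) : Letters (ancSig σ μ) Λ where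
  term := L.term
  pat
    | .inl R => L.pat R
    | .inr Q => fun p => ancPat L.term (𝔐.rel Q) p
  weaken R p p' hp h := by
    rcases R with R | Q
    · exact L.weaken R p p' hp h
    · intro a b ha hb
      have h' : ∀ i x, p' i = some x → p i = some x := by
        intro i x hx
        rcases h i with h1 | h1
        · rw [h1] at hx
          exact absurd hx (by simp)
        · rw [← h1]
          exact hx
      obtain ⟨h1, h2⟩ := hp a b (h' _ _ ha) (h' _ _ hb)
      exact ⟨fun h3 i a' h4 => h1 h3 i a' (h' _ _ h4),
        fun h3 t ht => h2 h3 t (fun i => h' _ _ (ht i))⟩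
  const R k hk := by
    rcases R with R | Q
    · exact L.const R k hk
    · intro a b ha hb
      have h1 : k = a := by simpa using ha
      have h2 : k = b := by simpa using hb
      subst h1 h2
      refine ⟨fun _ i a' h3 => ?_, fun h3 => absurd ⟨rfl, hk⟩ h3⟩
      have : k = a' := by simpa using h3
      exact this.symm

end Pool.Agent.Work.MP_8dbde4_lc.HP
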