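import Pool.Agent.Work.MP_8dbde4_lc.TS.Sub
import Pool.Agent.Work.MP_8dbde4_lc.HP.Logic

/-!
# FPC, with or without an order, is a closed logic
-/

namespace Pool.Agent.Work.MP_8dbde4_lc.HP

open Pool.Agent.Work.MP_8dbde4_lc.TS

namespace C

variable {σ σ' : Sig} {A : Type} {ι κ : Type}

def tt : FPC σ := .eq 0 0

def bigAnd : List (FPC σ) → FPC σ
  | [] => tt
  | φ :: l => .and φ (bigAnd l)

/-- Block of quantifiers over the variables `f 0, ..., f (n - 1)`. -/
def exB (f : ℕ → ℕ) : ℕ → FPC σ → FPC σ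
  | 0, φ => φ
  | n + 1, φ => exB f n (.exE (f n) φ)

lemma eval_bigAnd (𝔄 : Str σ A) (v : ℕ → A) (ν : ℕ → ℕ)
    (β : ℕ → List Bool → List (A ⊕ ℕ) → Prop) : ∀ l : List (FPC σ),
    (bigAnd l).eval 𝔄 v ν β ↔ ∀ φ ∈ l, φ.eval 𝔄 v ν β
  | [] => by
    show v 0 = v 0 ↔ _
    simp
  | φ :: l => by
    show (φ.eval 𝔄 v ν β ∧ (bigAnd l).eval 𝔄 v ν β) ↔ _
    rw [eval_bigAnd 𝔄 v ν β l]
    simp

lemma eval_exB (𝔄 : Str σ A) (f : ℕ → ℕ) (ν : ℕ → ℕ)
    (β : ℕ → List Bool → List (A ⊕ ℕ) → Prop) (v : ℕ → A) :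
    ∀ (n : ℕ) (φ : FPC σ), (exB f n φ).eval 𝔄 v ν β ↔
      ∃ c : Fin n → A, φ.eval 𝔄 (blk v f n c) ν β
  | 0, φ => by
    simp only [exB, blk]
    exact ⟨fun h => ⟨Fin.elim0, h⟩, fun ⟨_, h⟩ => h⟩
  | n + 1, φ => by
    rw [exB, eval_exB 𝔄 f ν β v n]
    constructor
    · rintro ⟨c, a, h⟩
      refine ⟨Fin.snoc c a, ?_⟩
      rw [blk]
      simpa using h
    · rintro ⟨c, h⟩
      refine ⟨fun i => c i.castSucc, c (Fin.last n), ?_⟩
      rw [blk] at h
      exact h

/-- renaming of the element variables in a mixed list -/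
def rn (g : ℕ → ℕ) (ys : List (ℕ ⊕ ℕ)) : List (ℕ ⊕ ℕ) := ys.map (Sum.map g id)

/-- Substitution of formulas for relation symbols, and renaming of variables. -/
def gsub (ψ : σ'.S → FPC σ) (g G z : ℕ → ℕ) : FPC σ' → FPC σ
  | .rel R xs => exB z (σ'.ar R) (.and
      (bigAnd ((List.finRange (σ'.ar R)).map (fun j : Fin (σ'.ar R) => FPC.eq (z j) (g (xs j)))))
      (ψ R))
  | .eq x y => .eq (g x) (g y)
  | .le m n => .le m n
  | .app X ts => .app (G X) (rn g ts)
  | .neg φ => .neg (gsub ψ g G z φ)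
  | .and φ χ => .and (gsub ψ g G z φ) (gsub ψ g G z χ)
  | .exE x φ => .exE (g x) (gsub ψ g G z φ)
  | .exN m φ => .exN m (gsub ψ g G z φ)
  | .cnt x φ m => .cnt (g x) (gsub ψ g G z φ) m
  | .ifp X ys φ ts => .ifp (G X) (rn g ys) (gsub ψ g G z φ) (rn g ts)

lemma sorts_rn (g : ℕ → ℕ) (ys : List (ℕ ⊕ ℕ)) : sorts (rn g ys) = sorts ys := by
  unfold sorts rn
  rw [List.map_map]
  congr 1
  funext s
  rcases s with s | s <;> rfl

lemma map_rn (g : ℕ → ℕ) (v : ℕ → A) (ν : ℕ → ℕ) (ts : List (ℕ ⊕ ℕ)) :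
    (rn g ts).map (Sum.map v ν) = ts.map (Sum.map (fun x => v (g x)) ν) := by
  unfold rn
  rw [List.map_map]
  congr 1
  funext s
  rcases s with s | s <;> rfl

lemma fits_rn {g : ℕ → ℕ} (hg : Function.Injective g) (N : ℕ) (ys : List (ℕ ⊕ ℕ))
    (l : List (A ⊕ ℕ)) : Fits N (rn g ys) l ↔ Fits N ys l := by
  unfold Fits
  rw [sorts_rn]
  have : (rn g ys).Nodup ↔ ys.Nodup := List.nodup_map_iff (Sum.map_injective.2
    ⟨hg, Function.injective_id⟩)
  rw [this]

lemma updE_rn {g : ℕ → ℕ} (hg : Function.Injective g) : ∀ (ys : List (ℕ ⊕ ℕ))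
    (l : List (A ⊕ ℕ)) (v : ℕ → A),
    (fun y => updE v (rn g ys) l (g y)) = updE (fun y => v (g y)) ys l
  | [], l, v => by cases l <;> rfl
  | Sum.inl y :: ys, [], v => rfl
  | Sum.inr y :: ys, [], v => rfl
  | Sum.inl y :: ys, Sum.inl a :: l, v => by
    show (fun x => updE (Function.update v (g y) a) (rn g ys) l (g x)) = _
    rw [updE_rn hg ys l]
    show updE (fun x => Function.update v (g y) a (g x)) ys l = _
    rw [update_comp hg]
    rfl
  | Sum.inl y :: ys, Sum.inr a :: l, v => updE_rn hg ys l v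
  | Sum.inr y :: ys, Sum.inl a :: l, v => updE_rn hg ys l v
  | Sum.inr y :: ys, Sum.inr a :: l, v => updE_rn hg ys l v

lemma updN_rn {g : ℕ → ℕ} : ∀ (ys : List (ℕ ⊕ ℕ)) (l : List (A ⊕ ℕ)) (ν : ℕ → ℕ),
    updN ν (rn g ys) l = updN ν ys l
  | [], l, v => by cases l <;> rfl
  | Sum.inl y :: ys, [], v => rfl
  | Sum.inr y :: ys, [], v => rfl
  | Sum.inl y :: ys, Sum.inl a :: l, v => updN_rn ys l v
  | Sum.inl y :: ys, Sum.inr a :: l, v => updN_rn ys l v
  | Sum.inr y :: ys, Sum.inl a :: l, v => updN_rn ys l v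
  | Sum.inr y :: ys, Sum.inr a :: l, v => updN_rn ys l _

lemma updE_off {g : ℕ → ℕ} : ∀ (ys : List (ℕ ⊕ ℕ)) (l : List (A ⊕ ℕ)) (v : ℕ → A) (x : ℕ),
    (∀ y, g y ≠ x) → updE v (rn g ys) l x = v x
  | [], l, v, x, _ => by cases l <;> rfl
  | Sum.inl y :: ys, [], v, x, _ => rfl
  | Sum.inr y :: ys, [], v, x, _ => rfl
  | Sum.inl y :: ys, Sum.inl a :: l, v, x, h => by
    show updE (Function.update v (g y) a) (rn g ys) l x = v x
    rw [updE_off ys l _ x h, Function.update_of_ne (h y).symm]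
  | Sum.inl y :: ys, Sum.inr a :: l, v, x, h => updE_off ys l v x h
  | Sum.inr y :: ys, Sum.inl a :: l, v, x, h => updE_off ys l v x h
  | Sum.inr y :: ys, Sum.inr a :: l, v, x, h => updE_off ys l v x h

/-- The meaning of a substituted formula. -/
theorem eval_gsub (𝔄 : Str σ A) (𝔄' : Str σ' A) (ψ : σ'.S → FPC σ)
    {g G z : ℕ → ℕ} (hg : Function.Injective g)
    (hG : Function.Injective G) (hz : Function.Injective z) (hgz : ∀ i j, g i ≠ z j)
    (v₀ : ℕ → A) (β₀ : ℕ → List Bool → List (A ⊕ ℕ) → Prop)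
    (hψ : ∀ (v : ℕ → A) (ν : ℕ → ℕ) (β : ℕ → List Bool → List (A ⊕ ℕ) → Prop),
      (∀ x, (∀ y, g y ≠ x) → v x = v₀ x) →
      (∀ X, (∀ Y, G Y ≠ X) → β X = β₀ X) → ∀ (R : σ'.S) (t : Fin (σ'.ar R) → A),
      ((ψ R).eval 𝔄 (blk v z (σ'.ar R) t) ν β ↔ 𝔄'.rel R t)) :
    ∀ (φ : FPC σ') (v : ℕ → A) (ν : ℕ → ℕ) (β : ℕ → List Bool → List (A ⊕ ℕ) → Prop),
      (∀ x, (∀ y, g y ≠ x) → v x = v₀ x) → (∀ X, (∀ Y, G Y ≠ X) → β X = β₀ X) →
      ((gsub ψ g G z φ).eval 𝔄 v ν β ↔ φ.eval 𝔄' (fun x => v (g x)) ν (fun X => β (G X)))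
  | .rel R xs, v, ν, β, hv, hβ => by
    rw [gsub, eval_exB]
    show (∃ c, (bigAnd _).eval 𝔄 _ ν β ∧ (ψ R).eval 𝔄 _ ν β) ↔ 𝔄'.rel R (fun i => v (g (xs i)))
    simp only [eval_bigAnd, List.mem_map, List.mem_finRange, true_and,
      forall_exists_index, forall_apply_eq_imp_iff]
    constructor
    · rintro ⟨t, h1, h2⟩
      rw [hψ v ν β hv hβ] at h2
      have : t = fun i => v (g (xs i)) := by
        funext i
        have h3 : blk v z (σ'.ar R) t (z i) = blk v z (σ'.ar R) t (g (xs i)) := h1 i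
        rw [blk_apply v hz] at h3
        rw [h3, blk_of_ne v z _ (fun j => (hgz _ _).symm)]
      rwa [this] at h2
    · intro h
      refine ⟨fun i => v (g (xs i)), fun i => ?_, (hψ v ν β hv hβ R _).2 h⟩
      show blk v z (σ'.ar R) _ (z i) = blk v z (σ'.ar R) _ (g (xs i))
      rw [blk_apply v hz, blk_of_ne v z _ (fun j => (hgz _ _).symm)]
  | .eq x y, v, ν, β, hv, hβ => Iff.rfl
  | .le m n, v, ν, β, hv, hβ => Iff.rfl
  | .app X ts, v, ν, β, hv, hβ => by
    show β (G X) (sorts (rn g ts)) ((rn g ts).map (Sum.map v ν)) ↔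
      β (G X) (sorts ts) (ts.map (Sum.map (fun x => v (g x)) ν))
    rw [sorts_rn, map_rn]
  | .neg φ, v, ν, β, hv, hβ =>
    not_congr (eval_gsub 𝔄 𝔄' ψ hg hG hz hgz v₀ β₀ hψ φ v ν β hv hβ)
  | .and φ χ, v, ν, β, hv, hβ =>
    and_congr (eval_gsub 𝔄 𝔄' ψ hg hG hz hgz v₀ β₀ hψ φ v ν β hv hβ)
      (eval_gsub 𝔄 𝔄' ψ hg hG hz hgz v₀ β₀ hψ χ v ν β hv hβ)
  | .exE x φ, v, ν, β, hv, hβ => by
    show (∃ a, (gsub ψ g G z φ).eval 𝔄 (Function.update v (g x) a) ν β) ↔
      (∃ a, φ.eval 𝔄' (Function.update (fun x => v (g x)) x a) ν (fun X => β (G X)))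
    refine exists_congr fun a => ?_
    rw [eval_gsub 𝔄 𝔄' ψ hg hG hz hgz v₀ β₀ hψ φ _ ν β (fun y hy => ?_) hβ, update_comp hg]
    rw [Function.update_of_ne (hy x).symm, hv y hy]
  | .exN m φ, v, ν, β, hv, hβ => exists_congr fun k => and_congr_right fun _ =>
      eval_gsub 𝔄 𝔄' ψ hg hG hz hgz v₀ β₀ hψ φ v _ β hv hβ
  | .cnt x φ m, v, ν, β, hv, hβ => by
    have : {a : A | (gsub ψ g G z φ).eval 𝔄 (Function.update v (g x) a) ν β} =
        {a : A | φ.eval 𝔄' (Function.update (fun x => v (g x)) x a) ν (fun X => β (G X))} := by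
      ext a
      show (gsub ψ g G z φ).eval 𝔄 (Function.update v (g x) a) ν β ↔ _
      rw [eval_gsub 𝔄 𝔄' ψ hg hG hz hgz v₀ β₀ hψ φ _ ν β (fun y hy => ?_) hβ, update_comp hg]
      · rfl
      · rw [Function.update_of_ne (hy x).symm, hv y hy]
    show {a : A | (gsub ψ g G z φ).eval 𝔄 (Function.update v (g x) a) ν β}.ncard = ν m ↔
      {a : A | φ.eval 𝔄' (Function.update (fun x => v (g x)) x a) ν (fun X => β (G X))}.ncard
        = ν m
    rw [this]
  | .ifp X ys φ ts, v, ν, β, hv, hβ => by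
    show (∃ n, stage _ n ((rn g ts).map (Sum.map v ν))) ↔
      (∃ n, stage _ n (ts.map (Sum.map (fun x => v (g x)) ν)))
    have key : (fun (P : List (A ⊕ ℕ) → Prop) l => Fits (Nat.card A) (rn g ys) l ∧
        (gsub ψ g G z φ).eval 𝔄 (updE v (rn g ys) l) (updN ν (rn g ys) l)
          (Function.update β (G X) (Function.update (β (G X)) (sorts (rn g ys)) P))) =
        (fun (P : List (A ⊕ ℕ) → Prop) l => Fits (Nat.card A) ys l ∧
        φ.eval 𝔄' (updE (fun x => v (g x)) ys l) (updN ν ys l)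
          (Function.update (fun X => β (G X)) X
            (Function.update (β (G X)) (sorts ys) P))) := by
      funext P l
      rw [eval_gsub 𝔄 𝔄' ψ hg hG hz hgz v₀ β₀ hψ φ _ _ _ (fun y hy => ?_) (fun Y hY => ?_),
        updE_rn hg, updN_rn, sorts_rn, update_comp hG, fits_rn hg]
      · rw [updE_off ys l v y hy, hv y hy]
      · rw [Function.update_of_ne (hY X).symm, hβ Y hY]
    rw [map_rn]
    exact exists_congr fun n => by rw [key]

/-- the false formula -/
def ff : FPC σ := .and (.eq 0 0) (.neg (.eq 0 0))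

lemma eval_ff (𝔄 : Str σ A) (v : ℕ → A) (ν : ℕ → ℕ) (β : ℕ → List Bool → List (A ⊕ ℕ) → Prop) :
    (ff : FPC σ).eval 𝔄 v ν β ↔ False := by
  show (v 0 = v 0 ∧ ¬ v 0 = v 0) ↔ False
  simp

open Classical in
/-- Replace the free relation variables (outside the list `L`) by the empty relation. -/
noncomputable def kill : List (ℕ × List Bool) → FPC σ → FPC σ
  | _, .rel R xs => .rel R xs
  | _, .eq x y => .eq x y
  | _, .le m n => .le m n
  | L, .app X ts => if (X, sorts ts) ∈ L then .app X ts else ff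
  | L, .neg φ => .neg (kill L φ)
  | L, .and φ ψ => .and (kill L φ) (kill L ψ)
  | L, .exE x φ => .exE x (kill L φ)
  | L, .exN m φ => .exN m (kill L φ)
  | L, .cnt x φ m => .cnt x (kill L φ) m
  | L, .ifp X ys φ ts => .ifp X ys (kill ((X, sorts ys) :: L) φ) ts

open Classical in
lemma eval_kill (𝔄 : Str σ A) : ∀ (φ : FPC σ) (L : List (ℕ × List Bool)) (v : ℕ → A) (ν : ℕ → ℕ)
    (β : ℕ → List Bool → List (A ⊕ ℕ) → Prop),
    (kill L φ).eval 𝔄 v ν β ↔
      φ.eval 𝔄 v ν (fun X s => if (X, s) ∈ L then β X s else fun _ => False)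
  | .rel R xs, L, v, ν, β => Iff.rfl
  | .eq x y, L, v, ν, β => Iff.rfl
  | .le m n, L, v, ν, β => Iff.rfl
  | .app X ts, L, v, ν, β => by
    rw [kill]
    split_ifs with h
    · show β X (sorts ts) _ ↔ (if (X, sorts ts) ∈ L then β X (sorts ts) else fun _ => False) _
      rw [if_pos h]
    · rw [eval_ff]
      show False ↔ (if (X, sorts ts) ∈ L then β X (sorts ts) else fun _ => False) _
      rw [if_neg h]
  | .neg φ, L, v, ν, β => not_congr (eval_kill 𝔄 φ L v ν β)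
  | .and φ ψ, L, v, ν, β => and_congr (eval_kill 𝔄 φ L v ν β) (eval_kill 𝔄 ψ L v ν β)
  | .exE x φ, L, v, ν, β => exists_congr fun a => eval_kill 𝔄 φ L _ ν β
  | .exN m φ, L, v, ν, β => exists_congr fun k => and_congr_right fun _ =>
      eval_kill 𝔄 φ L v _ β
  | .cnt x φ m, L, v, ν, β => by
    have : {a : A | (kill L φ).eval 𝔄 (Function.update v x a) ν β} =
        {a : A | φ.eval 𝔄 (Function.update v x a) ν
          (fun X s => if (X, s) ∈ L then β X s else fun _ => False)} := by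
      ext a
      exact eval_kill 𝔄 φ L _ ν β
    show {a : A | (kill L φ).eval 𝔄 (Function.update v x a) ν β}.ncard = ν m ↔ _ = ν m
    rw [this]
  | .ifp X ys φ ts, L, v, ν, β => by
    show (∃ n, stage _ n (ts.map (Sum.map v ν))) ↔ (∃ n, stage _ n (ts.map (Sum.map v ν)))
    have key : (fun (P : List (A ⊕ ℕ) → Prop) l => Fits (Nat.card A) ys l ∧
        (kill ((X, sorts ys) :: L) φ).eval 𝔄 (updE v ys l) (updN ν ys l)
          (Function.update β X (Function.update (β X) (sorts ys) P))) =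
        (fun (P : List (A ⊕ ℕ) → Prop) l => Fits (Nat.card A) ys l ∧
        φ.eval 𝔄 (updE v ys l) (updN ν ys l)
          (Function.update (fun X s => if (X, s) ∈ L then β X s else fun _ => False) X
            (Function.update ((fun X s => if (X, s) ∈ L then β X s else fun _ => False) X)
              (sorts ys) P))) := by
      funext P l
      rw [eval_kill 𝔄 φ]
      have : (fun Y s => if (Y, s) ∈ (X, sorts ys) :: L then
          Function.update β X (Function.update (β X) (sorts ys) P) Y s else fun _ => False) =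
          Function.update (fun X s => if (X, s) ∈ L then β X s else fun _ => False) X
            (Function.update ((fun X s => if (X, s) ∈ L then β X s else fun _ => False) X)
              (sorts ys) P) := by
        funext Y s
        by_cases hY : Y = X
        · subst hY
          by_cases hs : s = sorts ys
          · subst hs
            simp
          · simp [hs]
        · simp [hY]
      rw [this]
    exact exists_congr fun n => by rw [key]

end C

/-- The query `P` is definable in FPC with an additional binary relation from the class `𝓡`. -/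
def ExprC (𝓡 : (A : Type) → (A → A → Prop) → Prop) (σ : Sig) (ι : Type) (P : Query σ ι) : Prop :=
  ∀ e : ι → ℕ, ∃ φ : FPC σ.ord, ∀ (A : Type) [Finite A] [Nonempty A] (r : A → A → Prop),
    𝓡 A r → ∀ (𝔄 : Str σ A) (v : ℕ → A) (ν : ℕ → ℕ) (β : ℕ → List Bool → List (A ⊕ ℕ) → Prop),
    φ.eval (𝔄.ord r) v ν β ↔ P A 𝔄 (fun i => v (e i))

namespace ExprC

open C

variable {𝓡 : (A : Type) → (A → A → Prop) → Prop} {σ σ' : Sig} {ι κ : Type}

lemma congr {P Q : Query σ ι} (hP : ExprC 𝓡 _ _ P) (h : ∀ (A : Type) [Finite A] [Nonempty A]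
    (𝔄 : Str σ A) (t : ι → A), Q A 𝔄 t ↔ P A 𝔄 t) : ExprC 𝓡 _ _ Q := by
  intro e
  obtain ⟨φ, hφ⟩ := hP e
  exact ⟨φ, fun A _ _ r hr 𝔄 v ν β => (hφ A r hr 𝔄 v ν β).trans (h A 𝔄 _).symm⟩

lemma not {P : Query σ ι} (hP : ExprC 𝓡 _ _ P) : ExprC 𝓡 _ _ (fun A 𝔄 t => ¬ P A 𝔄 t) := by
  intro e
  obtain ⟨φ, hφ⟩ := hP e
  exact ⟨φ.neg, fun A _ _ r hr 𝔄 v ν β => not_congr (hφ A r hr 𝔄 v ν β)⟩

lemma and {P Q : Query σ ι} (hP : ExprC 𝓡 _ _ P) (hQ : ExprC 𝓡 _ _ Q) :
    ExprC 𝓡 _ _ (fun A 𝔄 t => P A 𝔄 t ∧ Q A 𝔄 t) := by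
  intro e
  obtain ⟨φ, hφ⟩ := hP e
  obtain ⟨ψ, hψ⟩ := hQ e
  exact ⟨φ.and ψ, fun A _ _ r hr 𝔄 v ν β => and_congr (hφ A r hr 𝔄 v ν β) (hψ A r hr 𝔄 v ν β)⟩

lemma true : ExprC 𝓡 _ _ (fun (A : Type) (_ : Str σ A) (_ : ι → A) => True) := by
  intro e
  refine ⟨.eq 0 0, fun A _ _ r hr 𝔄 v ν β => ?_⟩
  show v 0 = v 0 ↔ True
  simp

lemma rel (R : σ.S) (f : Fin (σ.ar R) → ι) :
    ExprC 𝓡 _ _ (fun _ 𝔄 t => 𝔄.rel R (fun i => t (f i))) := by
  intro e
  exact ⟨FPC.rel (σ := σ.ord) (some R) (fun i => e (f i)), fun A _ _ r hr 𝔄 v ν β => Iff.rfl⟩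

lemma eq (i j : ι) : ExprC 𝓡 _ _ (fun (A : Type) (_ : Str σ A) (t : ι → A) => t i = t j) := by
  intro e
  exact ⟨FPC.eq (e i) (e j), fun A _ _ r hr 𝔄 v ν β => Iff.rfl⟩

lemma reindex {P : Query σ ι} (hP : ExprC 𝓡 _ _ P) (f : ι → κ) :
    ExprC 𝓡 _ _ (fun A 𝔄 (t : κ → A) => P A 𝔄 (fun i => t (f i))) := fun e =>
  hP (fun i => e (f i))

/-- existential quantification -/
lemma ex [Finite ι] {P : Query σ (Option ι)} (hP : ExprC 𝓡 _ _ P) :
    ExprC 𝓡 _ _ (fun A 𝔄 (t : ι → A) => ∃ a, P A 𝔄 (fun o => o.elim a t)) := by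
  intro e
  obtain ⟨M, hM⟩ : ∃ M, ∀ i, e i < M := by
    obtain ⟨M, hM⟩ := (Set.finite_range e).bddAbove
    exact ⟨M + 1, fun i => Nat.lt_succ_of_le (hM ⟨i, rfl⟩)⟩
  obtain ⟨φ, hφ⟩ := hP (fun o => o.elim M e)
  refine ⟨FPC.exE M φ, fun A _ _ r hr 𝔄 v ν β => ?_⟩
  show (∃ a, φ.eval _ (Function.update v M a) ν β) ↔ _
  refine exists_congr fun a => ?_
  rw [hφ A r hr]
  have : (fun i : Option ι => Function.update v M a (i.elim M e)) =
      (fun o : Option ι => o.elim a (fun i => v (e i))) := by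
    funext o
    cases o with
    | none => simp
    | some i =>
      simp only [Option.elim_some]
      rw [Function.update_of_ne (hM i).ne]
  rw [this]

/-- Substitution of definable relations (with parameters) for the relations. -/
lemma subst [Finite ι] {P : Query σ' ι} (hP : ExprC 𝓡 _ _ P)
    {D : (R : σ'.S) → Query σ (ι ⊕ Fin (σ'.ar R))} (hD : ∀ R, ExprC 𝓡 _ _ (D R)) :
    ExprC 𝓡 _ _ (fun A 𝔄 (t : ι → A) => P A (defStr D 𝔄 t) t) := by
  intro e
  obtain ⟨M, hM⟩ : ∃ M, ∀ i, e i < M := by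
    obtain ⟨M, hM⟩ := (Set.finite_range e).bddAbove
    exact ⟨M + 1, fun i => Nat.lt_succ_of_le (hM ⟨i, rfl⟩)⟩
  let E := Finite.equivFin ι
  set m := Nat.card ι
  set g : ℕ → ℕ := fun x => M + 3 * x with hg
  set z : ℕ → ℕ := fun x => M + 3 * x + 1 with hz
  set p : ℕ → ℕ := fun x => M + 3 * x + 2 with hp
  have gi : Function.Injective g := fun i j h => by simp only [hg] at h; omega
  have zi : Function.Injective z := fun i j h => by simp only [hz] at h; omega
  have pi : Function.Injective p := fun i j h => by simp only [hp] at h; omega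
  have hgz : ∀ i j, g i ≠ z j := fun i j => by simp only [hg, hz]; omega
  have hgp : ∀ i j, g i ≠ p j := fun i j => by simp only [hg, hp]; omega
  have hzp : ∀ i j, z i ≠ p j := fun i j => by simp only [hz, hp]; omega
  have hge : ∀ i j, g j ≠ e i := fun i j => by have := hM i; simp only [hg]; omega
  have hpe : ∀ i j, p j ≠ e i := fun i j => by have := hM i; simp only [hp]; omega
  obtain ⟨φ, hφ⟩ := hP (fun i => (E i : ℕ))
  choose ψ hψ using fun R => hD R (Sum.elim (fun i => p (E i : ℕ))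
    (fun j : Fin (σ'.ar R) => z (j : ℕ)))
  set Ψ : σ'.ord.S → FPC σ.ord := fun R => match R with
    | none => FPC.rel (σ := σ.ord) none (fun j : Fin 2 => z j)
    | some R => ψ R with hΨ
  refine ⟨C.exB p m (FPC.and (C.bigAnd ((List.finRange m).map (fun j : Fin m =>
      FPC.eq (p j) (e (E.symm j))))) (C.exB g m (FPC.and (C.bigAnd ((List.finRange m).map
      (fun j : Fin m => FPC.eq (g j) (e (E.symm j))))) (C.gsub Ψ g id z φ)))),
      fun A _ _ r hr 𝔄 v ν β => ?_⟩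
  have key : ∀ (s s' : Fin m → A), (∀ j, s j = v (e (E.symm j))) → (∀ j, s' j = v (e (E.symm j))) →
      ((C.gsub Ψ g id z φ).eval (𝔄.ord r) (blk (blk v p m s) g m s') ν β ↔
      P A (defStr D 𝔄 (fun i => v (e i))) (fun i => v (e i))) := by
    intro s s' hs hs'
    rw [C.eval_gsub (𝔄.ord r) ((defStr D 𝔄 (fun i => v (e i))).ord r) Ψ gi Function.injective_id
      zi hgz (blk (blk v p m s) g m s') β ?_ φ _ ν β (fun _ _ => rfl) (fun _ _ => rfl),
      hφ A r hr]
    · have : (fun i : ι => blk (blk v p m s) g m s' (g (E i : ℕ))) = fun i => v (e i) := by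
        funext i
        rw [blk_apply _ gi, hs']
        simp
      rw [this]
    · intro w ν' γ hw hγ R t
      rcases R with _ | R
      · show r (blk w z 2 t (z ((0 : Fin 2) : ℕ))) (blk w z 2 t (z ((1 : Fin 2) : ℕ))) ↔
          r (t (0 : Fin 2)) (t (1 : Fin 2))
        rw [blk_apply w zi, blk_apply w zi]
      · show (ψ R).eval (𝔄.ord r) (blk w z (σ'.ar R) t) ν' γ ↔ _
        rw [hψ R A r hr]
        have : (fun i : ι ⊕ Fin (σ'.ar R) => blk w z (σ'.ar R) t
            (Sum.elim (fun i => p (E i : ℕ)) (fun j : Fin (σ'.ar R) => z (j : ℕ)) i)) =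
            Sum.elim (fun i => v (e i)) t := by
          funext o
          rcases o with i | j
          · simp only [Sum.elim_inl]
            rw [blk_of_ne _ _ _ (fun j => hzp _ _), hw _ (fun y => hgp _ _),
              blk_of_ne _ _ _ (fun j => hgp _ _), blk_apply _ pi, hs, Equiv.symm_apply_apply]
            rfl
          · simp only [Sum.elim_inr]
            exact blk_apply w zi _ t j
        rw [this]
        rfl
  rw [C.eval_exB]
  constructor
  · rintro ⟨s, h1, h23⟩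
    obtain ⟨s', h2, h3⟩ := (C.eval_exB _ _ _ _ _ _ _).1 h23
    rw [C.eval_bigAnd] at h1 h2
    refine (key s s' (fun j => ?_) (fun j => ?_)).1 h3
    · have h4 : blk v p m s (p j) = blk v p m s (e (E.symm j)) :=
        h1 _ (List.mem_map.2 ⟨j, List.mem_finRange j, rfl⟩)
      rw [blk_apply _ pi] at h4
      rw [h4, blk_of_ne _ _ _ (fun k => hpe _ _)]
    · have h4 : blk (blk v p m s) g m s' (g j) = blk (blk v p m s) g m s' (e (E.symm j)) :=
        h2 _ (List.mem_map.2 ⟨j, List.mem_finRange j, rfl⟩)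
      rw [blk_apply _ gi] at h4
      rw [h4, blk_of_ne _ _ _ (fun k => hge _ _), blk_of_ne _ _ _ (fun k => hpe _ _)]
  · intro h
    refine ⟨fun j => v (e (E.symm j)), ?_, (C.eval_exB _ _ _ _ _ _ _).2
      ⟨fun j => v (e (E.symm j)), ?_, (key _ _ (fun j => rfl) (fun j => rfl)).2 h⟩⟩
    · rw [C.eval_bigAnd]
      intro χ hχ
      obtain ⟨j, -, rfl⟩ := List.mem_map.1 hχ
      show blk v p m _ (p j) = blk v p m _ (e (E.symm j))
      rw [blk_apply _ pi, blk_of_ne _ _ _ (fun k => hpe _ _)]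
    · rw [C.eval_bigAnd]
      intro χ hχ
      obtain ⟨j, -, rfl⟩ := List.mem_map.1 hχ
      show blk (blk v p m _) g m _ (g j) = blk (blk v p m _) g m _ (e (E.symm j))
      rw [blk_apply _ gi, blk_of_ne _ _ _ (fun k => hge _ _), blk_of_ne _ _ _ (fun k => hpe _ _)]

/-- Inflationary fixed points. -/
lemma ifp {P : Query (add σ 2) (Fin 2)} (hP : ExprC 𝓡 _ _ P) :
    ExprC 𝓡 _ _ (fun A 𝔄 (t : Fin 2 → A) => ∃ n, St P 𝔄 n (t 0) (t 1)) := by
  intro e
  obtain ⟨φ, hφ⟩ := hP (fun i => (i : ℕ))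
  set ψ : (add σ 2).ord.S → FPC σ.ord := fun R => match R with
    | none => FPC.rel (σ := σ.ord) none (fun j : Fin 2 => 2 * (j : ℕ) + 1)
    | some none => FPC.app 0 [Sum.inl 1, Sum.inl 3]
    | some (some R) => FPC.rel (σ := σ.ord) (some R) (fun j => 2 * (j : ℕ) + 1) with hψ
  refine ⟨FPC.ifp 0 [Sum.inl 0, Sum.inl 2]
    (C.gsub ψ (fun x => 2 * x) (fun X => X + 1) (fun j => 2 * j + 1) φ)
    [Sum.inl (e 0), Sum.inl (e 1)], fun A _ _ r hr 𝔄 v ν β => ?_⟩
  have zi : Function.Injective (fun j : ℕ => 2 * j + 1) := fun i j h => by simp only at h; omega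
  have key : ∀ (n : ℕ) (a b : A),
      stage (fun P' l => Fits (Nat.card A) [Sum.inl 0, Sum.inl 2] l ∧
        (C.gsub ψ (fun x => 2 * x) (fun X => X + 1) (fun j => 2 * j + 1) φ).eval (𝔄.ord r)
          (updE v [Sum.inl 0, Sum.inl 2] l) (updN ν [Sum.inl 0, Sum.inl 2] l)
          (Function.update β 0 (Function.update (β 0) (sorts ([Sum.inl 0, Sum.inl 2] :
            List (ℕ ⊕ ℕ))) P'))) n [Sum.inl a, Sum.inl b] ↔ St P 𝔄 n a b := by
    intro n
    induction n with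
    | zero => intro a b; simp [stage, St]
    | succ n ih =>
      intro a b
      show (stage _ n [Sum.inl a, Sum.inl b] ∨ (_ ∧ _)) ↔ (St P 𝔄 n a b ∨ _)
      refine or_congr (ih a b) ?_
      generalize stage (fun P' l => Fits (Nat.card A) [Sum.inl 0, Sum.inl 2] l ∧
        (C.gsub ψ (fun x => 2 * x) (fun X => X + 1) (fun j => 2 * j + 1) φ).eval (𝔄.ord r)
          (updE v [Sum.inl 0, Sum.inl 2] l) (updN ν [Sum.inl 0, Sum.inl 2] l)
          (Function.update β 0 (Function.update (β 0) (sorts ([Sum.inl 0, Sum.inl 2] :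
            List (ℕ ⊕ ℕ))) P'))) n = S at ih ⊢
      have hfits : Fits (Nat.card A) ([Sum.inl 0, Sum.inl 2] : List (ℕ ⊕ ℕ))
          [Sum.inl a, Sum.inl b] := by
        refine ⟨by simp, rfl, fun k hk => ?_⟩
        simp at hk
      rw [C.eval_gsub (𝔄.ord r) ((adds 𝔄 (fun t => St P 𝔄 n (t 0) (t 1))).ord r) ψ
        (fun i j (h : 2 * i = 2 * j) => by omega)
        (fun i j (h : i + 1 = j + 1) => by omega) zi (fun i j => by omega)
        (updE v [Sum.inl 0, Sum.inl 2] [Sum.inl a, Sum.inl b])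
        (Function.update β 0 (Function.update (β 0) (sorts ([Sum.inl 0, Sum.inl 2] :
            List (ℕ ⊕ ℕ))) S)) ?_ φ _ _ _ (fun _ _ => rfl) (fun _ _ => rfl),
        hφ A r hr]
      · have : (fun i : Fin 2 => updE v [Sum.inl 0, Sum.inl 2] [Sum.inl a, Sum.inl b]
            (2 * (i : ℕ))) = ![a, b] := by
          funext i
          fin_cases i
          · simp [updE]
          · simp [updE]
        rw [this]
        simp [hfits]
      · intro w ν' γ hw hγ R t
        rcases R with _ | _ | R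
        · show r (blk w (fun j => 2 * j + 1) 2 t ((fun j => 2 * j + 1) ((0 : Fin 2) : ℕ)))
            (blk w (fun j => 2 * j + 1) 2 t ((fun j => 2 * j + 1) ((1 : Fin 2) : ℕ))) ↔
            r (t (0 : Fin 2)) (t (1 : Fin 2))
          rw [blk_apply w zi, blk_apply w zi]
        · show γ 0 (sorts ([Sum.inl 1, Sum.inl 3] : List (ℕ ⊕ ℕ)))
            [Sum.inl (blk w (fun j => 2 * j + 1) 2 t 1), Sum.inl (blk w (fun j => 2 * j + 1) 2 t 3)]
            ↔ St P 𝔄 n (t (0 : Fin 2)) (t (1 : Fin 2))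
          have h0 : γ 0 (sorts ([Sum.inl 1, Sum.inl 3] : List (ℕ ⊕ ℕ))) = S := by
            rw [hγ 0 (fun Y => by omega), Function.update_self]
            have : sorts ([Sum.inl 1, Sum.inl 3] : List (ℕ ⊕ ℕ)) =
                sorts ([Sum.inl 0, Sum.inl 2] : List (ℕ ⊕ ℕ)) := rfl
            rw [this, Function.update_self]
          have h1 := blk_apply w zi 2 t (0 : Fin 2)
          have h2 := blk_apply w zi 2 t (1 : Fin 2)
          simp only [Fin.val_zero, Fin.val_one, mul_zero, zero_add, mul_one] at h1 h2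
          rw [h0, ← ih]
          norm_num at h1 h2
          rw [h1, h2]
        · show 𝔄.rel R (fun i => blk w (fun j => 2 * j + 1) (σ.ar R) t (2 * (i : ℕ) + 1)) ↔
            𝔄.rel R t
          have : (fun i : Fin (σ.ar R) => blk w (fun j => 2 * j + 1) (σ.ar R) t (2 * (i : ℕ) + 1))
              = t := by
            funext i
            exact blk_apply w zi _ t i
          rw [this]
  show (∃ n, stage _ n [Sum.inl (v (e 0)), Sum.inl (v (e 1))]) ↔ _
  exact exists_congr fun n => key n _ _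

end ExprC

/-- FPC (with an additional relation from the class `𝓡`) is a closed logic. -/
theorem isClosed_FPC (𝓡 : (A : Type) → (A → A → Prop) → Prop) : IsClosed (ExprC 𝓡) where
  congr := ExprC.congr
  not := ExprC.not
  and := ExprC.and
  rel := ExprC.rel
  eq := ExprC.eq
  true := ExprC.true
  reindex := ExprC.reindex
  ex := ExprC.ex
  subst := ExprC.subst
  ifp := ExprC.ifp

/-- the empty relation -/
def noOrd (A : Type) (r : A → A → Prop) : Prop := r = fun _ _ => False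

/-- linear orders -/
def linOrd (A : Type) (r : A → A → Prop) : Prop := ∃ _ : LinearOrder A, r = fun a b => a < b

lemma inE_FPC {σ : Sig} (𝒦 : Class σ) : InE (ExprC noOrd) 𝒦 ↔ InFPC 𝒦 := by
  constructor
  · intro h
    obtain ⟨φ, hφ⟩ := h (fun x => x.elim)
    refine ⟨substA (fun (R : σ.ord.S) (xs : Fin (σ.ord.ar R) → ℕ) => (match R, xs with
      | none, _ => C.ff
      | some R, xs => FPC.rel R xs : FPC σ)) φ, fun A _ _ 𝔄 v ν => ?_⟩
    rw [eval_substA _ (𝔄.ord (fun _ _ => False)) 𝔄 ?_ φ, hφ A _ rfl]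
    intro R xs v ν β
    rcases R with _ | R
    · exact C.eval_ff _ _ _ _
    · exact Iff.rfl
  · rintro ⟨φ, hφ⟩ e
    refine ⟨substA (fun R xs => FPC.rel (σ := σ.ord) (some R) xs) (C.kill [] φ),
      fun A _ _ r hr 𝔄 v ν β => ?_⟩
    rw [eval_substA _ 𝔄 _ (fun R xs v ν β => Iff.rfl), C.eval_kill]
    simpa using hφ A 𝔄 v ν

lemma inE_FPCOrd {σ : Sig} (𝒦 : Class σ) : InE (ExprC linOrd) 𝒦 ↔ InFPCOrd 𝒦 := by
  constructor
  · intro h
    obtain ⟨φ, hφ⟩ := h (fun x => x.elim)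
    exact ⟨φ, fun A _ _ _ 𝔄 v ν => hφ A _ ⟨_, rfl⟩ 𝔄 v ν _⟩
  · rintro ⟨φ, hφ⟩ e
    refine ⟨C.kill [] φ, fun A _ _ r hr 𝔄 v ν β => ?_⟩
    obtain ⟨o, rfl⟩ := hr
    rw [C.eval_kill]
    simpa using hφ A 𝔄 v ν

end Pool.Agent.Work.MP_8dbde4_lc.HP
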