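import Pool.Agent.Work.MP_8dbde4_lc.HP.LogicDefs
import Pool.Agent.Work.MP_8dbde4_lc.HP.Expr
import Pool.Agent.Work.MP_8dbde4_lc.HP.ExprC
import Pool.Agent.Work.MP_8dbde4_lc.HP.Back1

/-!
# The final theorems, for FP, FPC and polynomial time
-/

namespace Pool.Agent.Work.MP_8dbde4_lc.HP

open Pool.Agent.Work.MP_8dbde4_lc.TS

/-- each of the three logics is a closed logic -/
lemma exists_closed (ℓ : Logic) : ∃ E : (σ : Sig) → (ι : Type) → Query σ ι → Prop,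
    IsClosed E ∧ ∀ {σ : Sig} (𝒦 : Class σ), InE E 𝒦 ↔ ℓ.In 𝒦 := by
  cases ℓ with
  | fp => exact ⟨Expr, isClosed_FP, fun 𝒦 => inE_FP 𝒦⟩
  | fpc => exact ⟨ExprC noOrd, isClosed_FPC noOrd, fun 𝒦 => inE_FPC 𝒦⟩
  | ptime => exact ⟨ExprC linOrd, isClosed_FPC linOrd, fun 𝒦 => inE_FPCOrd 𝒦⟩

variable {σ : Sig} {F Λ : Type}

theorem in_level (ℓ : Logic) {𝔅 : Str σ (ℚ × F)} (h : IsLevel 𝔅)
    (h0 : ℓ.In (CSP (levLetters₀ 𝔅))) : ℓ.In (CSP 𝔅) := by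
  obtain ⟨E, hE, hE'⟩ := exists_closed ℓ
  rw [← hE'] at h0 ⊢
  exact inE_level hE h h0

theorem in_anchor [Nonempty F] (ℓ : Logic) {𝔅 : Str σ (ℚ × F)} (h : IsLevel 𝔅) :
    ℓ.In (CSP (anchor 𝔅 (levLetters 𝔅))) ↔ ℓ.In (CSP (levLetters 𝔅)) := by
  obtain ⟨E, hE, hE'⟩ := exists_closed ℓ
  rw [← hE', ← hE']
  exact inE_anchor hE h

theorem in_tree (ℓ : Logic) {L : Letters σ Λ} {c : ℚ → Λ} (hc : ∀ q, ¬ L.term (c q))
    (h : ℓ.In (CSP (letters₀ L))) : ℓ.In (CSP (tree L c)) := by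
  obtain ⟨E, hE, hE'⟩ := exists_closed ℓ
  rw [← hE'] at h ⊢
  exact inE_tree₀ hE hc h

end Pool.Agent.Work.MP_8dbde4_lc.HP
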