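import Pool.Agent.Work.MP_8dbde4_lc.HP.Anchor1

/-!
# Level languages and their anchored expansions in a closed logic
-/

namespace Pool.Agent.Work.MP_8dbde4_lc.HP

open Pool.Agent.Work.MP_8dbde4_lc.TS

variable {E : (σ : Sig) → (ι : Type) → Query σ ι → Prop}
variable {σ μ : Sig} {F : Type} {A : Type}

lemma hK_of {L : Letters σ (Option F)} (hL : ∀ x, L.term x ↔ x ≠ none) (k k' : Option F)
    (h : ¬ L.term k) (h' : ¬ L.term k') : k = k' := by
  have h1 : k = none := by
    by_contra hne
    exact h ((hL k).2 hne)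
  have h2 : k' = none := by
    by_contra hne
    exact h' ((hL k').2 hne)
  rw [h1, h2]

/-- upper bound for structures given by patterns -/
theorem inE_levStr (hE : IsClosed E) {L : Letters σ (Option F)} (hL : ∀ x, L.term x ↔ x ≠ none)
    (h : EndE E L) : InE E (CSP (levStr L)) :=
  hE.congr (inE_dec hE (stepE_of_endE hE (hK_of hL) h)) (fun _ _ _ _ _ => csp_lev hL)

lemma marks_lv (𝔅 : Str σ (ℚ × F)) (h : ∀ R, ∃ w, 𝔅.rel R w) (p : (markSig σ).S)
    (t : Fin (σ.ar p.1) → Option F) : (marks (lv 𝔅 h)).rel p t ↔ (levMarks 𝔅).rel p t := by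
  constructor
  · rintro ⟨w, hw, q, hq⟩
    refine ⟨w, hw, q, fun i hi => ⟨fun h1 => (hq i).1 ?_, fun f hf => (hq i).2 f ?_⟩⟩
    · simp [hi, h1]
    · simp [hi, hf]
  · rintro ⟨w, hw, q, hq⟩
    refine ⟨w, hw, q, fun i => ⟨fun h1 => ?_, fun f hf => ?_⟩⟩
    · by_cases hi : p.2 i = true
      · exact (hq i hi).1 (by simpa [hi] using h1)
      · exact absurd h1 (by simp [hi])
    · by_cases hi : p.2 i = true
      · exact (hq i hi).2 f (by simpa [hi] using hf)
      · exact absurd hf (by simp [hi])

lemma str_ext {σ : Sig} {A : Type} {𝔄 𝔄' : Str σ A} (h : ∀ R t, 𝔄.rel R t ↔ 𝔄'.rel R t) :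
    𝔄 = 𝔄' := by
  cases 𝔄
  cases 𝔄'
  congr 1
  funext R t
  exact propext (h R t)

lemma lettersA_lv (𝔅 : Str σ (ℚ × F)) (h : ∀ R, ∃ w, 𝔅.rel R w) :
    lettersA (lv 𝔅 h) = levLetters₀ 𝔅 := by
  apply str_ext
  intro R t
  rcases R with _ | p
  · exact Iff.rfl
  · exact marks_lv 𝔅 h p t

lemma lettersB_lv (𝔅 : Str σ (ℚ × F)) (h : ∀ R, ∃ w, 𝔅.rel R w) :
    lettersB (lv 𝔅 h) = levLetters 𝔅 := by
  apply str_ext
  intro R t
  rcases R with _ | R
  · show (¬ (t (1 : Fin 2) ≠ none) → t (0 : Fin 2) = t (1 : Fin 2)) ↔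
      (t (1 : Fin 2) = none → t (0 : Fin 2) = none)
    constructor
    · intro h1 h2
      rw [h1 (fun h3 => h3 h2), h2]
    · intro h1 h2
      have h3 : t (1 : Fin 2) = none := by
        by_contra hne
        exact h2 hne
      rw [h1 h3, h3]
  · have := lettersA_lv 𝔅 h
    show (lettersA (lv 𝔅 h)).rel R t ↔ (levLetters₀ 𝔅).rel R t
    rw [this]

lemma anchor_eq {𝔅 : Str σ (ℚ × F)} (h : IsLevel 𝔅) (𝔐 : Str μ (Option F)) :
    levStr (anchored₁ (lv 𝔅 h.nonempty) 𝔐) = anchor 𝔅 𝔐 := by
  classical
  apply str_ext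
  intro R w
  rcases R with R | Q
  · exact (rel_iff h R w).symm
  · show (∀ q : ℚ, ancPat₁ (fun x : Option F => x ≠ none) (𝔐.rel Q) (lpat w q)) ↔
      (∀ i, (w (Fin.last _)).1 ≤ (w (Fin.castSucc i)).1) ∧
        𝔐.rel Q (fun i => if (w (Fin.castSucc i)).1 = (w (Fin.last _)).1
          then some (w (Fin.castSucc i)).2 else none)
    constructor
    · intro hw
      have hle : ∀ i, (w (Fin.last _)).1 ≤ (w (Fin.castSucc i)).1 := by
        intro i
        by_contra hlt
        have hlt := not_le.1 hlt
        have h1 := (hw (w (Fin.castSucc i)).1 none (by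
          unfold lpat
          rw [if_neg (not_lt.2 hlt.le), if_neg hlt.ne'])).1 (by simp) i
          (some (w (Fin.castSucc i)).2) (by
          unfold lpat
          rw [if_neg (lt_irrefl _), if_pos rfl])
        exact absurd h1 (by simp)
      refine ⟨hle, ?_⟩
      refine (hw (w (Fin.last _)).1 (some (w (Fin.last _)).2) (by
          unfold lpat
          rw [if_neg (lt_irrefl _), if_pos rfl])).2 (by simp) _ (fun i => ?_)
      unfold lpat
      rw [if_neg (not_lt.2 (hle i))]
      split_ifs <;> rfl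
    · rintro ⟨h1, h2⟩ q a ha
      unfold lpat at ha
      by_cases h3 : (w (Fin.last _)).1 < q
      · rw [if_pos h3] at ha
        exact absurd ha (by simp)
      · rw [if_neg h3] at ha
        by_cases h4 : (w (Fin.last _)).1 = q
        · rw [if_pos h4] at ha
          have ha' : a = some (w (Fin.last _)).2 := by simpa using ha.symm
          subst ha'
          refine ⟨fun h5 => absurd (by simp) h5, fun _ t ht => ?_⟩
          have : t = fun i => if (w (Fin.castSucc i)).1 = (w (Fin.last _)).1
              then some (w (Fin.castSucc i)).2 else none := by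
            funext i
            have h6 := ht i
            unfold lpat at h6
            rw [if_neg (not_lt.2 (h4 ▸ h1 i))] at h6
            rw [h4]
            split_ifs at h6 ⊢ with h7
            · simpa using h6.symm
            · simpa using h6.symm
          rw [this]
          exact h2
        · rw [if_neg h4] at ha
          have ha' : a = none := by simpa using ha.symm
          subst ha'
          refine ⟨fun _ i a' h5 => ?_, fun h5 => absurd rfl h5⟩
          have hlt : q < (w (Fin.castSucc i)).1 :=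
            lt_of_lt_of_le (lt_of_le_of_ne (not_lt.1 h3) (fun h' => h4 h'.symm)) (h1 i)
          unfold lpat at h5
          rw [if_neg (not_lt.2 hlt.le), if_neg hlt.ne'] at h5
          simpa using h5.symm

end Pool.Agent.Work.MP_8dbde4_lc.HP
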