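import Pool.Agent.Work.MP_8dbde4_lc.HP.Defs

/-!
# Level languages: templates on coloured rationals preserved by the operation pp
-/

namespace Pool.Agent.Work.MP_8dbde4_lc.HP

open Pool.Agent.Work.MP_8dbde4_lc.TS

variable {σ μ : Sig} {F : Type}

/-- The tuples `w`, `w'` of coloured rationals (elements of `ℚ × F`: a level and a colour) have
the same order of the levels and the same colours. -/
def SameType {n : ℕ} (w w' : Fin n → ℚ × F) : Prop :=
  (∀ i j, (w i).1 < (w j).1 ↔ (w' i).1 < (w' j).1) ∧ ∀ i, (w i).2 = (w' i).2

/-- The operation pp on coloured rationals: the first argument if its level is at most `0`, and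
otherwise the second argument, shifted above `0` by the map `φ`. -/
def pp (φ : ℚ → ℚ) (x y : ℚ × F) : ℚ × F := if x.1 ≤ 0 then x else (φ y.1, y.2)

/-- `𝔅` is a level language: its relations are nonempty, definable without quantifiers from the
order of the levels and the colours, and preserved by pp. -/
structure IsLevel (𝔅 : Str σ (ℚ × F)) : Prop where
  nonempty : ∀ R, ∃ w, 𝔅.rel R w
  inv : ∀ R w w', SameType w w' → 𝔅.rel R w → 𝔅.rel R w'
  pp : ∃ φ : ℚ → ℚ, StrictMono φ ∧ (∀ q, 0 < φ q) ∧ ∀ R u w, 𝔅.rel R u → 𝔅.rel R w →
    𝔅.rel R (fun i => HP.pp φ (u i) (w i))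

/-- The structure of the colour patterns at one level: the domain consists of the colours and of
one more element `none`, which means higher level.  For each relation symbol `R` and each
set `s` of coordinates, the relation `(R, s)` consists of the patterns shown at some level `q` by
the coordinates in `s` of some tuple in `R` all of whose coordinates in `s` have level at
least `q`. -/
def levMarks (𝔅 : Str σ (ℚ × F)) : Str (markSig σ) (Option F) where
  rel p t := ∃ w, 𝔅.rel p.1 w ∧ ∃ q : ℚ, ∀ i, p.2 i = true →
    (t i = none → q < (w i).1) ∧ ∀ f, t i = some f → w i = (q, f)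

/-- The pattern structure with the unary relation a colour. -/
def levLetters₀ (𝔅 : Str σ (ℚ × F)) : Str (add (markSig σ) 1) (Option F) :=
  adds (levMarks 𝔅) (fun t : Fin 1 → Option F => t 0 ≠ none)

/-- The pattern structure with the unary relation a colour and the binary relation
if `y` is not a colour then `x` is not a colour. -/
def levLetters (𝔅 : Str σ (ℚ × F)) : Str (add (add (markSig σ) 1) 2) (Option F) :=
  adds (levLetters₀ 𝔅) (fun t : Fin 2 → Option F => t 1 = none → t 0 = none)

/-- The signature with the symbols of `σ` and, for each symbol `Q` of `μ`, a symbol of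
arity `ar Q + 1`. -/
def ancSig₁ (σ μ : Sig) : Sig where
  S := σ.S ⊕ μ.S
  fin := inferInstance
  ar := Sum.elim σ.ar (fun Q => μ.ar Q + 1)

open Classical in
/-- The expansion of `𝔅` by the anchored relations `Q(x₁, ..., xₙ; z)` of a structure `𝔐` on
`Option F`: no `xᵢ` has a lower level than `z`, and the pattern shown by the `xᵢ` at
the level of `z` is in `Q`. -/
noncomputable def anchor (𝔅 : Str σ (ℚ × F)) (𝔐 : Str μ (Option F)) :
    Str (ancSig₁ σ μ) (ℚ × F) where
  rel
    | .inl R => 𝔅.rel R
    | .inr Q => fun w => (∀ i, (w (Fin.last _)).1 ≤ (w (Fin.castSucc i)).1) ∧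
        𝔐.rel Q (fun i => if (w (Fin.castSucc i)).1 = (w (Fin.last _)).1
          then some (w (Fin.castSucc i)).2 else none)

end Pool.Agent.Work.MP_8dbde4_lc.HP
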