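import Pool.Agent.Work.MP_8dbde4_lc.HP.LevDefs
import Pool.Agent.Work.MP_8dbde4_lc.HP.Words

/-!
# Level languages are described by their patterns
-/

namespace Pool.Agent.Work.MP_8dbde4_lc.HP

open Pool.Agent.Work.MP_8dbde4_lc.TS

variable {σ μ : Sig} {F : Type} {A : Type} {𝔄 : Str σ A}

open Classical in
/-- the pattern of a tuple of coloured rationals at level `q` -/
noncomputable def lpat {n : ℕ} (w : Fin n → ℚ × F) (q : ℚ) (i : Fin n) : Option (Option F) :=
  if (w i).1 < q then none else if (w i).1 = q then some (some (w i).2) else some none

/-- the structure on coloured rationals given by a system of letters -/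
def levStr (L : Letters σ (Option F)) : Str σ (ℚ × F) where
  rel R w := ∀ q : ℚ, L.pat R (lpat w q)

lemma exists_below {n : ℕ} (w : Fin n → ℚ × F) : ∃ q : ℚ, ∀ i, q < (w i).1 := by
  obtain ⟨m, hm⟩ := (Set.finite_range (fun i => (w i).1)).bddBelow
  refine ⟨m - 1, fun i => ?_⟩
  have := hm ⟨i, rfl⟩
  linarith

/-- the letters of a level language -/
def lv (𝔅 : Str σ (ℚ × F)) (h : ∀ R, ∃ w, 𝔅.rel R w) : Letters σ (Option F) where
  term x := x ≠ none
  pat R p := ∃ w, 𝔅.rel R w ∧ ∃ q : ℚ, ∀ i, (p i = some none → q < (w i).1) ∧
    ∀ f, p i = some (some f) → w i = (q, f)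
  weaken R p p' hp hpp := by
    obtain ⟨w, hw, q, hq⟩ := hp
    refine ⟨w, hw, q, fun i => ?_⟩
    rcases hpp i with h1 | h1
    · constructor
      · intro h2
        rw [h1] at h2
        exact absurd h2 (by simp)
      · intro f h2
        rw [h1] at h2
        exact absurd h2 (by simp)
    · rw [h1]
      exact hq i
  const R k hk := by
    have hk' : k = none := by
      by_contra hne
      exact hk hne
    subst hk'
    obtain ⟨w, hw⟩ := h R
    obtain ⟨q, hq⟩ := exists_below w
    refine ⟨w, hw, q, fun i => ⟨fun _ => hq i, fun f hf => ?_⟩⟩
    exact absurd hf (by simp)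

/-- a level language is given by its patterns -/
lemma rel_iff {𝔅 : Str σ (ℚ × F)} (h : IsLevel 𝔅) (R : σ.S) (w : Fin (σ.ar R) → ℚ × F) :
    𝔅.rel R w ↔ (levStr (lv 𝔅 h.nonempty)).rel R w := by
  classical
  constructor
  · intro hw q
    refine ⟨w, hw, q, fun i => ⟨fun hi => ?_, fun f hf => ?_⟩⟩
    · unfold lpat at hi
      split_ifs at hi with h1 h2
      · exact absurd hi (by simp)
      · exact lt_of_le_of_ne (not_lt.1 h1) (fun h3 => h2 h3.symm)
    · unfold lpat at hf
      split_ifs at hf with h1 h2
      · have : (w i).2 = f := by simpa using hf
        rw [← this, ← h2]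
      · exact absurd hf (by simp)
  · intro hw
    have key : ∀ n, ∀ θ : ℚ, (Finset.univ.filter (fun i => θ < (w i).1)).card ≤ n →
        ∃ v, 𝔅.rel R v ∧ (∀ i j, θ < (w i).1 → θ < (w j).1 →
          ((w i).1 < (w j).1 ↔ (v i).1 < (v j).1)) ∧ ∀ i, θ < (w i).1 → (w i).2 = (v i).2 := by
      intro n
      induction n with
      | zero =>
        intro θ hθ
        obtain ⟨v, hv⟩ := h.nonempty R
        have hno : ∀ i, ¬ θ < (w i).1 := by
          intro i hi
          have h1 : i ∈ Finset.univ.filter (fun i => θ < (w i).1) := by simpa using hi
          have h2 : Finset.univ.filter (fun i => θ < (w i).1) = ∅ :=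
            Finset.card_eq_zero.1 (by omega)
          rw [h2] at h1
          exact absurd h1 (by simp)
        exact ⟨v, hv, fun i j hi => absurd hi (hno i), fun i hi => absurd hi (hno i)⟩
      | succ n ih =>
        intro θ hθ
        by_cases hne : (Finset.univ.filter (fun i => θ < (w i).1)).Nonempty
        · obtain ⟨i₀, hi₀, hmin⟩ := Finset.exists_min_image _ (fun i => (w i).1) hne
          have hi₀' : θ < (w i₀).1 := by simpa using hi₀
          have hmin' : ∀ i, θ < (w i).1 → (w i₀).1 ≤ (w i).1 := by
            intro i hi
            exact hmin i (by simpa using hi)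
          have hsub : Finset.univ.filter (fun i => (w i₀).1 < (w i).1) ⊂
              Finset.univ.filter (fun i => θ < (w i).1) := by
            constructor
            · intro i hi
              have : (w i₀).1 < (w i).1 := by simpa using hi
              simpa using hi₀'.trans this
            · intro hs
              have := hs hi₀
              simp at this
          have hcard := Finset.card_lt_card hsub
          obtain ⟨v', hv', hv1, hv2⟩ := ih (w i₀).1 (by omega)
          obtain ⟨u, hu, r, hr⟩ := hw (w i₀).1
          obtain ⟨φ, hφ, hpos, hpp⟩ := h.pp
          have hu' : 𝔅.rel R (fun i => ((u i).1 - r, (u i).2)) := by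
            refine h.inv R u _ ⟨fun i j => ?_, fun i => rfl⟩ hu
            constructor
            · intro h1
              show (u i).1 - r < (u j).1 - r
              linarith
            · intro h1
              have h2 : (u i).1 - r < (u j).1 - r := h1
              linarith
          have hv := hpp R _ _ hu' hv'
          have e1 : ∀ i, (w i).1 = (w i₀).1 → pp φ ((u i).1 - r, (u i).2) (v' i) = (0, (w i).2) := by
            intro i hi
            have h1 := (hr i).2 (w i).2 (by
              unfold lpat
              rw [if_neg (by rw [hi]; exact lt_irrefl _), if_pos hi])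
            rw [h1]
            unfold pp
            simp
          have e2 : ∀ i, (w i₀).1 < (w i).1 →
              pp φ ((u i).1 - r, (u i).2) (v' i) = (φ (v' i).1, (v' i).2) := by
            intro i hi
            have h1 := (hr i).1 (by
              unfold lpat
              rw [if_neg (not_lt.2 hi.le), if_neg hi.ne'])
            unfold pp
            rw [if_neg]
            show ¬ (u i).1 - r ≤ 0
            linarith
          refine ⟨_, hv, fun i j hi hj => ?_, fun i hi => ?_⟩
          · show (w i).1 < (w j).1 ↔ (pp φ ((u i).1 - r, (u i).2) (v' i)).1 <
              (pp φ ((u j).1 - r, (u j).2) (v' j)).1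
            rcases eq_or_lt_of_le (hmin' i hi) with h1 | h1 <;>
              rcases eq_or_lt_of_le (hmin' j hj) with h2 | h2
            · rw [e1 i h1.symm, e1 j h2.symm, ← h1, ← h2]
              simp
            · rw [e1 i h1.symm, e2 j h2, ← h1]
              simp [h2, hpos]
            · rw [e2 i h1, e1 j h2.symm, ← h2]
              have h3 := hpos (v' i).1
              constructor
              · intro h4
                exact absurd h4 (not_lt.2 h1.le)
              · intro h4
                exact absurd (show φ (v' i).1 < 0 from h4) (not_lt.2 h3.le)
            · rw [e2 i h1, e2 j h2, hv1 i j h1 h2]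
              exact hφ.lt_iff_lt.symm
          · show (w i).2 = (pp φ ((u i).1 - r, (u i).2) (v' i)).2
            rcases eq_or_lt_of_le (hmin' i hi) with h1 | h1
            · rw [e1 i h1.symm]
            · rw [e2 i h1]
              exact hv2 i h1
        · rw [Finset.not_nonempty_iff_eq_empty] at hne
          exact ih θ (by rw [hne]; simp)
    obtain ⟨θ, hθ⟩ := exists_below w
    obtain ⟨v, hv, h1, h2⟩ := key _ θ le_rfl
    exact h.inv R v w ⟨fun i j => (h1 i j (hθ i) (hθ j)).symm, fun i => (h2 i (hθ i)).symm⟩ hv

lemma levStr_eq {𝔅 : Str σ (ℚ × F)} (h : IsLevel 𝔅) : levStr (lv 𝔅 h.nonempty) = 𝔅 := by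
  cases 𝔅 with
  | mk rel =>
    unfold levStr
    congr 1
    funext R w
    exact propext (rel_iff h R w).symm

/-- constraint satisfaction for structures given by patterns -/
theorem csp_lev [Finite A] {L : Letters σ (Option F)} (hL : ∀ x, L.term x ↔ x ≠ none) :
    CSP (levStr L) A 𝔄 ↔ Dec L 𝔄 (fun _ => True) := by
  classical
  have hn : ∀ R, L.pat R (fun _ => none) := fun R =>
    L.weaken R _ _ (L.const R none (by rw [hL]; simp)) (fun _ => Or.inl rfl)
  constructor
  · rintro ⟨g, hg⟩
    have key : ∀ n, ∀ W : A → Prop, {x | W x}.ncard ≤ n → Dec L 𝔄 W := by
      intro n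
      induction n with
      | zero =>
        intro W hW
        have : {x | W x} = ∅ := (Set.ncard_eq_zero (Set.toFinite _)).1 (by omega)
        refine Dec.nil W (fun x hx => ?_)
        have : x ∈ ({x | W x} : Set A) := hx
        simp_all
      | succ n ih =>
        intro W hW
        by_cases hne : ∃ x, W x
        · obtain ⟨x₀, hx₀, hmin⟩ := Set.exists_min_image {x | W x} (fun x => (g x).1)
            (Set.toFinite _) hne
          have hmin' : ∀ x, W x → (g x₀).1 ≤ (g x).1 := hmin
          refine Dec.cons W (fun x => if W x then (if (g x).1 = (g x₀).1 then some (some (g x).2)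
            else some none) else none) ⟨fun x => ?_, fun R t ht => ?_⟩ (fun k hk => ih _ ?_)
          · by_cases hx : W x
            · simp only [hx, if_true, iff_true]
              split_ifs <;> simp
            · simp [hx]
          · refine L.weaken R _ _ (hg R t ht (g x₀).1) (fun i => ?_)
            by_cases hi : W (t i)
            · right
              simp only [hi, if_true]
              unfold lpat
              rw [if_neg (not_lt.2 (hmin' _ hi))]
            · left
              simp [hi]
          · have hsub : {x | (if W x then (if (g x).1 = (g x₀).1 then some (some (g x).2)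
                else some none) else none) = some k} ⊂ {x | W x} := by
              constructor
              · intro x hx
                by_contra hx'
                have hx' : ¬ W x := hx'
                have hx2 : (if W x then (if (g x).1 = (g x₀).1 then some (some (g x).2)
                  else some none) else none) = some k := hx
                rw [if_neg hx'] at hx2
                exact absurd hx2 (by simp)
              · intro hsub
                have hx₀ : W x₀ := hx₀
                have hx2 : (if W x₀ then (if (g x₀).1 = (g x₀).1 then some (some (g x₀).2)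
                  else some none) else none) = some k := hsub hx₀
                rw [if_pos hx₀, if_pos rfl] at hx2
                have : some (g x₀).2 = k := by simpa using hx2
                apply hk
                rw [hL, ← this]
                simp
            have := Set.ncard_lt_ncard hsub (Set.toFinite _)
            omega
        · exact Dec.nil W (fun x hx => hne ⟨x, hx⟩)
    exact key _ _ le_rfl
  · intro h
    obtain ⟨g, hg1, hg2⟩ := lists_of_dec h hn
    have hv : ∀ x, ∃ m : ℕ, ∃ f : F, g x = List.replicate m none ++ [some f] := by
      intro x
      obtain ⟨l', t, h1, h2, h3⟩ := hg1 x trivial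
      rw [hL] at h2
      obtain ⟨f, rfl⟩ := Option.ne_none_iff_exists'.1 h2
      refine ⟨l'.length, f, ?_⟩
      rw [h1]
      congr 1
      rw [List.eq_replicate_iff]
      refine ⟨rfl, fun b hb => ?_⟩
      have := h3 b hb
      rw [hL] at this
      simpa using this
    choose m f hmf using hv
    have hnx : ∀ (n : ℕ) (x : A), nxt (List.replicate n none) (g x) =
        if m x < n then none else if m x = n then some (some (f x)) else some none := by
      intro n x
      rw [hmf x]
      generalize m x = k
      induction n generalizing k with
      | zero =>
        cases k with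
        | zero => simp [nxt]
        | succ k => simp [nxt, List.replicate_succ]
      | succ n ih =>
        cases k with
        | zero => simp [nxt, List.replicate_succ]
        | succ k =>
          simp only [List.replicate_succ, List.cons_append, nxt, if_true]
          rw [ih k]
          simp
    refine ⟨fun x => ((m x : ℚ), f x), fun R t ht q => ?_⟩
    by_cases hq : ∃ n : ℕ, q = n
    · obtain ⟨n, rfl⟩ := hq
      have := hg2 R t ht (List.replicate n none)
      convert this using 2
      rename_i i
      rw [if_pos trivial, hnx]
      unfold lpat
      simp
    · refine L.weaken R _ _ (L.const R none (by rw [hL]; simp)) (fun i => ?_)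
      unfold lpat
      split_ifs with h1 h2
      · exact Or.inl rfl
      · exact absurd ⟨m (t i), h2.symm⟩ hq
      · exact Or.inr rfl

end Pool.Agent.Work.MP_8dbde4_lc.HP
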