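import Pool.Agent.Work.MP_8dbde4_lc.HP.Final

/-!
# Level languages: a sufficient condition for FP, FPC and polynomial time

For every level language `𝔅` (a structure on coloured rationals which is preserved by pp), the
constraint satisfaction problem of `𝔅` is in FP, in FPC, or in polynomial time, if that of
the structure `levLetters₀ 𝔅` on the colours is.
-/

namespace Pool.Agent.Work.MP_8dbde4_lc.HP.LevelLanguagesResult

open Pool.Agent.Work.MP_8dbde4_lc.TS
open Pool.Agent.Work.MP_8dbde4_lc.HP

theorem result (ℓ : Logic) (σ : Sig) (F : Type) (𝔅 : Str σ (ℚ × F)) (h : IsLevel 𝔅)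
    (h0 : ℓ.In (CSP (levLetters₀ 𝔅))) : ℓ.In (CSP 𝔅) :=
  in_level ℓ h h0

end Pool.Agent.Work.MP_8dbde4_lc.HP.LevelLanguagesResult
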