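import Pool.Agent.Work.MP_8dbde4_lc.TS.Defs

/-!
# The logics FP and FPC, and polynomial time
-/

namespace Pool.Agent.Work.MP_8dbde4_lc.HP

open Pool.Agent.Work.MP_8dbde4_lc.TS

/-- Three notions of definability: in FP, in FPC, and in FPC on linearly ordered structures (that
is, decidability in polynomial time). -/
inductive Logic : Type
  | fp
  | fpc
  | ptime

/-- The class `𝒦` is in the logic `ℓ`. -/
def Logic.In (ℓ : Logic) {σ : Sig} (𝒦 : Class σ) : Prop :=
  match ℓ with
  | .fp => InFP 𝒦
  | .fpc => InFPC 𝒦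
  | .ptime => InFPCOrd 𝒦

end Pool.Agent.Work.MP_8dbde4_lc.HP
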